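import Mathlib

/-! Definitions for permutation groups and their two-colourings. -/

set_option autoImplicit false

namespace Pool.Agent.Lib.MP_acf1dc_al

open Equiv Finset

/-- `R` has two colourings, each with trivial stabiliser, in different `R`-orbits. -/
def TwoTypes {B : Type*} (R : Subgroup (Perm B)) : Prop :=
  ∃ D : Bool → B → Bool, ∀ s t : Bool, ∀ g ∈ R, (∀ x, D t (g x) = D s x) → s = t ∧ g = 1

/-- Two-transitivity. -/
def TwoTrans {Ω : Type*} (G : Subgroup (Perm Ω)) : Prop :=
  ∀ a b c d : Ω, a ≠ b → c ≠ d → ∃ g ∈ G, g a = c ∧ g b = d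

/-- Only the two trivial equivalence relations are invariant. -/
def Prim {Ω : Type*} (G : Subgroup (Perm Ω)) : Prop :=
  ∀ r : Setoid Ω, (∀ g ∈ G, ∀ x y, r x y → r (g x) (g y)) → r = ⊥ ∨ r = ⊤

variable {Ω : Type*} [Fintype Ω] [DecidableEq Ω]

open Classical in
/-- The points `z` such that `x`, `y` lie in different orbits of the stabiliser of `z`. -/
noncomputable def sep (G : Subgroup (Perm Ω)) (x y : Ω) : Finset Ω :=
  univ.filter fun z => ∀ g ∈ G, g z = z → g x ≠ y

open Classical in
/-- The weight sum over the nontrivial elements of `G`. -/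
noncomputable def wsum (G : Subgroup (Perm Ω)) : ℝ :=
  ∑ g ∈ univ.filter (fun g : Perm Ω => g ∈ G ∧ g ≠ 1), (4 / 5 : ℝ) ^ g.support.card

open Classical in
/-- The orbit of `x` under the pointwise stabiliser of `Δ` in `G`. -/
noncomputable def orb (G : Subgroup (Perm Ω)) (Δ : Finset Ω) (x : Ω) : Finset Ω :=
  univ.filter fun y => ∃ g ∈ G, (∀ z ∈ Δ, g z = z) ∧ g x = y

/-- No action of `Γ` on a finite set has an image containing all even permutations of a subset
with more than `M` elements. -/
def NoBigAlt (M : ℕ) (Γ : Type) [Group Γ] : Prop :=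
  ∀ (Δ : Type) [Fintype Δ] [DecidableEq Δ] (φ : Γ →* Perm Δ) (E : Finset Δ),
    (∀ σ ∈ alternatingGroup Δ, σ.support ⊆ E → σ ∈ φ.range) → E.card ≤ M

end Pool.Agent.Lib.MP_acf1dc_al
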