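import Mathlib
import Pool.Agent.Lib.MP_acf1dc_al.Defs

/-! Pairs of points of a primitive group which is not 2-transitive are separated by many
point stabilisers. -/

set_option autoImplicit false
set_option linter.unusedSectionVars false

namespace Pool.Agent.Lib.MP_acf1dc_al

open Equiv Finset

section BabaiAux

variable {Ω : Type} [Fintype Ω] [DecidableEq Ω] {G : Subgroup (Perm Ω)}

theorem babai_mem_sep {x y z : Ω} : z ∈ sep G x y ↔ ∀ g ∈ G, g z = z → g x ≠ y := by
  simp [sep]

theorem babai_not_mem_sep {x y z : Ω} : z ∉ sep G x y ↔ ∃ g ∈ G, g z = z ∧ g x = y := by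
  rw [babai_mem_sep]
  push Not
  rfl

theorem babai_sep_comm (x y : Ω) : sep G x y = sep G y x := by
  have key : ∀ x y : Ω, ∀ z, z ∉ sep G x y → z ∉ sep G y x := by
    intro x y z h
    rw [babai_not_mem_sep] at h ⊢
    obtain ⟨g, hg, h1, h2⟩ := h
    refine ⟨g⁻¹, G.inv_mem hg, ?_, ?_⟩
    · rw [Perm.inv_eq_iff_eq]; exact h1.symm
    · rw [Perm.inv_eq_iff_eq]; exact h2.symm
  ext z
  constructor
  · intro h
    by_contra h'
    exact key _ _ _ h' h
  · intro h
    by_contra h'
    exact key _ _ _ h' h

theorem babai_sep_self (x : Ω) : sep G x x = ∅ := by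
  rw [Finset.eq_empty_iff_forall_notMem]
  intro z
  rw [babai_not_mem_sep]
  exact ⟨1, G.one_mem, rfl, rfl⟩

theorem babai_sep_subset (x y w : Ω) : sep G x w ⊆ sep G x y ∪ sep G y w := by
  intro z hz
  by_contra h
  rw [Finset.mem_union, not_or] at h
  obtain ⟨h1, h2⟩ := h
  rw [babai_not_mem_sep] at h1 h2
  obtain ⟨g, hg, hgz, hgx⟩ := h1
  obtain ⟨k, hk, hkz, hky⟩ := h2
  refine (babai_mem_sep.1 hz) (k * g) (G.mul_mem hk hg) ?_ ?_
  · rw [Perm.mul_apply, hgz, hkz]
  · rw [Perm.mul_apply, hgx, hky]

theorem babai_sep_card_le (x y w : Ω) :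
    (sep G x w).card ≤ (sep G x y).card + (sep G y w).card :=
  (Finset.card_le_card (babai_sep_subset x y w)).trans (Finset.card_union_le _ _)

theorem babai_mem_sep_smul {g : Perm Ω} (hg : g ∈ G) {x y z : Ω} (h : z ∈ sep G x y) :
    g z ∈ sep G (g x) (g y) := by
  rw [babai_mem_sep] at h ⊢
  intro k hk h1 h2
  refine h (g⁻¹ * k * g) (G.mul_mem (G.mul_mem (G.inv_mem hg) hk) hg) ?_ ?_
  · rw [Perm.mul_apply, Perm.mul_apply, h1]; simp
  · rw [Perm.mul_apply, Perm.mul_apply, h2]; simp

theorem babai_card_le_smul {g : Perm Ω} (hg : g ∈ G) (x y : Ω) :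
    (sep G x y).card ≤ (sep G (g x) (g y)).card := by
  apply Finset.card_le_card_of_injOn (fun z => g z)
  · intro z hz
    exact babai_mem_sep_smul hg hz
  · intro a _ b _ hab
    exact g.injective hab

theorem babai_card_smul {g : Perm Ω} (hg : g ∈ G) (x y : Ω) :
    (sep G (g x) (g y)).card = (sep G x y).card := by
  apply le_antisymm _ (babai_card_le_smul hg x y)
  have := babai_card_le_smul (G.inv_mem hg) (g x) (g y)
  simpa using this

/-- `(u, v)` lies in the orbit of `(a, b)`. -/
def babaiRel (G : Subgroup (Perm Ω)) (a b u v : Ω) : Prop := ∃ g ∈ G, g a = u ∧ g b = v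

theorem babaiRel.smul {a b u v : Ω} (h : babaiRel G a b u v) {g : Perm Ω} (hg : g ∈ G) :
    babaiRel G a b (g u) (g v) := by
  obtain ⟨k, hk, rfl, rfl⟩ := h
  exact ⟨g * k, G.mul_mem hg hk, rfl, rfl⟩

theorem babaiRel.card {a b u v : Ω} (h : babaiRel G a b u v) :
    (sep G u v).card = (sep G a b).card := by
  obtain ⟨k, hk, rfl, rfl⟩ := h
  exact babai_card_smul hk a b

theorem babai_transitive (hG : Prim G) (hn : 3 ≤ Fintype.card Ω) (x y : Ω) :
    ∃ g ∈ G, g x = y := by
  classical
  let r : Setoid Ω :=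
    { r := fun x y => ∃ g ∈ G, g x = y
      iseqv :=
        { refl := fun x => ⟨1, G.one_mem, rfl⟩
          symm := by
            rintro x y ⟨g, hg, rfl⟩
            exact ⟨g⁻¹, G.inv_mem hg, by simp⟩
          trans := by
            rintro x y z ⟨g, hg, rfl⟩ ⟨k, hk, rfl⟩
            exact ⟨k * g, G.mul_mem hk hg, rfl⟩ } }
  have hr : ∀ g ∈ G, ∀ x y, r x y → r (g x) (g y) := by
    rintro g hg x y ⟨k, hk, rfl⟩
    refine ⟨g * k * g⁻¹, G.mul_mem (G.mul_mem hg hk) (G.inv_mem hg), by simp⟩
  rcases hG r hr with h | h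
  · exfalso
    have h1 : ∀ g ∈ G, ∀ x, g x = x := by
      intro g hg x
      have : r x (g x) := ⟨g, hg, rfl⟩
      rw [h] at this
      have h' : x = g x := this
      exact h'.symm
    obtain ⟨a, b, c, hab, hac, hbc⟩ := (Fintype.two_lt_card_iff (α := Ω)).1 (by omega)
    let s : Setoid Ω :=
      { r := fun x y => (x = a ↔ y = a)
        iseqv :=
          { refl := fun x => Iff.rfl
            symm := fun h => h.symm
            trans := fun h k => h.trans k } }
    have hs : ∀ g ∈ G, ∀ x y, s x y → s (g x) (g y) := by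
      intro g hg x y hxy
      rw [h1 g hg x, h1 g hg y]
      exact hxy
    rcases hG s hs with h | h
    · have : s b c := by
        show (b = a ↔ c = a)
        constructor
        · intro h; exact absurd h.symm hab
        · intro h; exact absurd h.symm hac
      rw [h] at this
      exact hbc this
    · have : s a b := by
        rw [h]
        trivial
      have h2 : (a = a ↔ b = a) := this
      exact hab (h2.1 rfl).symm
  · have : r x y := by
      rw [h]
      trivial
    exact this

/-- No proper nonempty set is closed under the relation `babaiRel`. -/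
theorem babai_connected (hG : Prim G) {a b : Ω} (hab : a ≠ b) (W : Set Ω)
    (hW : ∀ u v, babaiRel G a b u v → (u ∈ W ↔ v ∈ W)) (x y : Ω) (hx : x ∈ W) : y ∈ W := by
  let r : Setoid Ω :=
    { r := fun x y => ∀ W : Set Ω, (∀ u v, babaiRel G a b u v → (u ∈ W ↔ v ∈ W)) →
        (x ∈ W ↔ y ∈ W)
      iseqv :=
        { refl := fun x W _ => Iff.rfl
          symm := fun h W hW => (h W hW).symm
          trans := fun h k W hW => (h W hW).trans (k W hW) } }
  have hr : ∀ g ∈ G, ∀ x y, r x y → r (g x) (g y) := by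
    intro g hg x y h W hW
    exact h (g ⁻¹' W) (fun u v huv => hW _ _ (huv.smul hg))
  rcases hG r hr with h | h
  · exfalso
    have : r a b := fun W hW => hW a b ⟨1, G.one_mem, rfl, rfl⟩
    rw [h] at this
    exact hab this
  · have : r x y := by
      rw [h]
      trivial
    exact ((this W hW).1 hx)

/-- Adjacency in the orbital graph. -/
def babaiAdj (G : Subgroup (Perm Ω)) (a b u v : Ω) : Prop :=
  babaiRel G a b u v ∨ babaiRel G a b v u

theorem babaiAdj.symm {a b u v : Ω} (h : babaiAdj G a b u v) : babaiAdj G a b v u := Or.symm h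

theorem babaiAdj.smul {a b u v : Ω} (h : babaiAdj G a b u v) {g : Perm Ω} (hg : g ∈ G) :
    babaiAdj G a b (g u) (g v) := by
  rcases h with h | h
  · exact Or.inl (h.smul hg)
  · exact Or.inr (h.smul hg)

theorem babaiAdj.card {a b u v : Ω} (h : babaiAdj G a b u v) :
    (sep G u v).card = (sep G a b).card := by
  rcases h with h | h
  · exact h.card
  · rw [babai_sep_comm]
    exact h.card

theorem babai_crossing (hG : Prim G) {a b : Ω} (hab : a ≠ b) (W : Set Ω) {x y : Ω}
    (hx : x ∈ W) (hy : y ∉ W) : ∃ u v, babaiAdj G a b u v ∧ u ∈ W ∧ v ∉ W := by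
  by_contra hcon
  push Not at hcon
  refine hy (babai_connected hG hab W ?_ x y hx)
  intro u v huv
  constructor
  · intro hu
    exact hcon u v (Or.inl huv) hu
  · intro hv
    exact hcon v u (Or.inr huv) hv

/-- every vertex lies on an edge separated by `z`. -/
theorem babai_edge (hG : Prim G) (hn : 3 ≤ Fintype.card Ω) {a b : Ω} (hab : a ≠ b) (z x : Ω) :
    ∃ y, babaiAdj G a b x y ∧ z ∈ sep G x y := by
  classical
  -- a point outside the orbit of `x` under the stabiliser of `z`
  obtain ⟨w, hw⟩ : ∃ w, z ∈ sep G x w := by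
    by_cases hxz : x = z
    · subst hxz
      obtain ⟨w, hw⟩ : ∃ w, w ≠ x := by
        have : Nontrivial Ω := Fintype.one_lt_card_iff_nontrivial.1 (by omega)
        exact exists_ne x
      refine ⟨w, babai_mem_sep.2 ?_⟩
      intro g _ hgx
      rw [hgx]
      exact hw.symm
    · refine ⟨z, babai_mem_sep.2 ?_⟩
      intro g _ hgz hgx
      exact hxz (g.injective (hgx.trans hgz.symm))
  have hx : x ∈ {u : Ω | z ∉ sep G x u} := by
    show z ∉ sep G x x
    rw [babai_sep_self]
    simp
  have hw' : w ∉ {u : Ω | z ∉ sep G x u} := by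
    show ¬ (z ∉ sep G x w)
    exact not_not.2 hw
  obtain ⟨u, v, huv, hu, hv⟩ := babai_crossing hG hab {u : Ω | z ∉ sep G x u} hx hw'
  have hu' : z ∉ sep G x u := hu
  have hv' : z ∈ sep G x v := not_not.1 hv
  obtain ⟨g, hg, hgz, hgx⟩ := babai_not_mem_sep.1 hu'
  refine ⟨g⁻¹ v, ?_, ?_⟩
  · have := huv.smul (G.inv_mem hg)
    rw [← hgx] at this
    simpa using this
  · by_contra hcon
    obtain ⟨k, hk, hkz, hkx⟩ := babai_not_mem_sep.1 hcon
    refine (babai_mem_sep.1 hv') (g * k) (G.mul_mem hg hk) ?_ ?_
    · rw [Perm.mul_apply, hkz, hgz]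
    · rw [Perm.mul_apply, hkx]
      simp

open Classical in
/-- The out-neighbours. -/
noncomputable def babaiOut (G : Subgroup (Perm Ω)) (a b x : Ω) : Finset Ω :=
  univ.filter fun y => babaiRel G a b x y

theorem babai_mem_out {a b x y : Ω} : y ∈ babaiOut G a b x ↔ babaiRel G a b x y := by
  simp [babaiOut]

theorem babai_out_card_le {a b x : Ω} {g : Perm Ω} (hg : g ∈ G) :
    (babaiOut G a b x).card ≤ (babaiOut G a b (g x)).card := by
  apply Finset.card_le_card_of_injOn (fun z => g z)
  · intro y hy
    exact babai_mem_out.2 ((babai_mem_out.1 hy).smul hg)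
  · intro u _ v _ huv
    exact g.injective huv

theorem babai_out_card (hG : Prim G) (hn : 3 ≤ Fintype.card Ω) (a b x y : Ω) :
    (babaiOut G a b x).card = (babaiOut G a b y).card := by
  obtain ⟨g, hg, rfl⟩ := babai_transitive hG hn x y
  obtain ⟨k, hk, hkx⟩ := babai_transitive hG hn (g x) x
  apply le_antisymm (babai_out_card_le hg)
  have := babai_out_card_le (a := a) (b := b) (x := g x) hk
  rwa [hkx] at this

open Classical in
/-- F1. -/
theorem babai_F1 (hG : Prim G) (hn : 3 ≤ Fintype.card Ω) {a b : Ω} (hab : a ≠ b) (x : Ω) :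
    Fintype.card Ω ≤ 2 * ((babaiOut G a b x).card * (sep G a b).card) := by
  set X : Finset (Ω × Ω) := univ.filter fun e => babaiRel G a b e.1 e.2 with hX
  have h1 : ∀ z : Ω, Fintype.card Ω ≤ 2 * (X.filter fun e => z ∈ sep G e.1 e.2).card := by
    intro z
    have hcov : (univ : Finset Ω) ⊆ (X.filter fun e => z ∈ sep G e.1 e.2).image Prod.fst ∪
        (X.filter fun e => z ∈ sep G e.1 e.2).image Prod.snd := by
      intro u _
      obtain ⟨v, huv, hz⟩ := babai_edge hG hn hab z u
      rw [Finset.mem_union]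
      rcases huv with h | h
      · left
        refine Finset.mem_image.2 ⟨(u, v), ?_, rfl⟩
        refine Finset.mem_filter.2 ⟨Finset.mem_filter.2 ⟨Finset.mem_univ _, h⟩, hz⟩
      · right
        refine Finset.mem_image.2 ⟨(v, u), ?_, rfl⟩
        refine Finset.mem_filter.2 ⟨Finset.mem_filter.2 ⟨Finset.mem_univ _, h⟩, ?_⟩
        rw [babai_sep_comm] at hz
        exact hz
    have h2 := (Finset.card_le_card hcov).trans (Finset.card_union_le _ _)
    rw [Finset.card_univ] at h2
    have h3 := Finset.card_image_le (s := X.filter fun e => z ∈ sep G e.1 e.2) (f := Prod.fst)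
    have h4 := Finset.card_image_le (s := X.filter fun e => z ∈ sep G e.1 e.2) (f := Prod.snd)
    omega
  have h2 : ∑ z : Ω, (X.filter fun e => z ∈ sep G e.1 e.2).card = X.card * (sep G a b).card := by
    have h3 : ∑ z : Ω, (X.filter fun e => z ∈ sep G e.1 e.2).card
        = ∑ e ∈ X, (sep G e.1 e.2).card := by
      have h4 : ∀ z : Ω, (X.filter fun e => z ∈ sep G e.1 e.2).card
          = ∑ e ∈ X, if z ∈ sep G e.1 e.2 then 1 else 0 := by
        intro z
        rw [Finset.card_filter]
      have h5 : ∀ e : Ω × Ω, (sep G e.1 e.2).card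
          = ∑ z : Ω, if z ∈ sep G e.1 e.2 then 1 else 0 := by
        intro e
        rw [← Finset.card_filter]
        congr 1
        ext z
        simp
      rw [Finset.sum_congr rfl (fun z _ => h4 z), Finset.sum_congr rfl (fun e _ => h5 e),
        Finset.sum_comm]
    rw [h3, Finset.sum_congr rfl (g := fun _ => (sep G a b).card), Finset.sum_const,
      smul_eq_mul]
    intro e he
    exact (Finset.mem_filter.1 he).2.card
  have h3 : X.card = Fintype.card Ω * (babaiOut G a b x).card := by
    have h4 : X.card = ∑ u : Ω, (X.filter fun e => e.1 = u).card :=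
      Finset.card_eq_sum_card_fiberwise (fun e _ => Finset.mem_univ _)
    have h5 : ∀ u : Ω, (X.filter fun e => e.1 = u).card = (babaiOut G a b x).card := by
      intro u
      rw [babai_out_card hG hn a b x u]
      apply Finset.card_bij (fun e _ => e.2)
      · rintro ⟨p, q⟩ he
        obtain ⟨he1, he2⟩ := Finset.mem_filter.1 he
        have he3 : babaiRel G a b p q := (Finset.mem_filter.1 he1).2
        have he4 : p = u := he2
        rw [he4] at he3
        exact babai_mem_out.2 he3
      · rintro ⟨p, q⟩ he ⟨p', q'⟩ he' hq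
        have e1 : p = u := (Finset.mem_filter.1 he).2
        have e2 : p' = u := (Finset.mem_filter.1 he').2
        have e3 : q = q' := hq
        rw [e1, e2, e3]
      · intro v hv
        refine ⟨(u, v), ?_, rfl⟩
        exact Finset.mem_filter.2 ⟨Finset.mem_filter.2 ⟨Finset.mem_univ _,
          babai_mem_out.1 hv⟩, rfl⟩
    rw [h4, Finset.sum_congr rfl (fun u _ => h5 u), Finset.sum_const, smul_eq_mul,
      Finset.card_univ]
  have h4 : Fintype.card Ω * Fintype.card Ω ≤
      Fintype.card Ω * (2 * ((babaiOut G a b x).card * (sep G a b).card)) := by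
    calc Fintype.card Ω * Fintype.card Ω = ∑ _z : Ω, Fintype.card Ω := by
          rw [Finset.sum_const, smul_eq_mul, Finset.card_univ]
      _ ≤ ∑ z : Ω, 2 * (X.filter fun e => z ∈ sep G e.1 e.2).card :=
          Finset.sum_le_sum fun z _ => h1 z
      _ = 2 * (X.card * (sep G a b).card) := by rw [← Finset.mul_sum, h2]
      _ = _ := by rw [h3]; ring
  exact Nat.le_of_mul_le_mul_left h4 (by omega)

end BabaiAux

theorem babai {Ω : Type} [Fintype Ω] [DecidableEq Ω] (G : Subgroup (Perm Ω))
    (hG : Prim G) (hn : 3 ≤ Fintype.card Ω) (h2 : ¬ TwoTrans G) {x y : Ω} (hxy : x ≠ y) :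
    Fintype.card Ω ≤ 8 * (sep G x y).card ^ 2 := by
  classical
  set n := Fintype.card Ω with hnn
  set δ := (sep G x y).card with hδ
  by_cases hdist : ∀ p q : Ω, p = q ∨ babaiAdj G x y p q ∨
      ∃ w, babaiAdj G x y p w ∧ babaiAdj G x y w q
  · -- diameter at most two
    have hsep : ∀ p q : Ω, (sep G p q).card ≤ 2 * δ := by
      intro p q
      rcases hdist p q with h | h | ⟨w, h1, h3⟩
      · rw [h, babai_sep_self]
        simp
      · rw [h.card]
        omega
      · have := babai_sep_card_le (G := G) p w q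
        rw [h1.card, h3.card] at this
        omega
    have hy0 : ∀ z : Ω, ∃ y0, y0 ≠ z ∧ z ∈ sep G x y0 := by
      intro z
      by_cases hxz : x = z
      · refine ⟨y, ?_, babai_mem_sep.2 ?_⟩
        · rw [← hxz]; exact hxy.symm
        · intro g _ hgz
          rw [hxz, hgz, ← hxz]
          exact hxy
      · by_contra hcon
        push Not at hcon
        apply h2
        intro c d e f hcd hef
        obtain ⟨g, hg, hgc⟩ := babai_transitive hG hn c z
        obtain ⟨k, hk, hke⟩ := babai_transitive hG hn e z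
        have hgd : g d ≠ z := by
          intro h
          exact hcd (g.injective (hgc.trans h.symm))
        have hkf : k f ≠ z := by
          intro h
          exact hef (k.injective (hke.trans h.symm))
        obtain ⟨p, hp, hpz, hpx⟩ := babai_not_mem_sep.1 (hcon _ hgd)
        obtain ⟨q, hq, hqz, hqx⟩ := babai_not_mem_sep.1 (hcon _ hkf)
        have hpz' : p⁻¹ z = z := by rw [Perm.inv_eq_iff_eq]; exact hpz.symm
        have hpx' : p⁻¹ (g d) = x := by rw [Perm.inv_eq_iff_eq]; exact hpx.symm
        have hke' : k⁻¹ z = e := by rw [Perm.inv_eq_iff_eq]; exact hke.symm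
        refine ⟨k⁻¹ * q * p⁻¹ * g, G.mul_mem (G.mul_mem (G.mul_mem (G.inv_mem hk) hq)
          (G.inv_mem hp)) hg, ?_, ?_⟩
        · rw [Perm.mul_apply, Perm.mul_apply, Perm.mul_apply, hgc, hpz', hqz, hke']
        · rw [Perm.mul_apply, Perm.mul_apply, Perm.mul_apply, hpx', hqx]
          simp
    have hz : ∀ z : Ω, n ≤ 4 * δ * (univ.filter fun y' => z ∈ sep G x y').card := by
      intro z
      obtain ⟨y0, hy0z, hy0⟩ := hy0 z
      have hF := babai_F1 hG hn hy0z.symm z
      have h3 : (babaiOut G z y0 z).card ≤ (univ.filter fun y' => z ∈ sep G x y').card := by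
        apply Finset.card_le_card
        intro w hw
        obtain ⟨g, hg, hgz, hgy⟩ := babai_mem_out.1 hw
        refine Finset.mem_filter.2 ⟨Finset.mem_univ _, ?_⟩
        by_contra hcon
        obtain ⟨k, hk, hkz, hkx⟩ := babai_not_mem_sep.1 hcon
        refine (babai_mem_sep.1 hy0) (g⁻¹ * k) (G.mul_mem (G.inv_mem hg) hk) ?_ ?_
        · rw [Perm.mul_apply, hkz, Perm.inv_eq_iff_eq]
          exact hgz.symm
        · rw [Perm.mul_apply, hkx, Perm.inv_eq_iff_eq]
          exact hgy.symm
      have h4 := hsep z y0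
      calc n ≤ 2 * ((babaiOut G z y0 z).card * (sep G z y0).card) := hF
        _ ≤ 2 * ((univ.filter fun y' => z ∈ sep G x y').card * (2 * δ)) :=
            Nat.mul_le_mul_left _ (Nat.mul_le_mul h3 h4)
        _ = _ := by ring
    have hsum : ∑ z : Ω, (univ.filter fun y' => z ∈ sep G x y').card
        = ∑ y' : Ω, (sep G x y').card := by
      have h4 : ∀ z : Ω, (univ.filter fun y' => z ∈ sep G x y').card
          = ∑ y' : Ω, if z ∈ sep G x y' then 1 else 0 := by
        intro z
        rw [Finset.card_filter]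
      have h5 : ∀ y' : Ω, (sep G x y').card
          = ∑ z : Ω, if z ∈ sep G x y' then 1 else 0 := by
        intro e
        rw [← Finset.card_filter]
        congr 1
        ext z
        simp
      rw [Finset.sum_congr rfl (fun z _ => h4 z), Finset.sum_congr rfl (fun e _ => h5 e),
        Finset.sum_comm]
    have h5 : n * n ≤ n * (8 * δ ^ 2) := by
      calc n * n = ∑ _z : Ω, n := by
            rw [Finset.sum_const, smul_eq_mul, Finset.card_univ]
        _ ≤ ∑ z : Ω, 4 * δ * (univ.filter fun y' => z ∈ sep G x y').card :=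
            Finset.sum_le_sum fun z _ => hz z
        _ = 4 * δ * ∑ y' : Ω, (sep G x y').card := by rw [← Finset.mul_sum, hsum]
        _ ≤ 4 * δ * ∑ _y' : Ω, 2 * δ :=
            Nat.mul_le_mul_left _ (Finset.sum_le_sum fun y' _ => hsep x y')
        _ = n * (8 * δ ^ 2) := by
            rw [Finset.sum_const, smul_eq_mul, Finset.card_univ]
            ring
    exact Nat.le_of_mul_le_mul_left h5 (by omega)
  · -- some pair at distance more than two
    push Not at hdist
    obtain ⟨p, q, hpq, hadj, hcom⟩ := hdist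
    have hp : p ∈ {v : Ω | p = v ∨ babaiAdj G x y p v ∨
        ∃ w, babaiAdj G x y p w ∧ babaiAdj G x y w v} := Or.inl rfl
    have hq : q ∉ {v : Ω | p = v ∨ babaiAdj G x y p v ∨
        ∃ w, babaiAdj G x y p w ∧ babaiAdj G x y w v} := by
      rintro (h | h | ⟨w, h1, h3⟩)
      · exact hpq h
      · exact hadj h
      · exact hcom w h1 h3
    obtain ⟨u, v, huv, hu, hv⟩ := babai_crossing hG hxy _ hp hq
    have hpu : (sep G p u).card ≤ 2 * δ := by
      rcases hu with h | h | ⟨w, h1, h3⟩
      · rw [h, babai_sep_self]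
        simp
      · rw [h.card]
        omega
      · have := babai_sep_card_le (G := G) p w u
        rw [h1.card, h3.card] at this
        omega
    have hpv : (sep G p v).card ≤ 3 * δ := by
      have := babai_sep_card_le (G := G) p u v
      rw [huv.card] at this
      omega
    have hout : (babaiOut G x y p).card ≤ (sep G p v).card := by
      apply Finset.card_le_card
      intro z hz
      by_contra hcon
      obtain ⟨g, hg, hgz, hgp⟩ := babai_not_mem_sep.1 hcon
      have h1 := babai_mem_out.1 hz
      have h3 := h1.smul hg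
      rw [hgz, hgp] at h3
      exact hv (Or.inr (Or.inr ⟨z, Or.inl h1, Or.inr h3⟩))
    have hF := babai_F1 hG hn hxy p
    calc n ≤ 2 * ((babaiOut G x y p).card * δ) := hF
      _ ≤ 2 * ((3 * δ) * δ) :=
          Nat.mul_le_mul_left _ (Nat.mul_le_mul_right _ (hout.trans hpv))
      _ ≤ 8 * δ ^ 2 := by
          rw [pow_two]
          nlinarith [Nat.zero_le (δ * δ)]

end Pool.Agent.Lib.MP_acf1dc_al
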