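import Mathlib
import Pool.Agent.Lib.MP_acf1dc_al.Defs

/-! Small orbits of a pointwise stabiliser give a small base; the weight sum. -/

set_option autoImplicit false

namespace Pool.Agent.Lib.MP_acf1dc_al

open Equiv Finset

theorem base_fiber_card_le {Ω : Type} [Fintype Ω] [DecidableEq Ω] (G : Subgroup (Perm Ω))
    (h2 : TwoTrans G) {x y c d c' d' : Ω} (hcd : c ≠ d) (hcd' : c' ≠ d')
    (Gs : Finset (Perm Ω)) (hGs : ∀ g, g ∈ Gs ↔ g ∈ G) :
    (Gs.filter fun g : Perm Ω => (g⁻¹ x, g⁻¹ y) = (c, d)).card ≤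
    (Gs.filter fun g : Perm Ω => (g⁻¹ x, g⁻¹ y) = (c', d')).card := by
  obtain ⟨k, hk, hk1, hk2⟩ := h2 c d c' d' hcd hcd'
  refine Finset.card_le_card_of_injOn (fun g => g * k⁻¹) ?_ ?_
  · intro g hg
    rw [Finset.mem_coe, Finset.mem_filter, Prod.mk.injEq, hGs] at hg ⊢
    obtain ⟨hgG, hg1, hg2⟩ := hg
    refine ⟨G.mul_mem hgG (G.inv_mem hk), ?_, ?_⟩
    · rw [mul_inv_rev, inv_inv, Perm.mul_apply, hg1, hk1]
    · rw [mul_inv_rev, inv_inv, Perm.mul_apply, hg2, hk2]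
  · intro g _ g' _ h
    exact mul_right_cancel h

theorem base_mem_orb_self {Ω : Type} [Fintype Ω] [DecidableEq Ω] (G : Subgroup (Perm Ω))
    (Δ : Finset Ω) (x : Ω) : x ∈ orb G Δ x := by
  simp only [orb, Finset.mem_filter, Finset.mem_univ, true_and]
  exact ⟨1, G.one_mem, fun _ _ => rfl, rfl⟩

theorem base_orb_image {Ω : Type} [Fintype Ω] [DecidableEq Ω] (G : Subgroup (Perm Ω))
    (Δ : Finset Ω) (x y : Ω) {g : Perm Ω} (hg : g ∈ G)
    (h : y ∈ orb G (Δ.image g) x) : g⁻¹ y ∈ orb G Δ (g⁻¹ x) := by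
  simp only [orb, Finset.mem_filter, Finset.mem_univ, true_and] at h ⊢
  obtain ⟨k, hk, hk1, hk2⟩ := h
  refine ⟨g⁻¹ * k * g, G.mul_mem (G.mul_mem (G.inv_mem hg) hk) hg, fun z hz => ?_, ?_⟩
  · rw [Perm.mul_apply, Perm.mul_apply, hk1 _ (Finset.mem_image_of_mem _ hz)]
    simp
  · rw [Perm.mul_apply, Perm.mul_apply]
    simp [hk2]

theorem base_offDiag {Ω : Type} [Fintype Ω] [DecidableEq Ω] (G : Subgroup (Perm Ω))
    (Δ : Finset Ω) (hΔ : ∀ x, 2 * (orb G Δ x).card ≤ Fintype.card Ω) :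
    2 * ((univ : Finset Ω).offDiag.filter fun p => p.2 ∈ orb G Δ p.1).card ≤
      (univ : Finset Ω).offDiag.card := by
  have h1 : ((univ : Finset Ω).offDiag.filter fun p => p.2 ∈ orb G Δ p.1).card =
      ∑ x : Ω, ((orb G Δ x).card - 1) := by
    rw [Finset.card_eq_sum_card_fiberwise (f := Prod.fst) (t := univ)
      (fun _ _ => by simp)]
    refine Finset.sum_congr rfl fun x _ => ?_
    rw [← Finset.card_erase_of_mem (base_mem_orb_self G Δ x)]
    refine Finset.card_bij' (fun p _ => p.2) (fun y _ => (x, y)) ?_ ?_ ?_ ?_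
    · intro p hp
      simp only [Finset.mem_filter, Finset.mem_offDiag, Finset.mem_univ, true_and,
        Finset.mem_erase] at hp ⊢
      obtain ⟨⟨hne, hm⟩, hx⟩ := hp
      subst hx
      exact ⟨fun h => hne h.symm, hm⟩
    · intro y hy
      simp only [Finset.mem_filter, Finset.mem_offDiag, Finset.mem_univ, true_and,
        Finset.mem_erase] at hy ⊢
      exact ⟨⟨fun h => hy.1 h.symm, hy.2⟩, trivial⟩
    · intro p hp
      simp only [Finset.mem_filter] at hp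
      rw [← hp.2]
    · intro y _
      rfl
  rw [h1, Finset.offDiag_card, Finset.card_univ, Finset.mul_sum]
  have h3 : ∀ x ∈ (univ : Finset Ω), 2 * ((orb G Δ x).card - 1) ≤ Fintype.card Ω - 1 := by
    intro x _
    have := hΔ x
    have h4 : 0 < (orb G Δ x).card := Finset.card_pos.2 ⟨x, base_mem_orb_self G Δ x⟩
    omega
  refine (Finset.sum_le_sum h3).trans ?_
  rw [Finset.sum_const, Finset.card_univ, smul_eq_mul]
  rcases Nat.eq_zero_or_pos (Fintype.card Ω) with h0 | h0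
  · simp [h0]
  · obtain ⟨m, hm⟩ : ∃ m, Fintype.card Ω = m + 1 := ⟨_, (Nat.succ_pred_eq_of_pos h0).symm⟩
    rw [hm]
    simp only [Nat.add_sub_cancel]
    rw [show (m + 1) * (m + 1) - (m + 1) = (m + 1) * m by
      rw [Nat.mul_succ, Nat.add_sub_cancel]]

theorem base_avg_one {Ω : Type} [Fintype Ω] [DecidableEq Ω] (G : Subgroup (Perm Ω))
    (h2 : TwoTrans G) (Δ : Finset Ω) (hΔ : ∀ x, 2 * (orb G Δ x).card ≤ Fintype.card Ω)
    (Gs : Finset (Perm Ω)) (hGs : ∀ g, g ∈ Gs ↔ g ∈ G) {x y : Ω} (hxy : x ≠ y) :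
    2 * (Gs.filter fun g => g⁻¹ y ∈ orb G Δ (g⁻¹ x)).card ≤ Gs.card := by
  set N := (Gs.filter fun g : Perm Ω => (g⁻¹ x, g⁻¹ y) = (x, y)).card with hN
  have hconst : ∀ p ∈ (univ : Finset Ω).offDiag,
      (Gs.filter fun g : Perm Ω => (g⁻¹ x, g⁻¹ y) = p).card = N := by
    intro p hp
    rw [Finset.mem_offDiag] at hp
    exact le_antisymm (base_fiber_card_le G h2 hp.2.2 hxy Gs hGs)
      (base_fiber_card_le G h2 hxy hp.2.2 Gs hGs)
  have e1 : Gs.card = (univ : Finset Ω).offDiag.card * N := by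
    rw [Finset.card_eq_sum_card_fiberwise (f := fun g : Perm Ω => (g⁻¹ x, g⁻¹ y))
      (t := (univ : Finset Ω).offDiag) (fun g _ => by simp [hxy]),
      Finset.sum_congr rfl hconst, Finset.sum_const, smul_eq_mul]
  have e2 : (Gs.filter fun g => g⁻¹ y ∈ orb G Δ (g⁻¹ x)).card ≤
      ((univ : Finset Ω).offDiag.filter fun p => p.2 ∈ orb G Δ p.1).card * N := by
    rw [Finset.card_eq_sum_card_fiberwise (f := fun g : Perm Ω => (g⁻¹ x, g⁻¹ y))
      (t := (univ : Finset Ω).offDiag.filter fun p => p.2 ∈ orb G Δ p.1)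
      (fun g hg => by
        have hg' := (Finset.mem_filter.1 (Finset.mem_coe.1 hg)).2
        rw [Finset.mem_coe, Finset.mem_filter, Finset.mem_offDiag]
        exact ⟨⟨Finset.mem_univ _, Finset.mem_univ _, fun h => hxy (g⁻¹.injective h)⟩, hg'⟩)]
    refine (Finset.sum_le_sum (g := fun _ => N) fun p hp => ?_).trans
      (by rw [Finset.sum_const, smul_eq_mul])
    rw [Finset.mem_filter] at hp
    rw [← hconst p hp.1]
    refine Finset.card_le_card fun g hg => ?_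
    simp only [Finset.mem_filter] at hg ⊢
    exact ⟨hg.1.1, hg.2⟩
  calc 2 * (Gs.filter fun g => g⁻¹ y ∈ orb G Δ (g⁻¹ x)).card
      ≤ 2 * (((univ : Finset Ω).offDiag.filter fun p => p.2 ∈ orb G Δ p.1).card * N) :=
        Nat.mul_le_mul_left _ e2
    _ = (2 * ((univ : Finset Ω).offDiag.filter fun p => p.2 ∈ orb G Δ p.1).card) * N := by ring
    _ ≤ (univ : Finset Ω).offDiag.card * N := Nat.mul_le_mul_right _ (base_offDiag G Δ hΔ)
    _ = Gs.card := e1.symm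

theorem base_avg {Ω : Type} [Fintype Ω] [DecidableEq Ω] (G : Subgroup (Perm Ω))
    (h2 : TwoTrans G) (Δ : Finset Ω) (hΔ : ∀ x, 2 * (orb G Δ x).card ≤ Fintype.card Ω)
    (S : Finset (Ω × Ω)) (hS : S ⊆ (univ : Finset Ω).offDiag) :
    ∃ g ∈ G, 2 * (S.filter fun p => p.2 ∈ orb G (Δ.image g) p.1).card ≤ S.card := by
  classical
  set Gs : Finset (Perm Ω) := univ.filter fun g => g ∈ G with hGsdef
  have hGs : ∀ g, g ∈ Gs ↔ g ∈ G := by intro g; simp [hGsdef]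
  have hne : Gs.Nonempty := ⟨1, (hGs 1).2 G.one_mem⟩
  have key : ∑ g ∈ Gs, 2 * (S.filter fun p => p.2 ∈ orb G (Δ.image g) p.1).card ≤
      ∑ g ∈ Gs, S.card := by
    have h1 : ∑ g ∈ Gs, (S.filter fun p => p.2 ∈ orb G (Δ.image g) p.1).card =
        ∑ p ∈ S, (Gs.filter fun g : Perm Ω => p.2 ∈ orb G (Δ.image g) p.1).card := by
      simp only [Finset.card_filter]
      exact Finset.sum_comm
    rw [← Finset.mul_sum, h1, Finset.mul_sum, Finset.sum_const, smul_eq_mul, mul_comm Gs.card,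
      ← smul_eq_mul S.card, ← Finset.sum_const]
    refine Finset.sum_le_sum fun p hp => ?_
    have hpp := hS hp
    rw [Finset.mem_offDiag] at hpp
    refine le_trans ?_ (base_avg_one G h2 Δ hΔ Gs hGs hpp.2.2)
    refine Nat.mul_le_mul_left _ (Finset.card_le_card fun g hg => ?_)
    rw [Finset.mem_filter] at hg ⊢
    exact ⟨hg.1, base_orb_image G Δ p.1 p.2 ((hGs g).1 hg.1) hg.2⟩
  obtain ⟨g, hg, hle⟩ := Finset.exists_le_of_sum_le hne key
  exact ⟨g, (hGs g).1 hg, hle⟩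

theorem base_orb_anti {Ω : Type} [Fintype Ω] [DecidableEq Ω] (G : Subgroup (Perm Ω))
    {Δ Δ' : Finset Ω} (h : Δ ⊆ Δ') (x : Ω) : orb G Δ' x ⊆ orb G Δ x := by
  intro y hy
  simp only [orb, Finset.mem_filter, Finset.mem_univ, true_and] at hy ⊢
  obtain ⟨g, hg, h1, h2⟩ := hy
  exact ⟨g, hg, fun z hz => h1 z (h hz), h2⟩

theorem base_iter {Ω : Type} [Fintype Ω] [DecidableEq Ω] (G : Subgroup (Perm Ω))
    (h2 : TwoTrans G) (Δ : Finset Ω) (hΔ : ∀ x, 2 * (orb G Δ x).card ≤ Fintype.card Ω)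
    (r : ℕ) : ∃ B : Finset Ω, B.card ≤ r * Δ.card ∧
      2 ^ r * ((univ : Finset Ω).offDiag.filter fun p => p.2 ∈ orb G B p.1).card ≤
        (univ : Finset Ω).offDiag.card := by
  induction r with
  | zero =>
    refine ⟨∅, by simp, ?_⟩
    rw [pow_zero, one_mul]
    exact Finset.card_filter_le _ _
  | succ r ih =>
    obtain ⟨B, hB, hS⟩ := ih
    obtain ⟨g, -, hle⟩ := base_avg G h2 Δ hΔ
      ((univ : Finset Ω).offDiag.filter fun p => p.2 ∈ orb G B p.1)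
      (Finset.filter_subset _ _)
    refine ⟨B ∪ Δ.image g, ?_, ?_⟩
    · refine (Finset.card_union_le _ _).trans ?_
      have := Finset.card_image_le (s := Δ) (f := g)
      rw [Nat.succ_mul]
      exact Nat.add_le_add hB this
    · have hsub : ((univ : Finset Ω).offDiag.filter fun p =>
          p.2 ∈ orb G (B ∪ Δ.image g) p.1) ⊆
          (((univ : Finset Ω).offDiag.filter fun p => p.2 ∈ orb G B p.1).filter fun p =>
            p.2 ∈ orb G (Δ.image g) p.1) := by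
        intro p hp
        rw [Finset.mem_filter] at hp
        rw [Finset.mem_filter, Finset.mem_filter]
        exact ⟨⟨hp.1, base_orb_anti G Finset.subset_union_left _ hp.2⟩,
          base_orb_anti G Finset.subset_union_right _ hp.2⟩
      calc 2 ^ (r + 1) * _ ≤ 2 ^ (r + 1) * _ := Nat.mul_le_mul_left _ (Finset.card_le_card hsub)
        _ = 2 ^ r * (2 * _) := by rw [pow_succ, mul_assoc]
        _ ≤ 2 ^ r * _ := Nat.mul_le_mul_left _ hle
        _ ≤ _ := hS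

theorem card_le_of_small_orbits {Ω : Type} [Fintype Ω] [DecidableEq Ω] (G : Subgroup (Perm Ω))
    (h2 : TwoTrans G) (Δ : Finset Ω) (hΔ : ∀ x, 2 * (orb G Δ x).card ≤ Fintype.card Ω) :
    Nat.card G ≤ Fintype.card Ω ^ ((2 * Nat.log 2 (Fintype.card Ω) + 2) * Δ.card) := by
  obtain ⟨B, hB, hS⟩ := base_iter G h2 Δ hΔ (2 * Nat.log 2 (Fintype.card Ω) + 2)
  have hlt : (univ : Finset Ω).offDiag.card < 2 ^ (2 * Nat.log 2 (Fintype.card Ω) + 2) := by
    rw [Finset.offDiag_card, Finset.card_univ]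
    have h1 : Fintype.card Ω < 2 ^ (Nat.log 2 (Fintype.card Ω) + 1) :=
      Nat.lt_pow_succ_log_self (by norm_num) _
    calc Fintype.card Ω * Fintype.card Ω - Fintype.card Ω
        ≤ Fintype.card Ω * Fintype.card Ω := Nat.sub_le _ _
      _ < 2 ^ (Nat.log 2 (Fintype.card Ω) + 1) * 2 ^ (Nat.log 2 (Fintype.card Ω) + 1) :=
        Nat.mul_lt_mul'' h1 h1
      _ = 2 ^ (2 * Nat.log 2 (Fintype.card Ω) + 2) := by
        rw [← pow_add]; congr 1; ring
  have hempty : ((univ : Finset Ω).offDiag.filter fun p => p.2 ∈ orb G B p.1) = ∅ := by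
    rw [← Finset.card_eq_zero]
    by_contra h0
    have h1 : 1 ≤ ((univ : Finset Ω).offDiag.filter fun p => p.2 ∈ orb G B p.1).card :=
      Nat.one_le_iff_ne_zero.2 h0
    have h3 := (Nat.mul_le_mul_left (2 ^ (2 * Nat.log 2 (Fintype.card Ω) + 2)) h1).trans hS
    omega
  have hinj : Function.Injective
      (fun (g : G) (b : {b // b ∈ B}) => ((g : Perm Ω) b.1 : Ω)) := by
    intro g g' h
    have hfix : ∀ b ∈ B, ((g' : Perm Ω)⁻¹ * (g : Perm Ω)) b = b := by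
      intro b hb
      have := congrFun h ⟨b, hb⟩
      simp only at this
      rw [Perm.mul_apply, this]
      simp
    have h1 : ((g' : Perm Ω)⁻¹ * (g : Perm Ω)) = 1 := by
      ext x
      rw [Perm.one_apply]
      by_contra hx
      have hmem : (x, ((g' : Perm Ω)⁻¹ * (g : Perm Ω)) x) ∈
          ((univ : Finset Ω).offDiag.filter fun p => p.2 ∈ orb G B p.1) := by
        rw [Finset.mem_filter, Finset.mem_offDiag]
        refine ⟨⟨Finset.mem_univ _, Finset.mem_univ _, fun h => hx h.symm⟩, ?_⟩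
        simp only [orb, Finset.mem_filter, Finset.mem_univ, true_and]
        exact ⟨_, G.mul_mem (G.inv_mem g'.2) g.2, hfix, rfl⟩
      rw [hempty] at hmem
      exact absurd hmem (Finset.notMem_empty _)
    exact Subtype.ext (inv_mul_eq_one.1 h1).symm
  have hcard : Nat.card G ≤ Fintype.card Ω ^ B.card := by
    have := Nat.card_le_card_of_injective _ hinj
    rwa [Nat.card_eq_fintype_card (α := {b // b ∈ B} → Ω), Fintype.card_fun,
      Fintype.card_coe] at this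
  rcases Nat.eq_zero_or_pos (Fintype.card Ω) with h0 | h0
  · have hΔ0 : Δ.card = 0 := by
      have := Finset.card_le_univ Δ
      omega
    have hB0 : B.card = 0 := by
      have := Finset.card_le_univ B
      omega
    rw [hΔ0, mul_zero, pow_zero]
    rwa [hB0, pow_zero] at hcard
  · exact hcard.trans (Nat.pow_le_pow_right h0 hB)

theorem base_growth (L : ℕ) (hL : 45 ≤ L) :
    24 * (L + 1) ^ 2 * L ^ 4 + 1 < 2 ^ (L - 5) := by
  have h1 : 97 * L ^ 6 < 2 ^ (L - 5) := by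
    induction L, hL using Nat.le_induction with
    | base => norm_num
    | succ L hL ih =>
      have h2 : (L + 1) ^ 6 ≤ 2 * L ^ 6 := by
        obtain ⟨k, rfl⟩ := Nat.exists_eq_add_of_le hL
        ring_nf
        nlinarith [Nat.zero_le k, Nat.zero_le (k ^ 2), Nat.zero_le (k ^ 3), Nat.zero_le (k ^ 4),
          Nat.zero_le (k ^ 5), Nat.zero_le (k ^ 6)]
      have h3 : 2 ^ (L + 1 - 5) = 2 * 2 ^ (L - 5) := by
        rw [show L + 1 - 5 = (L - 5) + 1 by omega, pow_succ, mul_comm]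
      rw [h3]
      calc 97 * (L + 1) ^ 6 ≤ 97 * (2 * L ^ 6) := Nat.mul_le_mul_left _ h2
        _ = 2 * (97 * L ^ 6) := by ring
        _ < 2 * 2 ^ (L - 5) := by omega
  refine lt_of_le_of_lt ?_ h1
  have h4 : (L + 1) ^ 2 ≤ 4 * L ^ 2 := by nlinarith
  have h5 : 1 ≤ L ^ 6 := Nat.one_le_pow _ _ (by omega)
  calc 24 * (L + 1) ^ 2 * L ^ 4 + 1 ≤ 24 * (4 * L ^ 2) * L ^ 4 + L ^ 6 := by gcongr
    _ = 97 * L ^ 6 := by ring

theorem base_wsum_le {Ω : Type} [Fintype Ω] [DecidableEq Ω] (G : Subgroup (Perm Ω)) (K m : ℕ)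
    (hK : Nat.card G ≤ 2 ^ K) (hm : ∀ g ∈ G, g ≠ 1 → 4 * m ≤ g.support.card)
    (hKm : K + 1 < m) : wsum G < 1 / 2 := by
  classical
  unfold wsum
  have h45 : ((4 / 5 : ℝ)) ^ 4 ≤ 1 / 2 := by norm_num
  have hterm : ∀ g ∈ univ.filter (fun g : Perm Ω => g ∈ G ∧ g ≠ 1),
      (4 / 5 : ℝ) ^ g.support.card ≤ (1 / 2 : ℝ) ^ m := by
    intro g hg
    rw [Finset.mem_filter] at hg
    calc (4 / 5 : ℝ) ^ g.support.card ≤ (4 / 5 : ℝ) ^ (4 * m) :=
          pow_le_pow_of_le_one (by norm_num) (by norm_num) (hm g hg.2.1 hg.2.2)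
      _ = ((4 / 5 : ℝ) ^ 4) ^ m := by rw [pow_mul]
      _ ≤ (1 / 2 : ℝ) ^ m := pow_le_pow_left₀ (by norm_num) h45 m
  have hcard : ((univ.filter (fun g : Perm Ω => g ∈ G ∧ g ≠ 1)).card : ℝ) ≤ 2 ^ K := by
    have h1 : (univ.filter (fun g : Perm Ω => g ∈ G ∧ g ≠ 1)).card ≤ Nat.card G := by
      rw [Nat.card_eq_fintype_card, Fintype.card_subtype]
      refine Finset.card_le_card fun g hg => ?_
      rw [Finset.mem_filter] at hg ⊢
      exact ⟨hg.1, hg.2.1⟩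
    exact_mod_cast h1.trans hK
  calc ∑ g ∈ univ.filter (fun g : Perm Ω => g ∈ G ∧ g ≠ 1), (4 / 5 : ℝ) ^ g.support.card
      ≤ ∑ g ∈ univ.filter (fun g : Perm Ω => g ∈ G ∧ g ≠ 1), (1 / 2 : ℝ) ^ m :=
        Finset.sum_le_sum hterm
    _ = ((univ.filter (fun g : Perm Ω => g ∈ G ∧ g ≠ 1)).card : ℝ) * (1 / 2 : ℝ) ^ m := by
        rw [Finset.sum_const, nsmul_eq_mul]
    _ ≤ 2 ^ K * (1 / 2 : ℝ) ^ m := by gcongr
    _ < 1 / 2 := by
        obtain ⟨j, rfl⟩ : ∃ j, m = K + 1 + (j + 1) := ⟨m - K - 2, by omega⟩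
        rw [pow_add, pow_add, ← mul_assoc, ← mul_assoc, ← mul_pow]
        norm_num
        have : (1 / 2 : ℝ) ^ (j + 1) < 1 := pow_lt_one₀ (by norm_num) (by norm_num) (by omega)
        linarith [show ((2 : ℝ) ^ (j + 1))⁻¹ = (1 / 2 : ℝ) ^ (j + 1) by simp]

/-- `wsum_of_twoTrans` from the statements it uses. -/
theorem base_wsum_of_twoTrans
    (min_degree : ∀ {Ω : Type} [Fintype Ω] [DecidableEq Ω] (G : Subgroup (Perm Ω)),
      TwoTrans G → ¬ alternatingGroup Ω ≤ G → 64 < Fintype.card Ω →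
      ∀ {g : Perm Ω}, g ∈ G → g ≠ 1 → Fintype.card Ω ≤ 8 * g.support.card)
    (noBigAlt : ∃ n₀ : ℕ, ∀ (Ω : Type) [Fintype Ω] [DecidableEq Ω]
      (G : Subgroup (Perm Ω)), n₀ ≤ Fintype.card Ω → TwoTrans G → ¬ alternatingGroup Ω ≤ G →
      ∀ H : Subgroup (Perm Ω), H ≤ G → NoBigAlt (Nat.log 2 (Fintype.card Ω) ^ 4) H)
    (exists_small_orbits : ∀ {Ω : Type} [Fintype Ω] [DecidableEq Ω] (G : Subgroup (Perm Ω))
      {M : ℕ}, 2 ≤ Fintype.card Ω → 16 ≤ M → (∀ H : Subgroup (Perm Ω), H ≤ G → NoBigAlt M H) →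
      ∃ Δ : Finset Ω, Δ.card ≤ 12 * M ∧ ∀ x, 2 * (orb G Δ x).card ≤ Fintype.card Ω) :
    ∃ n₀ : ℕ, ∀ (Ω : Type) [Fintype Ω] [DecidableEq Ω]
    (G : Subgroup (Perm Ω)), n₀ ≤ Fintype.card Ω → TwoTrans G → ¬ alternatingGroup Ω ≤ G →
    wsum G < 1 / 2 := by
  obtain ⟨n₁, h₁⟩ := noBigAlt
  refine ⟨n₁ + 2 ^ 45, fun Ω _ _ G hn h2 halt => ?_⟩
  have hn0 : Fintype.card Ω ≠ 0 := by
    have : 0 < 2 ^ 45 := by positivity
    omega
  have hn45 : 2 ^ 45 ≤ Fintype.card Ω := by omega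
  have hlog : 45 ≤ Nat.log 2 (Fintype.card Ω) := Nat.le_log_of_pow_le (by norm_num) hn45
  have hM : 16 ≤ Nat.log 2 (Fintype.card Ω) ^ 4 :=
    le_trans (by norm_num) (Nat.pow_le_pow_left hlog 4)
  obtain ⟨Δ, hΔ, horb⟩ := exists_small_orbits G
    (le_trans (by norm_num) hn45) hM (h₁ Ω G (by omega) h2 halt)
  have hcard := card_le_of_small_orbits G h2 Δ horb
  have hlt : Fintype.card Ω < 2 ^ (Nat.log 2 (Fintype.card Ω) + 1) :=
    Nat.lt_pow_succ_log_self (by norm_num) _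
  have hge : 2 ^ Nat.log 2 (Fintype.card Ω) ≤ Fintype.card Ω := Nat.pow_log_le_self 2 hn0
  have h64 : 64 < Fintype.card Ω := lt_of_lt_of_le (by norm_num) hn45
  have hdeg : ∀ g ∈ G, g ≠ 1 → Fintype.card Ω ≤ 8 * g.support.card :=
    fun g hg h1 => min_degree G h2 halt h64 hg h1
  generalize hL : Nat.log 2 (Fintype.card Ω) = L at *
  refine base_wsum_le G (24 * (L + 1) ^ 2 * L ^ 4) (2 ^ (L - 5)) ?_ ?_ (base_growth L hlog)
  · calc Nat.card G ≤ Fintype.card Ω ^ ((2 * L + 2) * Δ.card) := hcard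
      _ ≤ (2 ^ (L + 1)) ^ ((2 * L + 2) * Δ.card) := Nat.pow_le_pow_left hlt.le _
      _ ≤ (2 ^ (L + 1)) ^ ((2 * L + 2) * (12 * L ^ 4)) :=
        Nat.pow_le_pow_right (by positivity) (Nat.mul_le_mul_left _ hΔ)
      _ = 2 ^ (24 * (L + 1) ^ 2 * L ^ 4) := by
        rw [← pow_mul]
        congr 1
        ring
  · intro g hg h1
    have h8 := hdeg g hg h1
    have e : 2 ^ L = 8 * (4 * 2 ^ (L - 5)) := by
      rw [show (8 : ℕ) * (4 * 2 ^ (L - 5)) = 2 ^ 5 * 2 ^ (L - 5) by ring, ← pow_add]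
      congr 1
      omega
    omega

end Pool.Agent.Lib.MP_acf1dc_al
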