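import Mathlib
import Pool.Agent.Lib.MP_acf1dc_al.Defs

/-! Groups without 3-cycles have small bases, and a bound for the order. -/

set_option autoImplicit false

namespace Pool.Agent.Lib.MP_acf1dc_al

open Equiv Finset

theorem bochert_ais {Δ : Type} (f : Perm Δ) (x : Δ) : f (f⁻¹ x) = x := by simp

theorem bochert_ias {Δ : Type} (f : Perm Δ) (x : Δ) : f⁻¹ (f x) = x := by simp

/-- The commutator of two permutations whose supports meet in one point. -/
theorem bochert_commutator {Δ : Type} [DecidableEq Δ] (g h : Perm Δ) (a : Δ)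
    (hd : ∀ x, g x = x ∨ h x = x ∨ x = a) (hg : g a ≠ a) (hh : h a ≠ a) :
    g * h * g⁻¹ * h⁻¹ = swap a (h a) * swap a (g a) := by
  have hgi : ∀ x, g x = x → g⁻¹ x = x := fun x hx => by
    rw [Perm.inv_eq_iff_eq]; exact hx.symm
  have hhi : ∀ x, h x = x → h⁻¹ x = x := fun x hx => by
    rw [Perm.inv_eq_iff_eq]; exact hx.symm
  have hga : h (g a) = g a := by
    rcases hd (g a) with h1 | h1 | h1
    · exact absurd (g.injective h1) hg
    · exact h1
    · exact absurd h1 hg
  have hha : g (h a) = h a := by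
    rcases hd (h a) with h1 | h1 | h1
    · exact h1
    · exact absurd (h.injective h1) hh
    · exact absurd h1 hh
  have hne : g a ≠ h a := by
    intro h1
    rw [← h1] at hha
    exact hg (g.injective hha)
  ext x
  simp only [Perm.coe_mul, Function.comp_apply]
  by_cases hxa : x = a
  · subst hxa
    rw [swap_apply_left, swap_apply_of_ne_of_ne hg hne]
    have h1 : g (h⁻¹ x) = h⁻¹ x := by
      rcases hd (h⁻¹ x) with h1 | h1 | h1
      · exact h1
      · rw [bochert_ais] at h1
        exact absurd (by rw [Perm.eq_inv_iff_eq] at h1; exact h1) hh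
      · rw [Perm.inv_eq_iff_eq] at h1
        exact absurd h1.symm hh
    rw [hgi _ h1, bochert_ais]
  by_cases hxg : x = g a
  · subst hxg
    rw [swap_apply_right, swap_apply_left, hhi _ hga, bochert_ias, hha]
  by_cases hxh : x = h a
  · subst hxh
    rw [bochert_ias, swap_apply_of_ne_of_ne hh hne.symm, swap_apply_right]
    have h1 : h (g⁻¹ a) = g⁻¹ a := by
      rcases hd (g⁻¹ a) with h1 | h1 | h1
      · rw [bochert_ais] at h1
        exact absurd (by rw [Perm.eq_inv_iff_eq] at h1; exact h1) hg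
      · exact h1
      · rw [Perm.inv_eq_iff_eq] at h1
        exact absurd h1.symm hg
    rw [h1, bochert_ais]
  rw [swap_apply_of_ne_of_ne hxa hxg, swap_apply_of_ne_of_ne hxa hxh]
  by_cases hx : h x = x
  · rw [hhi x hx]
    by_cases hx2 : g x = x
    · rw [hgi x hx2, hx, hx2]
    · have h1 : h (g⁻¹ x) = g⁻¹ x := by
        rcases hd (g⁻¹ x) with h1 | h1 | h1
        · rw [bochert_ais] at h1
          exact absurd (by rw [Perm.eq_inv_iff_eq] at h1; exact h1) hx2
        · exact h1
        · rw [Perm.inv_eq_iff_eq] at h1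
          exact absurd h1 hxg
      rw [h1, bochert_ais]
  · have h1 : g (h⁻¹ x) = h⁻¹ x := by
      rcases hd (h⁻¹ x) with h1 | h1 | h1
      · exact h1
      · rw [bochert_ais] at h1
        exact absurd (by rw [Perm.eq_inv_iff_eq] at h1; exact h1) hx
      · rw [Perm.inv_eq_iff_eq] at h1
        exact absurd h1 hxh
    rw [hgi _ h1, bochert_ais]
    rcases hd x with h2 | h2 | h2
    · exact h2
    · exact absurd h2 hx
    · exact absurd h2 hxa

theorem bochert {Δ : Type} [Fintype Δ] [DecidableEq Δ] (L : Subgroup (Perm Δ))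
    (h3 : ∀ σ ∈ L, ¬ σ.IsThreeCycle) :
    ∃ E : Finset Δ, 2 * E.card ≤ Fintype.card Δ ∧ ∀ g ∈ L, (∀ x ∈ E, g x = x) → g = 1 := by
  classical
  obtain ⟨E, hE, hmin⟩ := Finset.exists_min_image
    (univ.filter fun E : Finset Δ => ∀ g ∈ L, (∀ x ∈ E, g x = x) → g = 1) Finset.card
    ⟨univ, by
      simp only [mem_filter]
      refine ⟨mem_univ _, ?_⟩
      intro g _ hg
      ext x
      exact hg x (mem_univ x)⟩
  simp only [mem_filter, mem_univ, true_and] at hE hmin
  refine ⟨E, ?_, hE⟩
  by_contra hcon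
  have hcc : Eᶜ.card < E.card := by
    rw [Finset.card_compl]; omega
  have h1 : ¬ ∀ g ∈ L, (∀ x ∈ Eᶜ, g x = x) → g = 1 := fun h => by
    have := hmin _ h; omega
  push Not at h1
  obtain ⟨h, hL, hfix, hne⟩ := h1
  obtain ⟨a, ha⟩ : ∃ a, h a ≠ a := by
    by_contra hc
    push Not at hc
    exact hne (by ext x; simpa using hc x)
  have haE : a ∈ E := by
    by_contra hc
    exact ha (hfix a (by simpa using hc))
  have h2 : ¬ ∀ g ∈ L, (∀ x ∈ E.erase a, g x = x) → g = 1 := fun h => by
    have := hmin _ h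
    have h5 := Finset.card_erase_lt_of_mem haE
    omega
  push Not at h2
  obtain ⟨g, hgL, hgfix, hgne⟩ := h2
  have hga : g a ≠ a := by
    intro hc
    apply hgne
    apply hE g hgL
    intro x hx
    by_cases hxa : x = a
    · rw [hxa]; exact hc
    · exact hgfix x (Finset.mem_erase.mpr ⟨hxa, hx⟩)
  have hd : ∀ x, g x = x ∨ h x = x ∨ x = a := by
    intro x
    by_cases hx : x ∈ E
    · by_cases hxa : x = a
      · exact Or.inr (Or.inr hxa)
      · exact Or.inl (hgfix x (Finset.mem_erase.mpr ⟨hxa, hx⟩))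
    · exact Or.inr (Or.inl (hfix x (by simpa using hx)))
  have hcomm := bochert_commutator g h a hd hga ha
  have hmem : g * h * g⁻¹ * h⁻¹ ∈ L :=
    L.mul_mem (L.mul_mem (L.mul_mem hgL hL) (L.inv_mem hgL)) (L.inv_mem hL)
  apply h3 _ hmem
  rw [hcomm]
  apply Perm.isThreeCycle_swap_mul_swap_same ha.symm hga.symm
  intro hc
  rcases hd (g a) with h5 | h5 | h5
  · exact hga (g.injective h5)
  · rw [← hc] at h5
    exact ha (h.injective h5)
  · exact hga h5

/-- The order of a group with a base. -/
theorem bochert_card_le {Δ : Type} [Fintype Δ] (L : Subgroup (Perm Δ)) (E : Finset Δ)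
    (hE : ∀ g ∈ L, (∀ x ∈ E, g x = x) → g = 1) :
    Nat.card L ≤ Fintype.card Δ ^ E.card := by
  classical
  have : Function.Injective (fun g : L => fun x : E => g.1 x.1) := by
    intro g g' hgg
    have h1 : ∀ x ∈ E, (g.1⁻¹ * g'.1) x = x := by
      intro x hx
      have h2 := congrFun hgg ⟨x, hx⟩
      simp only at h2
      rw [Perm.mul_apply, ← h2, bochert_ias]
    have h2 := hE _ (L.mul_mem (L.inv_mem g.2) g'.2) h1
    apply Subtype.ext
    exact inv_mul_eq_one.mp h2
  have h3 := Nat.card_le_card_of_injective _ this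
  simpa using h3

section threecycles

variable {Δ : Type} [DecidableEq Δ]

theorem bochert_rot (x y z : Δ) (hxy : x ≠ y) (hyz : y ≠ z) (hxz : x ≠ z) :
    swap x y * swap y z = swap y z * swap z x := by
  ext w
  simp only [Perm.coe_mul, Function.comp_apply, swap_apply_def]
  grind

theorem bochert_conj (g : Perm Δ) (x y z : Δ) :
    g * (swap x y * swap y z) * g⁻¹ = swap (g x) (g y) * swap (g y) (g z) := by
  rw [swap_apply_apply, swap_apply_apply]
  group

/-- `x` and `y` are equal or lie on a common 3-cycle of `L`. -/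
def bochert_rel (L : Subgroup (Perm Δ)) (x y : Δ) : Prop :=
  x = y ∨ ∃ z, x ≠ y ∧ y ≠ z ∧ x ≠ z ∧ swap x y * swap y z ∈ L

theorem bochert_inv_mem {L : Subgroup (Perm Δ)} {x y z : Δ} (h : swap x y * swap y z ∈ L) :
    swap z y * swap y x ∈ L := by
  have := L.inv_mem h
  rwa [mul_inv_rev, swap_inv, swap_inv, swap_comm y z, swap_comm x y] at this

theorem bochert_rel_symm {L : Subgroup (Perm Δ)} {x y : Δ} (h : bochert_rel L x y) :
    bochert_rel L y x := by
  rcases h with h | ⟨z, h1, h2, h3, h4⟩
  · exact Or.inl h.symm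
  · refine Or.inr ⟨z, h1.symm, h3, h2, ?_⟩
    have h5 := bochert_inv_mem h4
    rw [bochert_rot z y x h2.symm h1.symm h3.symm] at h5
    exact h5

/-- the third point -/
theorem bochert_conj_mem {L : Subgroup (Perm Δ)} {g : Perm Δ} (hg : g ∈ L) {x y z : Δ}
    (h : swap x y * swap y z ∈ L) : swap (g x) (g y) * swap (g y) (g z) ∈ L := by
  rw [← bochert_conj]
  exact L.mul_mem (L.mul_mem hg h) (L.inv_mem hg)

theorem bochert_cycle_apply {x y z : Δ} (hxy : x ≠ y) (hyz : y ≠ z) (hxz : x ≠ z) :
    (swap x y * swap y z) x = y ∧ (swap x y * swap y z) y = z ∧ (swap x y * swap y z) z = x ∧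
      ∀ w, w ≠ x → w ≠ y → w ≠ z → (swap x y * swap y z) w = w := by
  simp only [Perm.coe_mul, Function.comp_apply, swap_apply_def]
  grind

theorem bochert_rel_trans {L : Subgroup (Perm Δ)} {x y w : Δ} (h : bochert_rel L x y)
    (h' : bochert_rel L y w) : bochert_rel L x w := by
  rcases h with h | ⟨z, h1, h2, h3, h4⟩
  · rw [h]; exact h'
  rcases h' with h' | ⟨v, k1, k2, k3, k4⟩
  · rw [← h']; exact Or.inr ⟨z, h1, h2, h3, h4⟩
  by_cases hxw : x = w
  · exact Or.inl hxw
  by_cases hwz : w = z
  · subst hwz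
    refine Or.inr ⟨y, hxw, k1.symm, h1, ?_⟩
    have h5 := bochert_inv_mem h4
    -- w y x -> rot twice
    rw [bochert_rot w y x k1.symm h1.symm (Ne.symm hxw),
      bochert_rot y x w h1.symm hxw k1] at h5
    exact h5
  by_cases hxv : x = v
  · subst hxv
    refine Or.inr ⟨y, hxw, k1.symm, h1, ?_⟩
    have h5 := bochert_inv_mem k4
    exact h5
  refine Or.inr ⟨(swap y w * swap w v) z, hxw, ?_, ?_, ?_⟩
  · intro hc
    have h6 := (bochert_cycle_apply k1 k2 k3).1
    exact h2 ((swap y w * swap w v).injective (h6.trans hc))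
  · intro hc
    have h6 := (bochert_cycle_apply k1 k2 k3).2.2.2 x h1 hxw hxv
    exact h3 ((swap y w * swap w v).injective (h6.trans hc))
  · have h5 := bochert_conj_mem k4 h4
    rw [(bochert_cycle_apply k1 k2 k3).2.2.2 x h1 hxw hxv, (bochert_cycle_apply k1 k2 k3).1] at h5
    exact h5

/-- The equivalence relation whose classes carry the 3-cycles. -/
def bochert_setoid (L : Subgroup (Perm Δ)) : Setoid Δ where
  r := bochert_rel L
  iseqv := ⟨fun _ => Or.inl rfl, bochert_rel_symm, bochert_rel_trans⟩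

theorem bochert_rel_apply {L : Subgroup (Perm Δ)} {g : Perm Δ} (hg : g ∈ L) {x y : Δ}
    (h : bochert_rel L x y) : bochert_rel L (g x) (g y) := by
  rcases h with h | ⟨z, h1, h2, h3, h4⟩
  · rw [h]; exact Or.inl rfl
  · exact Or.inr ⟨g z, g.injective.ne h1, g.injective.ne h2, g.injective.ne h3,
      bochert_conj_mem hg h4⟩

/-- all 3-cycles of a class are in the group -/
theorem bochert_cycle_mem {L : Subgroup (Perm Δ)} {x y z : Δ} (hxy : x ≠ y) (hyz : y ≠ z)
    (hxz : x ≠ z) (h1 : bochert_rel L x y) (h2 : bochert_rel L x z) :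
    swap x y * swap y z ∈ L := by
  rcases h1 with h1 | ⟨u, a1, a2, a3, a4⟩
  · exact absurd h1 hxy
  rcases h2 with h2 | ⟨w, b1, b2, b3, b4⟩
  · exact absurd h2 hxz
  by_cases huz : u = z
  · rw [huz] at a4; exact a4
  have A := bochert_cycle_apply a1 a2 a3
  have B := bochert_cycle_apply b1 b2 b3
  by_cases hwy : w = y
  · subst hwy
    -- (x z w) in L, want (x w z)
    have h5 := bochert_inv_mem b4
    rw [bochert_rot w z x hyz hxz.symm hxy.symm, bochert_rot z x w hxz.symm hxy hyz.symm] at h5
    exact h5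
  by_cases hwu : w = u
  · subst hwu
    -- a = (x y w), b = (x z w); a b a^-1 = (y z x)
    have h5 := bochert_conj_mem a4 b4
    rw [A.1, A.2.2.1, A.2.2.2 z hxz.symm hyz.symm b2] at h5
    rw [bochert_rot y z x hyz hxz.symm hxy.symm, bochert_rot z x y hxz.symm hxy hyz.symm] at h5
    exact h5
  -- conj of a by b: (z y u)
  have h5 := bochert_conj_mem b4 a4
  rw [B.1, B.2.2.2 y hxy.symm hyz (Ne.symm hwy), B.2.2.2 u a3.symm huz (Ne.symm hwu)] at h5
  -- a^-1 c a
  have h6 := bochert_conj_mem (L.inv_mem a4) h5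
  have e1 : (swap x y * swap y u)⁻¹ y = x := by rw [Perm.inv_eq_iff_eq]; exact A.1.symm
  have e2 : (swap x y * swap y u)⁻¹ u = y := by rw [Perm.inv_eq_iff_eq]; exact A.2.1.symm
  have e3 : (swap x y * swap y u)⁻¹ z = z := by
    rw [Perm.inv_eq_iff_eq]; exact (A.2.2.2 z hxz.symm hyz.symm (Ne.symm huz)).symm
  rw [e1, e2, e3] at h6
  rw [bochert_rot z x y hxz.symm hxy hyz.symm] at h6
  exact h6

/-- even permutations supported in one class are in the group -/
theorem bochert_even_mem [Fintype Δ] {L : Subgroup (Perm Δ)} (E : Finset Δ)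
    (hE : ∀ x ∈ E, ∀ y ∈ E, bochert_rel L x y) (σ : Perm Δ) (hσ : σ ∈ alternatingGroup Δ)
    (hs : σ.support ⊆ E) : σ ∈ L := by
  have h1 : ∀ x, x ∈ E ↔ σ x ∈ E := by
    intro x
    by_cases hx : σ x = x
    · rw [hx]
    · constructor
      · intro _
        apply hs
        rw [Perm.apply_mem_support, Perm.mem_support]; exact hx
      · intro _
        apply hs
        rw [Perm.mem_support]; exact hx
  have h2 : ∀ x, σ x ≠ x → x ∈ E := fun x hx => hs (Perm.mem_support.mpr hx)
  have h3 : Perm.ofSubtype (σ.subtypePerm (p := fun x => x ∈ E) (fun x => (h1 x).symm)) = σ :=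
    Perm.ofSubtype_subtypePerm _ h2
  have h4 : σ.subtypePerm (p := fun x => x ∈ E) (fun x => (h1 x).symm) ∈
      alternatingGroup {x // x ∈ E} := by
    rw [Perm.mem_alternatingGroup, ← Perm.sign_ofSubtype, h3]
    exact Perm.mem_alternatingGroup.mp hσ
  rw [← Perm.closure_three_cycles_eq_alternating] at h4
  have h5 : Subgroup.closure {τ : Perm {x // x ∈ E} | τ.IsThreeCycle} ≤
      L.comap (Perm.ofSubtype : Perm {x // x ∈ E} →* Perm Δ) := by
    rw [Subgroup.closure_le]
    intro τ hτ
    simp only [Set.mem_ofPred_eq] at hτ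
    obtain ⟨a, ha⟩ : ∃ a, a ∈ τ.support := by
      have := hτ.card_support
      apply Finset.card_pos.mp
      omega
    have h6 := (hτ.eq_swap_mul_swap_iff_mem_support (a := a)).mpr ha
    have h7 := (hτ.nodup_iff_mem_support (a := a)).mpr ha
    have hn : a ≠ τ a ∧ τ a ≠ τ (τ a) ∧ a ≠ τ (τ a) := by
      simp only [List.nodup_cons, List.mem_cons, List.not_mem_nil, or_false, not_or] at h7
      exact ⟨h7.1.1, h7.2.1, h7.1.2⟩
    rw [SetLike.mem_coe, Subgroup.mem_comap, h6, map_mul, Perm.ofSubtype_swap_eq,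
      Perm.ofSubtype_swap_eq]
    apply bochert_cycle_mem
    · exact fun h => hn.1 (Subtype.ext h)
    · exact fun h => hn.2.1 (Subtype.ext h)
    · exact fun h => hn.2.2 (Subtype.ext h)
    · exact hE _ a.2 _ (τ a).2
    · exact hE _ a.2 _ (τ (τ a)).2
  have h6 := h5 h4
  rw [Subgroup.mem_comap, h3] at h6
  exact h6

end threecycles

/-- The bound for the permutations preserving the classes. -/
theorem bochert_prod_le {Δ : Type} [Fintype Δ] [DecidableEq Δ] (s : Setoid Δ)
    [Fintype (Quotient s)] [DecidableEq (Quotient s)] {M : ℕ}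
    (hs : ∀ q : Quotient s, Fintype.card {a : Δ // (⟦a⟧ : Quotient s) = q} ≤ M) :
    (∏ q : Quotient s, (Fintype.card {a : Δ // (⟦a⟧ : Quotient s) = q}).factorial)
      * M ^ (Fintype.card (Quotient s)) ≤ M ^ Fintype.card Δ := by
  have h1 : Fintype.card Δ = ∑ q : Quotient s, Fintype.card {a : Δ // (⟦a⟧ : Quotient s) = q} := by
    rw [← Fintype.card_sigma]
    exact Fintype.card_congr (Equiv.sigmaFiberEquiv (fun a : Δ => (⟦a⟧ : Quotient s))).symm
  have h2 : M ^ Fintype.card (Quotient s) = ∏ _q : Quotient s, M := by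
    rw [Finset.prod_const, Finset.card_univ]
  rw [h1, h2, ← Finset.prod_mul_distrib, ← Finset.prod_pow_eq_pow_sum]
  apply Finset.prod_le_prod' 
  intro q _
  have h3 : 0 < Fintype.card {a : Δ // (⟦a⟧ : Quotient s) = q} := by
    obtain ⟨a, ha⟩ := Quotient.exists_rep q
    exact Fintype.card_pos_iff.mpr ⟨⟨a, ha⟩⟩
  obtain ⟨m, hm⟩ : ∃ m, Fintype.card {a : Δ // (⟦a⟧ : Quotient s) = q} = m + 1 :=
    ⟨_, (Nat.succ_pred_eq_of_pos h3).symm⟩
  have h4 := hs q
  rw [hm] at h4 ⊢
  rw [pow_succ]
  apply Nat.mul_le_mul_right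
  calc (m + 1).factorial = (m + 1 - 1 + 1).factorial := by rfl
    _ = (m + 1) * m.factorial := by rw [Nat.factorial_succ]; rfl
    _ ≤ M ^ m := by
        have : ∀ j, j ≤ m → (j + 1).factorial ≤ M ^ j := by
          intro j hj
          induction j with
          | zero => simp
          | succ j ih =>
            rw [Nat.factorial_succ, pow_succ]
            have := ih (by omega)
            rw [mul_comm (M ^ j)]
            exact Nat.mul_le_mul (by omega) this
        have h5 := this m le_rfl
        rwa [Nat.factorial_succ] at h5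

theorem two_le_of_noBigAlt {M : ℕ} {Γ : Type} [Group Γ] (hΓ : NoBigAlt M Γ) : 2 ≤ M := by
  have := hΓ (Fin 2) (1 : Γ →* Perm (Fin 2)) univ (by
    intro σ hσ _
    have h1 : σ = 1 := by
      revert hσ
      rw [Perm.mem_alternatingGroup]
      revert σ
      decide
    rw [h1]
    exact one_mem _)
  simpa using this

theorem order_bound {M : ℕ} {Γ : Type} [Group Γ] [Finite Γ] (hΓ : NoBigAlt M Γ)
    (Δ : Type) [Fintype Δ] [DecidableEq Δ] (hΔ : Fintype.card Δ ≤ M ^ 2) (φ : Γ →* Perm Δ) :
    Nat.card φ.range ≤ M ^ (Fintype.card Δ + 1) := by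
  classical
  have hM := two_le_of_noBigAlt hΓ
  obtain ⟨n, hn⟩ : ∃ n, Fintype.card Δ = n := ⟨_, rfl⟩
  induction n using Nat.strong_induction_on generalizing Δ with
  | _ n ih =>
  by_cases h3 : ∀ σ ∈ φ.range, ¬ σ.IsThreeCycle
  · obtain ⟨E, hE1, hE2⟩ := bochert φ.range h3
    calc Nat.card φ.range ≤ Fintype.card Δ ^ E.card := bochert_card_le _ E hE2
      _ ≤ (M ^ 2) ^ E.card := Nat.pow_le_pow_left hΔ _
      _ = M ^ (2 * E.card) := by rw [← pow_mul]
      _ ≤ M ^ (Fintype.card Δ + 1) := Nat.pow_le_pow_right (by omega) (by omega)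
  push Not at h3
  obtain ⟨σ, hσ, hσ3⟩ := h3
  set L := φ.range with hL
  let s := bochert_setoid L
  -- the action on the classes
  have hs_apply : ∀ g ∈ L, ∀ x y, s x y → s (g x) (g y) := fun g hg x y h =>
    bochert_rel_apply hg h
  let θ : L →* Perm (Quotient s) :=
    { toFun := fun g =>
        { toFun := Quotient.map g.1 (fun x y h => hs_apply g.1 g.2 x y h)
          invFun := Quotient.map (g⁻¹ : L).1 (fun x y h => hs_apply _ (g⁻¹ : L).2 x y h)
          left_inv := by
            intro q
            induction q using Quotient.inductionOn with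
            | h x => simp
          right_inv := by
            intro q
            induction q using Quotient.inductionOn with
            | h x => simp }
      map_one' := by
        ext q
        induction q using Quotient.inductionOn with
        | h x => rfl
      map_mul' := by
        intro g g'
        ext q
        induction q using Quotient.inductionOn with
        | h x => rfl }
  have hθ : ∀ (g : L) (x : Δ), θ g (⟦x⟧ : Quotient s) = ⟦g.1 x⟧ := fun g x => rfl
  -- fewer classes than points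
  have hlt : Fintype.card (Quotient s) < n := by
    rw [← hn]
    apply lt_of_le_of_ne (Fintype.card_quotient_le s)
    intro hc
    have hinj : Function.Injective (fun x : Δ => (⟦x⟧ : Quotient s)) := by
      have hsurj : Function.Surjective (fun x : Δ => (⟦x⟧ : Quotient s)) := Quotient.mk_surjective
      exact ((Fintype.bijective_iff_surjective_and_card _).mpr ⟨hsurj, hc.symm⟩).injective
    obtain ⟨a, ha⟩ : ∃ a, a ∈ σ.support := by
      have := hσ3.card_support
      apply Finset.card_pos.mp
      omega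
    have h6 := (hσ3.eq_swap_mul_swap_iff_mem_support (a := a)).mpr ha
    have h7 := (hσ3.nodup_iff_mem_support (a := a)).mpr ha
    have hnn : a ≠ σ a ∧ σ a ≠ σ (σ a) ∧ a ≠ σ (σ a) := by
      simp only [List.nodup_cons, List.mem_cons, List.not_mem_nil, or_false, not_or] at h7
      exact ⟨h7.1.1, h7.2.1, h7.1.2⟩
    apply hnn.1
    apply hinj
    apply Quotient.sound
    refine Or.inr ⟨σ (σ a), hnn.1, hnn.2.1, hnn.2.2, ?_⟩
    rw [← h6]; exact hσ
  -- classes are small
  have hclass : ∀ q : Quotient s, Fintype.card {a : Δ // (⟦a⟧ : Quotient s) = q} ≤ M := by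
    intro q
    have h1 := hΓ Δ φ (univ.filter fun a : Δ => (⟦a⟧ : Quotient s) = q) (by
      intro τ hτ hsupp
      apply bochert_even_mem _ _ τ hτ hsupp
      intro x hx y hy
      simp only [mem_filter, mem_univ, true_and] at hx hy
      exact Quotient.exact (hx.trans hy.symm))
    rw [Fintype.card_subtype]
    exact h1
  -- the image
  have himg : Nat.card θ.range ≤ M ^ (Fintype.card (Quotient s) + 1) := by
    have h1 := ih (Fintype.card (Quotient s)) hlt (Quotient s)
      ((Fintype.card_quotient_le s).trans hΔ) (θ.comp φ.rangeRestrict) rfl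
    have h2 : (θ.comp φ.rangeRestrict).range = θ.range := by
      rw [MonoidHom.range_comp, MonoidHom.range_eq_top.mpr φ.rangeRestrict_surjective,
        ← MonoidHom.range_eq_map]
    rw [h2] at h1
    exact h1
  -- the kernel
  have hker : Nat.card θ.ker ≤
      ∏ q : Quotient s, (Fintype.card {a : Δ // (⟦a⟧ : Quotient s) = q}).factorial := by
    rw [← DomMulAct.stabilizer_card (fun a : Δ => (⟦a⟧ : Quotient s)), ← Nat.card_eq_fintype_card]
    apply Nat.card_le_card_of_injective
      (fun g : θ.ker => (⟨g.1.1, by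
        ext x
        have h1 := g.2
        rw [MonoidHom.mem_ker] at h1
        have h2 := hθ g.1 x
        rw [h1] at h2
        exact h2.symm⟩ : {g : Perm Δ // (fun a : Δ => (⟦a⟧ : Quotient s)) ∘ g =
          fun a : Δ => (⟦a⟧ : Quotient s)}))
    intro g g' hgg
    apply Subtype.ext
    apply Subtype.ext
    exact congrArg (fun t : {g : Perm Δ // (fun a : Δ => (⟦a⟧ : Quotient s)) ∘ g =
      fun a : Δ => (⟦a⟧ : Quotient s)} => t.1) hgg
  have hprod := bochert_prod_le s hclass
  have hcard : Nat.card L = Nat.card θ.ker * Nat.card θ.range := by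
    rw [← Subgroup.index_ker θ, Subgroup.card_mul_index]
  rw [hcard]
  calc Nat.card θ.ker * Nat.card θ.range
      ≤ (∏ q : Quotient s, (Fintype.card {a : Δ // (⟦a⟧ : Quotient s) = q}).factorial)
          * M ^ (Fintype.card (Quotient s) + 1) := Nat.mul_le_mul hker himg
    _ = ((∏ q : Quotient s, (Fintype.card {a : Δ // (⟦a⟧ : Quotient s) = q}).factorial)
          * M ^ (Fintype.card (Quotient s))) * M := by rw [pow_succ, mul_assoc]
    _ ≤ M ^ Fintype.card Δ * M := Nat.mul_le_mul_right _ hprod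
    _ = M ^ (Fintype.card Δ + 1) := by rw [pow_succ]

end Pool.Agent.Lib.MP_acf1dc_al
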