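import Mathlib
import Pool.Agent.Lib.MP_acf1dc_al.Defs

set_option autoImplicit false

namespace Pool.Agent.Lib.MP_acf1dc_al

open Equiv Finset

/-! ## Job G: a short chain of points with small orbits -/

/-- restriction of a permutation to `Δ`, extended by the identity -/
def chain_restr {Ω : Type} [DecidableEq Ω] (Δ : Finset Ω) (g : Perm Ω) : Ω → Ω :=
  fun z => if z ∈ Δ then g z else z

open Classical in
/-- the restrictions of the elements of `G` to `Δ` -/
noncomputable def chain_T {Ω : Type} [Fintype Ω] [DecidableEq Ω] (G : Subgroup (Perm Ω))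
    (Δ : Finset Ω) : Finset (Ω → Ω) :=
  (univ.filter (fun g : Perm Ω => g ∈ G)).image (chain_restr Δ)

theorem chain_mem_T {Ω : Type} [Fintype Ω] [DecidableEq Ω] {G : Subgroup (Perm Ω)}
    {Δ : Finset Ω} {f : Ω → Ω} : f ∈ chain_T G Δ ↔ ∃ g ∈ G, chain_restr Δ g = f := by
  simp [chain_T]

theorem chain_T_nonempty {Ω : Type} [Fintype Ω] [DecidableEq Ω] (G : Subgroup (Perm Ω))
    (Δ : Finset Ω) : (chain_T G Δ).Nonempty :=
  ⟨_, chain_mem_T.mpr ⟨1, G.one_mem, rfl⟩⟩

theorem chain_step {Ω : Type} [Fintype Ω] [DecidableEq Ω] (G : Subgroup (Perm Ω))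
    (Δ : Finset Ω) (x : Ω) (hx : x ∉ Δ) :
    (orb G Δ x).card * (chain_T G Δ).card ≤ (chain_T G (insert x Δ)).card := by
  classical
  refine Finset.mul_card_image_le_card_of_maps_to
    (f := fun f : Ω → Ω => fun z => if z ∈ Δ then f z else z) ?_ _ ?_
  · intro f hf
    obtain ⟨g, hg, rfl⟩ := chain_mem_T.mp hf
    refine chain_mem_T.mpr ⟨g, hg, ?_⟩
    funext z
    by_cases hz : z ∈ Δ
    · simp [chain_restr, hz]
    · simp [chain_restr, hz]
  · intro f hf
    obtain ⟨g, hg, rfl⟩ := chain_mem_T.mp hf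
    refine Finset.card_le_card_of_injOn
      (fun y => fun z => if z = x then g y else if z ∈ Δ then g z else z) ?_ ?_
    · intro y hy
      simp only [orb, coe_filter, mem_univ, true_and, Set.mem_setOf_eq] at hy
      obtain ⟨h, hh, hfix, rfl⟩ := hy
      simp only [coe_filter, Set.mem_setOf_eq]
      refine ⟨chain_mem_T.mpr ⟨g * h, G.mul_mem hg hh, ?_⟩, ?_⟩
      · funext z
        by_cases hzx : z = x
        · subst hzx
          simp [chain_restr]
        · by_cases hz : z ∈ Δ
          · simp [chain_restr, hz, hzx, hfix z hz]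
          · simp [chain_restr, hz, hzx]
      · funext z
        by_cases hz : z ∈ Δ
        · have hzx : z ≠ x := by rintro rfl; exact hx hz
          simp [chain_restr, hz, hzx]
        · simp [chain_restr, hz]
    · intro y _ y' _ hyy
      have := congrFun hyy x
      simpa using this

/-- the setwise stabiliser -/
def chain_stab {Ω : Type} [DecidableEq Ω] (G : Subgroup (Perm Ω)) (Δ : Finset Ω) :
    Subgroup (Perm Ω) where
  carrier := {g | g ∈ G ∧ ∀ z, g z ∈ Δ ↔ z ∈ Δ}
  mul_mem' := by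
    rintro a b ⟨ha, ha'⟩ ⟨hb, hb'⟩
    refine ⟨G.mul_mem ha hb, fun z => ?_⟩
    rw [Perm.mul_apply, ha', hb']
  one_mem' := ⟨G.one_mem, fun z => by simp⟩
  inv_mem' := by
    rintro a ⟨ha, ha'⟩
    refine ⟨G.inv_mem ha, fun z => ?_⟩
    rw [← ha' (a⁻¹ z)]
    simp

/-- the action of the setwise stabiliser -/
def chain_hom {Ω : Type} [DecidableEq Ω] (G : Subgroup (Perm Ω)) (Δ : Finset Ω) :
    chain_stab G Δ →* Perm {x // x ∈ Δ} where
  toFun g := (g : Perm Ω).subtypePerm g.2.2
  map_one' := by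
    ext x
    simp
  map_mul' a b := by
    ext x
    simp

theorem chain_card_T_le {Ω : Type} [Fintype Ω] [DecidableEq Ω] (G : Subgroup (Perm Ω))
    (Δ : Finset Ω) :
    (chain_T G Δ).card ≤
      Nat.card (chain_hom G Δ).range * (Fintype.card Ω).choose Δ.card := by
  classical
  have h1 : (Fintype.card Ω).choose Δ.card = (powersetCard Δ.card (univ : Finset Ω)).card := by
    rw [card_powersetCard, card_univ]
  rw [h1]
  have himg : ∀ g : Perm Ω, Δ.image (chain_restr Δ g) = Δ.image g := by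
    intro g
    refine Finset.image_congr fun z hz => ?_
    simp only [chain_restr]
    rw [if_pos (by simpa using hz)]
  refine Finset.card_le_mul_card_image_of_maps_to (f := fun f : Ω → Ω => Δ.image f) ?_ _ ?_
  · intro f hf
    obtain ⟨g, hg, rfl⟩ := chain_mem_T.mp hf
    rw [mem_powersetCard]
    refine ⟨subset_univ _, ?_⟩
    simp only [himg]
    exact Finset.card_image_of_injective _ g.injective
  · intro E _
    rcases Finset.eq_empty_or_nonempty ((chain_T G Δ).filter (fun f => Δ.image f = E)) with he | hne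
    · rw [he]; simp
    obtain ⟨f0, hf0⟩ := hne
    rw [mem_filter] at hf0
    obtain ⟨hf0, hE0⟩ := hf0
    obtain ⟨g0, hg0, rfl⟩ := chain_mem_T.mp hf0
    rw [himg] at hE0
    have hcard : Nat.card (chain_hom G Δ).range =
        (univ.filter (fun π : Perm {x // x ∈ Δ} => π ∈ (chain_hom G Δ).range)).card := by
      rw [Nat.card_eq_fintype_card, Fintype.card_subtype]
    rw [hcard]
    refine le_trans (Finset.card_le_card ?_) (Finset.card_image_le
      (s := univ.filter (fun π : Perm {x // x ∈ Δ} => π ∈ (chain_hom G Δ).range))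
      (f := fun π => fun z => if h : z ∈ Δ then g0 (π ⟨z, h⟩) else z))
    intro f hf
    rw [mem_filter] at hf
    obtain ⟨hf, hE⟩ := hf
    obtain ⟨g, hg, rfl⟩ := chain_mem_T.mp hf
    rw [himg] at hE
    have hmem : g0⁻¹ * g ∈ chain_stab G Δ := by
      refine ⟨G.mul_mem (G.inv_mem hg0) hg, fun z => ?_⟩
      rw [Perm.mul_apply]
      constructor
      · intro h
        have : g z ∈ Δ.image g := by
          rw [hE, ← hE0]
          exact Finset.mem_image.mpr ⟨_, h, by simp⟩
        obtain ⟨w, hw, hwz⟩ := Finset.mem_image.mp this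
        rwa [← g.injective hwz]
      · intro h
        have : g z ∈ Δ.image g0 := by
          rw [hE0, ← hE]
          exact Finset.mem_image.mpr ⟨_, h, rfl⟩
        obtain ⟨w, hw, hwz⟩ := Finset.mem_image.mp this
        rw [← hwz]
        simpa using hw
    rw [mem_image]
    refine ⟨chain_hom G Δ ⟨_, hmem⟩, ?_, ?_⟩
    · simp only [mem_filter, mem_univ, true_and]
      exact ⟨_, rfl⟩
    · funext z
      by_cases hz : z ∈ Δ
      · simp [chain_restr, hz, chain_hom]
      · simp [chain_restr, hz]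

theorem chain_factorial (M : ℕ) (d : ℕ) (hd : d = 12 * M + 1)
    (h : d.factorial ≤ 2 ^ d * M ^ (d + 1)) (hM : 1 ≤ M) : False := by
  have h1 : (d : ℝ) ^ d / (d.factorial : ℝ) ≤ Real.exp d :=
    Real.pow_div_factorial_le_exp (d : ℝ) (by positivity) d
  have h2 : Real.exp d ≤ 3 ^ d := by
    have : Real.exp (d : ℝ) = Real.exp 1 ^ d := by
      rw [← Real.exp_nat_mul]; simp
    rw [this]
    exact pow_le_pow_left₀ (Real.exp_pos _).le (by linarith [Real.exp_one_lt_d9]) d
  have hfpos : (0 : ℝ) < (d.factorial : ℝ) := by positivity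
  have h3 : (d : ℝ) ^ d ≤ 3 ^ d * (d.factorial : ℝ) := by
    have := h1.trans h2
    rwa [div_le_iff₀ hfpos] at this
  have h4 : (12 * M : ℝ) ^ d ≤ (d : ℝ) ^ d := by
    refine pow_le_pow_left₀ (by positivity) ?_ d
    rw [hd]; push_cast; linarith
  have h5 : (d.factorial : ℝ) ≤ 2 ^ d * (M : ℝ) ^ (d + 1) := by exact_mod_cast h
  have hMr : (1 : ℝ) ≤ (M : ℝ) := by exact_mod_cast hM
  have h6 : (12 * M : ℝ) ^ d ≤ 3 ^ d * (2 ^ d * (M : ℝ) ^ (d + 1)) := by
    refine h4.trans (h3.trans ?_)
    exact mul_le_mul_of_nonneg_left h5 (by positivity)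
  have h7 : (12 * M : ℝ) ^ d = (6 * M) ^ d * 2 ^ d := by
    rw [← mul_pow]; congr 1; ring
  have h8 : 3 ^ d * (2 ^ d * (M : ℝ) ^ (d + 1)) = (6 * M) ^ d * M := by
    rw [pow_succ]
    have : (6 * (M : ℝ)) ^ d = 3 ^ d * 2 ^ d * (M : ℝ) ^ d := by
      rw [← mul_pow, ← mul_pow]; congr 1; ring
    rw [this]; ring
  rw [h7, h8] at h6
  have h9 : (2 : ℝ) ^ d ≤ M := le_of_mul_le_mul_left h6 (by positivity)
  have h10 : (2 : ℕ) ^ d ≤ M := by exact_mod_cast h9
  have h11 : M < 2 ^ M := Nat.lt_two_pow_self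
  have h12 : 2 ^ M ≤ 2 ^ d := Nat.pow_le_pow_right (by norm_num) (by omega)
  omega

theorem chain_main {Ω : Type} [Fintype Ω] [DecidableEq Ω] (G : Subgroup (Perm Ω))
    (hn : 2 ≤ Fintype.card Ω) {M : ℕ} (hM : 16 ≤ M)
    (hG : ∀ H : Subgroup (Perm Ω), H ≤ G → NoBigAlt M H)
    (hord : ∀ {Γ : Type} [Group Γ] [Finite Γ] (_ : NoBigAlt M Γ)
      (Δ : Type) [Fintype Δ] [DecidableEq Δ] (_ : Fintype.card Δ ≤ M ^ 2) (φ : Γ →* Perm Δ),
      Nat.card φ.range ≤ M ^ (Fintype.card Δ + 1)) :
    ∃ Δ : Finset Ω, Δ.card ≤ 12 * M ∧ ∀ x, 2 * (orb G Δ x).card ≤ Fintype.card Ω := by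
  classical
  by_contra hcon
  push Not at hcon
  have hchain : ∀ i, i ≤ 12 * M + 1 → ∃ Δ : Finset Ω, Δ.card = i ∧
      Fintype.card Ω ^ i ≤ 2 ^ i * (chain_T G Δ).card := by
    intro i
    induction i with
    | zero =>
      intro _
      refine ⟨∅, rfl, ?_⟩
      have := (chain_T_nonempty G ∅).card_pos
      simp only [pow_zero, one_mul]
      omega
    | succ i ih =>
      intro hi
      obtain ⟨Δ, hc, hT⟩ := ih (by omega)
      obtain ⟨x, hx⟩ := hcon Δ (by omega)
      have hxΔ : x ∉ Δ := by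
        intro hmem
        have horb : orb G Δ x = {x} := by
          ext y
          simp only [orb, mem_filter, mem_univ, true_and, mem_singleton]
          constructor
          · rintro ⟨g, _, hfix, rfl⟩
            exact hfix x hmem
          · rintro rfl
            exact ⟨1, G.one_mem, fun z _ => by simp, by simp⟩
        rw [horb, card_singleton] at hx
        omega
      refine ⟨insert x Δ, by rw [card_insert_of_notMem hxΔ, hc], ?_⟩
      have hstep := chain_step G Δ x hxΔ
      calc Fintype.card Ω ^ (i + 1) = Fintype.card Ω ^ i * Fintype.card Ω := pow_succ _ _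
        _ ≤ (2 ^ i * (chain_T G Δ).card) * (2 * (orb G Δ x).card) :=
            Nat.mul_le_mul hT hx.le
        _ = 2 ^ (i + 1) * ((orb G Δ x).card * (chain_T G Δ).card) := by ring
        _ ≤ 2 ^ (i + 1) * (chain_T G (insert x Δ)).card := Nat.mul_le_mul_left _ hstep
  obtain ⟨Δ, hc, hT⟩ := hchain (12 * M + 1) le_rfl
  have hcardΔ : Fintype.card {x // x ∈ Δ} = 12 * M + 1 := by
    rw [Fintype.card_coe, hc]
  have hle : chain_stab G Δ ≤ G := fun g hg => hg.1
  have hrange := hord (hG _ hle) {x // x ∈ Δ} (by rw [hcardΔ]; nlinarith) (chain_hom G Δ)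
  rw [hcardΔ] at hrange
  have hTle := chain_card_T_le G Δ
  rw [hc] at hTle
  have hfac : (12 * M + 1).factorial * (Fintype.card Ω).choose (12 * M + 1) ≤
      Fintype.card Ω ^ (12 * M + 1) := by
    rw [← Nat.descFactorial_eq_factorial_mul_choose]
    exact Nat.descFactorial_le_pow _ _
  have hpos : 0 < Fintype.card Ω ^ (12 * M + 1) := by positivity
  have hfinal : (12 * M + 1).factorial * Fintype.card Ω ^ (12 * M + 1) ≤
      (2 ^ (12 * M + 1) * M ^ (12 * M + 1 + 1)) * Fintype.card Ω ^ (12 * M + 1) := by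
    calc (12 * M + 1).factorial * Fintype.card Ω ^ (12 * M + 1)
        ≤ (12 * M + 1).factorial * (2 ^ (12 * M + 1) * (chain_T G Δ).card) :=
          Nat.mul_le_mul_left _ hT
      _ ≤ (12 * M + 1).factorial * (2 ^ (12 * M + 1) * (M ^ (12 * M + 1 + 1) *
            (Fintype.card Ω).choose (12 * M + 1))) :=
          Nat.mul_le_mul_left _ (Nat.mul_le_mul_left _ (hTle.trans (Nat.mul_le_mul_right _ hrange)))
      _ = (2 ^ (12 * M + 1) * M ^ (12 * M + 1 + 1)) *
            ((12 * M + 1).factorial * (Fintype.card Ω).choose (12 * M + 1)) := by ring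
      _ ≤ _ := Nat.mul_le_mul_left _ hfac
  exact chain_factorial M (12 * M + 1) rfl (Nat.le_of_mul_le_mul_right hfinal hpos) (by omega)

end Pool.Agent.Lib.MP_acf1dc_al
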