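import Mathlib
import Pool.Agent.Lib.MP_acf1dc_al.Defs

/-! Counting two-colourings fixed by a permutation. -/

set_option autoImplicit false

namespace Pool.Agent.Lib.MP_acf1dc_al

open Equiv Finset

theorem colour_exists_W {Ω : Type} [Fintype Ω] [DecidableEq Ω] (g : Perm Ω) :
    ∃ W : Finset Ω, (∀ x ∈ W, g x ∉ W) ∧ g.support.card ≤ 3 * W.card := by
  classical
  obtain ⟨W, hW⟩ := Finset.exists_maximal (s := (univ : Finset (Finset Ω)).filter
    (fun W => ∀ x ∈ W, g x ∉ W)) ⟨∅, by simp⟩
  have hWm : ∀ x ∈ W, g x ∉ W := by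
    exact (Finset.mem_filter.1 hW.1).2
  refine ⟨W, hWm, ?_⟩
  have hsub : g.support ⊆ W ∪ (W.image g ∪ W.image (g⁻¹ : Perm Ω)) := by
    intro x hx
    rw [Perm.mem_support] at hx
    by_contra hcon
    simp only [Finset.mem_union, Finset.mem_image, not_or, not_exists, not_and] at hcon
    obtain ⟨h1, h2, h3⟩ := hcon
    have hmem : insert x W ∈ (univ : Finset (Finset Ω)).filter (fun W => ∀ x ∈ W, g x ∉ W) := by
      rw [Finset.mem_filter]
      refine ⟨Finset.mem_univ _, ?_⟩
      intro y hy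
      rw [Finset.mem_insert, not_or]
      rcases Finset.mem_insert.1 hy with rfl | hy
      · refine ⟨hx, fun hgy => h3 (g y) hgy ?_⟩
        simp
      · exact ⟨fun h => h2 y hy h, hWm y hy⟩
    have := hW.2 hmem (Finset.subset_insert _ _)
    exact h1 (this (Finset.mem_insert_self _ _))
  calc g.support.card ≤ (W ∪ (W.image g ∪ W.image (g⁻¹ : Perm Ω))).card :=
        Finset.card_le_card hsub
    _ ≤ W.card + (W.image g ∪ W.image (g⁻¹ : Perm Ω)).card := Finset.card_union_le _ _
    _ ≤ W.card + ((W.image g).card + (W.image (g⁻¹ : Perm Ω)).card) := by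
        gcongr
        exact Finset.card_union_le _ _
    _ ≤ W.card + (W.card + W.card) :=
        Nat.add_le_add_left (Nat.add_le_add Finset.card_image_le Finset.card_image_le) _
    _ = 3 * W.card := by ring

theorem colour_fixed_nat {Ω : Type} [Fintype Ω] [DecidableEq Ω] (g : Perm Ω) (W : Finset Ω)
    (hW : ∀ x ∈ W, g x ∉ W) :
    Nat.card {c : Ω → Bool // ∀ x, c (g x) = c x} * 2 ^ W.card ≤ 2 ^ Fintype.card Ω := by
  classical
  let F : {c : Ω → Bool // ∀ x, c (g x) = c x} × (W → Bool) → (Ω → Bool) := fun p x =>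
    if h : x ∈ W then p.2 ⟨x, h⟩ else p.1.1 x
  have hF : Function.Injective F := by
    rintro ⟨⟨c, hc⟩, e⟩ ⟨⟨c', hc'⟩, e'⟩ h
    have h1 : ∀ x, x ∉ W → c x = c' x := by
      intro x hx
      have := congrFun h x
      simpa [F, hx] using this
    have h2 : c = c' := by
      funext x
      by_cases hx : x ∈ W
      · rw [← hc x, ← hc' x]
        exact h1 _ (hW x hx)
      · exact h1 x hx
    have h3 : e = e' := by
      funext ⟨x, hx⟩
      have := congrFun h x
      simpa [F, hx] using this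
    subst h2
    subst h3
    rfl
  have h := Nat.card_le_card_of_injective F hF
  rw [Nat.card_prod] at h
  simpa using h

/-- `g` fixes at most `2 ^ n (4/5) ^ |supp g|` colourings. -/
theorem card_fixed_colourings {Ω : Type} [Fintype Ω] [DecidableEq Ω] (g : Perm Ω) :
    (Nat.card {c : Ω → Bool // ∀ x, c (g x) = c x} : ℝ) ≤
      2 ^ Fintype.card Ω * (4 / 5 : ℝ) ^ g.support.card := by
  obtain ⟨W, hW, hc⟩ := colour_exists_W g
  have h1 := colour_fixed_nat g W hW
  have h2 : (Nat.card {c : Ω → Bool // ∀ x, c (g x) = c x} : ℝ) * 2 ^ W.card ≤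
      2 ^ Fintype.card Ω := by exact_mod_cast h1
  have h3 : ((1 : ℝ) / 2) ^ W.card ≤ (4 / 5 : ℝ) ^ g.support.card := by
    calc ((1 : ℝ) / 2) ^ W.card ≤ ((4 / 5 : ℝ) ^ 3) ^ W.card := by
          gcongr
          norm_num
      _ = (4 / 5 : ℝ) ^ (3 * W.card) := by rw [pow_mul]
      _ ≤ (4 / 5 : ℝ) ^ g.support.card :=
          pow_le_pow_of_le_one (by norm_num) (by norm_num) hc
  have h4 : ((1 : ℝ) / 2) ^ W.card * 2 ^ W.card = 1 := by
    rw [← mul_pow]; norm_num
  calc (Nat.card {c : Ω → Bool // ∀ x, c (g x) = c x} : ℝ)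
      = (Nat.card {c : Ω → Bool // ∀ x, c (g x) = c x} : ℝ) * 2 ^ W.card *
        ((1 : ℝ) / 2) ^ W.card := by
        rw [mul_assoc, mul_comm (2 ^ W.card : ℝ), h4, mul_one]
    _ ≤ 2 ^ Fintype.card Ω * (4 / 5 : ℝ) ^ g.support.card := by gcongr

theorem twoTypes_of_wsum {Ω : Type} [Fintype Ω] [DecidableEq Ω] (G : Subgroup (Perm Ω))
    (hn : 2 ≤ Fintype.card Ω) (h : wsum G < 1 / 2) : TwoTypes G := by
  classical
  set T : Finset (Perm Ω) := univ.filter (fun g : Perm Ω => g ∈ G ∧ g ≠ 1) with hT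
  set Fx : Perm Ω → Finset (Ω → Bool) := fun g => univ.filter (fun c => ∀ x, c (g x) = c x)
    with hFx
  have hcard : ∀ g, (Fx g).card = Nat.card {c : Ω → Bool // ∀ x, c (g x) = c x} := by
    intro g
    rw [Nat.card_eq_fintype_card, Fintype.card_subtype]
  have hsum : (∑ g ∈ T, ((Fx g).card : ℝ)) < 2 ^ Fintype.card Ω / 2 := by
    calc (∑ g ∈ T, ((Fx g).card : ℝ)) ≤
          ∑ g ∈ T, 2 ^ Fintype.card Ω * (4 / 5 : ℝ) ^ g.support.card := by
          refine Finset.sum_le_sum fun g _ => ?_
          rw [hcard]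
          exact card_fixed_colourings g
      _ = 2 ^ Fintype.card Ω * wsum G := by
          rw [← Finset.mul_sum]
          unfold wsum
          congr 1
      _ < 2 ^ Fintype.card Ω * (1 / 2) := by gcongr
      _ = 2 ^ Fintype.card Ω / 2 := by ring
  have hne : Nonempty Ω := Fintype.card_pos_iff.1 (by omega)
  have htwo : ∀ g, 2 ≤ (Fx g).card := by
    intro g
    have hsub : ({fun _ => true, fun _ => false} : Finset (Ω → Bool)) ⊆ Fx g := by
      intro c hc
      simp only [Finset.mem_insert, Finset.mem_singleton] at hc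
      rw [hFx]
      simp only [Finset.mem_filter, Finset.mem_univ, true_and]
      rcases hc with rfl | rfl <;> simp
    calc 2 = ({fun _ => true, fun _ => false} : Finset (Ω → Bool)).card := by
          rw [Finset.card_pair]
          intro hcon
          have := congrFun hcon (Classical.arbitrary Ω)
          simp at this
      _ ≤ _ := Finset.card_le_card hsub
  have hTc : (2 : ℝ) * T.card < 2 ^ Fintype.card Ω / 2 := by
    refine lt_of_le_of_lt ?_ hsum
    calc (2 : ℝ) * T.card = ∑ _g ∈ T, (2 : ℝ) := by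
          rw [Finset.sum_const, nsmul_eq_mul]; ring
      _ ≤ _ := Finset.sum_le_sum fun g _ => by exact_mod_cast htwo g
  have hBc : ((T.biUnion Fx).card : ℝ) < 2 ^ Fintype.card Ω / 2 := by
    refine lt_of_le_of_lt ?_ hsum
    have := Finset.card_biUnion_le (s := T) (t := Fx)
    exact_mod_cast this
  have hall : ((univ : Finset (Ω → Bool)).card : ℝ) = 2 ^ Fintype.card Ω := by
    rw [Finset.card_univ]; simp
  have hpow : (4 : ℝ) ≤ 2 ^ Fintype.card Ω := by
    calc (4 : ℝ) = 2 ^ 2 := by norm_num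
      _ ≤ 2 ^ Fintype.card Ω := by gcongr; norm_num
  -- existence of colourings outside a small set
  have hex : ∀ S : Finset (Ω → Bool), (S.card : ℝ) < 2 ^ Fintype.card Ω → ∃ c, c ∉ S := by
    intro S hS
    by_contra hcon
    push Not at hcon
    have : S = univ := Finset.eq_univ_of_forall hcon
    rw [this, hall] at hS
    exact lt_irrefl _ hS
  obtain ⟨c0, hc0⟩ := hex (T.biUnion Fx) (by linarith)
  set O : Finset (Ω → Bool) := (insert 1 T).image (fun g : Perm Ω => fun x => c0 (g x)) with hO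
  have hOc : (O.card : ℝ) ≤ T.card + 1 := by
    have h1 : O.card ≤ (insert 1 T).card := Finset.card_image_le
    have h2 : (insert 1 T).card ≤ T.card + 1 := Finset.card_insert_le _ _
    exact_mod_cast h1.trans h2
  obtain ⟨c1, hc1⟩ := hex (T.biUnion Fx ∪ O) (by
    have h1 : ((T.biUnion Fx ∪ O).card : ℝ) ≤ (T.biUnion Fx).card + O.card := by
      exact_mod_cast Finset.card_union_le _ _
    linarith)
  rw [Finset.mem_union, not_or] at hc1
  have hgood : ∀ c, c ∉ T.biUnion Fx → ∀ g ∈ G, (∀ x, c (g x) = c x) → g = 1 := by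
    intro c hc g hg hcg
    by_contra hg1
    apply hc
    rw [Finset.mem_biUnion]
    refine ⟨g, ?_, ?_⟩
    · rw [hT, Finset.mem_filter]
      exact ⟨Finset.mem_univ _, hg, hg1⟩
    · rw [hFx]
      simp only [Finset.mem_filter, Finset.mem_univ, true_and]
      exact hcg
  have horb : ∀ g ∈ G, c1 ≠ fun x => c0 (g x) := by
    intro g hg hcon
    apply hc1.2
    rw [hO, Finset.mem_image]
    refine ⟨g, ?_, hcon.symm⟩
    rw [Finset.mem_insert]
    by_cases hg1 : g = 1
    · exact Or.inl hg1
    · right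
      rw [hT, Finset.mem_filter]
      exact ⟨Finset.mem_univ _, hg, hg1⟩
  refine ⟨fun b => if b then c1 else c0, ?_⟩
  intro s t g hg hD
  cases s <;> cases t
  · simp only [Bool.false_eq_true, if_false] at hD
    exact ⟨rfl, hgood c0 hc0 g hg hD⟩
  · simp only [Bool.false_eq_true, if_false, if_true] at hD
    exfalso
    refine horb g⁻¹ (G.inv_mem hg) ?_
    funext x
    rw [← hD]
    simp
  · simp only [Bool.false_eq_true, if_false, if_true] at hD
    exfalso
    refine horb g hg ?_
    funext x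
    rw [hD]
  · simp only [if_true] at hD
    exact ⟨rfl, hgood c1 hc1.1 g hg hD⟩

end Pool.Agent.Lib.MP_acf1dc_al
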