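import Mathlib
import Pool.Agent.Lib.MP_acf1dc_al.Defs

set_option autoImplicit false

namespace Pool.Agent.Lib.MP_acf1dc_al

open Equiv Finset

/-- the number of primes of `P` dividing `l` is at most `log2 l` -/
theorem cycles_card_dvd (P : Finset ℕ) (hP : ∀ p ∈ P, p.Prime) (l : ℕ) (hl : 0 < l) :
    (P.filter (fun p => p ∣ l)).card ≤ Nat.log 2 l := by
  apply Nat.le_log_of_pow_le (by norm_num)
  have h1 : (∏ p ∈ P.filter (fun p => p ∣ l), p) ∣ l := by
    apply Finset.prod_primes_dvd
    · intro a ha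
      exact (hP a (Finset.mem_filter.mp ha).1).prime
    · intro a ha
      exact (Finset.mem_filter.mp ha).2
  calc 2 ^ (P.filter (fun p => p ∣ l)).card = ∏ p ∈ P.filter (fun p => p ∣ l), 2 := by
        rw [Finset.prod_const]
    _ ≤ ∏ p ∈ P.filter (fun p => p ∣ l), p := by
        apply Finset.prod_le_prod'
        intro p hp
        exact (hP p (Finset.mem_filter.mp hp).1).two_le
    _ ≤ l := Nat.le_of_dvd hl h1

theorem cycles_minimalPeriod_le {Ω : Type} [Fintype Ω] (f : Ω → Ω) (z : Ω) :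
    Function.minimalPeriod f z ≤ Fintype.card Ω := by
  classical
  have h := Finset.card_le_card_of_injOn (s := Finset.range (Function.minimalPeriod f z))
    (t := (Finset.univ : Finset Ω)) (fun k => f^[k] z) (fun _ _ => Finset.mem_coe.mpr (Finset.mem_univ _))
    (by
      intro a ha b hb hab
      apply Function.iterate_injOn_Iio_minimalPeriod _ _ hab
      · exact Set.mem_Iio.mpr (Finset.mem_range.mp (Finset.mem_coe.mp ha))
      · exact Set.mem_Iio.mpr (Finset.mem_range.mp (Finset.mem_coe.mp hb)))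
  rwa [Finset.card_range, Finset.card_univ] at h

theorem primes_bound {Ω : Type} [Fintype Ω] [DecidableEq Ω] (hn : 0 < Fintype.card Ω)
    {Γ : Type} [Group Γ] [Finite Γ] (ρ : Γ →* Perm Ω)
    (hmin : ∀ g : Γ, g ≠ 1 → Fintype.card Ω ≤ 8 * (ρ g).support.card)
    (h : Γ) (P : Finset ℕ) (hP : ∀ p ∈ P, p.Prime ∧ p ∣ orderOf h) :
    P.card ≤ 8 * Nat.log 2 (Fintype.card Ω) := by
  have hN : 0 < orderOf h := orderOf_pos h
  have hper : ∀ z : Ω, Function.IsPeriodicPt (ρ h) (orderOf h) z := by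
    intro z
    rw [Function.IsPeriodicPt, Function.IsFixedPt, Equiv.Perm.iterate_eq_pow, ← map_pow,
      pow_orderOf_eq_one, map_one]
    rfl
  have hlpos : ∀ z : Ω, 0 < Function.minimalPeriod (ρ h) z := fun z =>
    (hper z).minimalPeriod_pos hN
  have hsupp : ∀ p ∈ P, Fintype.card Ω ≤
      8 * (univ.filter (fun z : Ω => p ∣ Function.minimalPeriod (ρ h) z)).card := by
    intro p hp
    obtain ⟨hpp, hpd⟩ := hP p hp
    have ha_pos : 0 < orderOf h / p ^ (orderOf h).factorization p :=
      Nat.ordCompl_pos p hN.ne'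
    have ha_lt : orderOf h / p ^ (orderOf h).factorization p < orderOf h := by
      apply Nat.div_lt_self hN
      apply Nat.one_lt_pow _ hpp.one_lt
      exact (hpp.factorization_pos_of_dvd hN.ne' hpd).ne'
    have hne : h ^ (orderOf h / p ^ (orderOf h).factorization p) ≠ 1 := by
      intro hcon
      exact absurd (orderOf_le_of_pow_eq_one ha_pos hcon) (not_le.mpr ha_lt)
    refine (hmin _ hne).trans ?_
    apply Nat.mul_le_mul_left
    apply Finset.card_le_card
    intro z hz
    rw [Finset.mem_filter]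
    refine ⟨Finset.mem_univ _, ?_⟩
    by_contra hnd
    have hcop : Nat.Coprime (Function.minimalPeriod (ρ h) z)
        (p ^ (orderOf h).factorization p) := by
      apply Nat.Coprime.pow_right
      exact ((Nat.Prime.coprime_iff_not_dvd hpp).mpr hnd).symm
    have hdvd : Function.minimalPeriod (ρ h) z ∣ orderOf h := (hper z).minimalPeriod_dvd
    rw [← Nat.ordProj_mul_ordCompl_eq_self (orderOf h) p] at hdvd
    have hd2 := hcop.dvd_of_dvd_mul_left hdvd
    have hfix : Function.IsPeriodicPt (ρ h)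
        (orderOf h / p ^ (orderOf h).factorization p) z :=
      Function.isPeriodicPt_iff_minimalPeriod_dvd.mpr hd2
    rw [Function.IsPeriodicPt, Function.IsFixedPt, Equiv.Perm.iterate_eq_pow, ← map_pow] at hfix
    exact (Equiv.Perm.mem_support.mp hz) hfix
  have hsum : ∑ p ∈ P, (univ.filter (fun z : Ω => p ∣ Function.minimalPeriod (ρ h) z)).card ≤
      Fintype.card Ω * Nat.log 2 (Fintype.card Ω) := by
    have h1 : ∑ p ∈ P, (univ.filter (fun z : Ω => p ∣ Function.minimalPeriod (ρ h) z)).card =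
        ∑ z : Ω, (P.filter (fun p => p ∣ Function.minimalPeriod (ρ h) z)).card := by
      simp only [Finset.card_filter]
      rw [Finset.sum_comm]
    rw [h1]
    calc ∑ z : Ω, (P.filter (fun p => p ∣ Function.minimalPeriod (ρ h) z)).card
        ≤ ∑ _z : Ω, Nat.log 2 (Fintype.card Ω) := by
          apply Finset.sum_le_sum
          intro z _
          refine (cycles_card_dvd P (fun p hp => (hP p hp).1) _ (hlpos z)).trans ?_
          exact Nat.log_mono_right (cycles_minimalPeriod_le _ z)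
      _ = Fintype.card Ω * Nat.log 2 (Fintype.card Ω) := by
          rw [Finset.sum_const, Finset.card_univ, smul_eq_mul]
  have h2 : P.card * Fintype.card Ω ≤ 8 * (Fintype.card Ω * Nat.log 2 (Fintype.card Ω)) := by
    calc P.card * Fintype.card Ω = ∑ _p ∈ P, Fintype.card Ω := by
          rw [Finset.sum_const, smul_eq_mul]
      _ ≤ ∑ p ∈ P, 8 * (univ.filter (fun z : Ω => p ∣ Function.minimalPeriod (ρ h) z)).card :=
          Finset.sum_le_sum hsupp
      _ = 8 * ∑ p ∈ P, (univ.filter (fun z : Ω => p ∣ Function.minimalPeriod (ρ h) z)).card := by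
          rw [Finset.mul_sum]
      _ ≤ 8 * (Fintype.card Ω * Nat.log 2 (Fintype.card Ω)) := Nat.mul_le_mul_left _ hsum
  have h3 : P.card * Fintype.card Ω ≤
      (8 * Nat.log 2 (Fintype.card Ω)) * Fintype.card Ω := by
    calc _ ≤ _ := h2
      _ = _ := by ring
  exact Nat.le_of_mul_le_mul_right h3 hn

theorem exists_cycles {Δ : Type} [Fintype Δ] [DecidableEq Δ] (E : Finset Δ) (P : Finset ℕ)
    (hP : ∀ p ∈ P, Odd p ∧ 1 < p) (hE : ∑ p ∈ P, p ≤ E.card) :
    ∃ σ ∈ alternatingGroup Δ, σ.support ⊆ E ∧ ∀ p ∈ P, p ∣ orderOf σ := by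
  have hex : ∃ g : Perm {x // x ∈ E}, g.cycleType = P.val := by
    rw [Equiv.Perm.exists_with_cycleType_iff]
    constructor
    · rw [Fintype.card_coe]
      have : P.val.sum = ∑ p ∈ P, p := by
        rw [Finset.sum]
        simp
      rw [this]
      exact hE
    · intro a ha
      exact (hP a (Finset.mem_val.mp ha)).2
  obtain ⟨g, hg⟩ := hex
  have hct : (Equiv.Perm.ofSubtype g : Perm Δ).cycleType = P.val := by
    rw [Equiv.Perm.cycleType_ofSubtype, hg]
  refine ⟨Equiv.Perm.ofSubtype g, ?_, ?_, ?_⟩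
  · rw [Equiv.Perm.mem_alternatingGroup, Equiv.Perm.sign_of_cycleType', hct]
    apply Multiset.prod_eq_one
    intro x hx
    obtain ⟨p, hp, rfl⟩ := Multiset.mem_map.mp hx
    rw [(hP p (Finset.mem_val.mp hp)).1.neg_one_pow, neg_neg]
  · rw [Equiv.Perm.support_ofSubtype]
    intro x hx
    obtain ⟨y, _, rfl⟩ := Finset.mem_map.mp hx
    exact y.2
  · intro p hp
    apply Equiv.Perm.dvd_of_mem_cycleType
    rw [hct]
    exact Finset.mem_val.mpr hp

/-- the combination of a minimal degree bound with the existence of primes -/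
theorem noBigAlt_of_minDegree {Ω : Type} [Fintype Ω] [DecidableEq Ω] (G : Subgroup (Perm Ω))
    (hn : 0 < Fintype.card Ω)
    (hmin : ∀ g ∈ G, g ≠ 1 → Fintype.card Ω ≤ 8 * g.support.card)
    (P : Finset ℕ) (hP : ∀ p ∈ P, p.Prime ∧ Odd p)
    (hcard : 8 * Nat.log 2 (Fintype.card Ω) < P.card)
    (hsum : ∑ p ∈ P, p ≤ Nat.log 2 (Fintype.card Ω) ^ 4)
    (H : Subgroup (Perm Ω)) (hH : H ≤ G) :
    NoBigAlt (Nat.log 2 (Fintype.card Ω) ^ 4) H := by
  intro Δ _ _ φ E hE
  by_contra hcon
  push Not at hcon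
  obtain ⟨σ, hσ1, hσ2, hσ3⟩ := exists_cycles E P
    (fun p hp => ⟨(hP p hp).2, (hP p hp).1.one_lt⟩) (hsum.trans hcon.le)
  obtain ⟨h, rfl⟩ := hE σ hσ1 hσ2
  have h1 := primes_bound hn H.subtype (fun g hg => hmin g (hH g.2) (by
      intro h0
      exact hg (Subtype.ext h0))) h P
    (fun p hp => ⟨(hP p hp).1, (hσ3 p hp).trans (orderOf_map_dvd φ h)⟩)
  omega

end Pool.Agent.Lib.MP_acf1dc_al
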