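import Mathlib
import Pool.Agent.Lib.MP_acf1dc_al.Defs

/-! Groups with a subnormal series whose factors are alternating or small. -/

set_option autoImplicit false

namespace Pool.Agent.Lib.MP_acf1dc_al

open Equiv

/-- `H` has a subnormal series to `1` with factors alternating or of order below `g₀`. -/
inductive GoodSub (g₀ : ℕ) {Γ : Type} [Group Γ] : Subgroup Γ → Prop
  | bot : GoodSub g₀ ⊥
  | step (H N : Subgroup Γ) (hNH : N ≤ H) (hn : (N.subgroupOf H).Normal)
      (hs : (N.subgroupOf H).index < g₀ ∨ ∃ m : ℕ, ∃ φ : ↥H →* ↥(alternatingGroup (Fin m)),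
        Function.Surjective φ ∧ φ.ker = N.subgroupOf H)
      (hN : GoodSub g₀ N) : GoodSub g₀ H

variable {g₀ : ℕ} {Γ Q : Type} [Group Γ] [Group Q]

lemma GoodSub.step_of_surj {H N : Subgroup Q} {H' N' : Subgroup Γ} (hNH : N' ≤ H')
    (hn : (N.subgroupOf H).Normal)
    (hs : (N.subgroupOf H).index < g₀ ∨ ∃ m : ℕ, ∃ φ : ↥H →* ↥(alternatingGroup (Fin m)),
        Function.Surjective φ ∧ φ.ker = N.subgroupOf H)
    (ψ : ↥H' →* ↥H) (hψ : Function.Surjective ψ)
    (hN : N'.subgroupOf H' = (N.subgroupOf H).comap ψ) (hg : GoodSub g₀ N') :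
    GoodSub g₀ H' := by
  refine GoodSub.step H' N' hNH (hN ▸ hn.comap ψ) ?_ hg
  rcases hs with hs | ⟨m, φ, h1, h2⟩
  · left
    rw [hN, Subgroup.index_comap_of_surjective _ hψ]
    exact hs
  · right
    refine ⟨m, φ.comp ψ, h1.comp hψ, ?_⟩
    rw [hN, ← h2, MonoidHom.comap_ker]

lemma GoodSub.comap (ρ : Γ →* Q) {H : Subgroup Q} (hH : GoodSub g₀ H) (hr : H ≤ ρ.range)
    (hk : GoodSub g₀ ρ.ker) : GoodSub g₀ (H.comap ρ) := by
  induction hH with
  | bot => rwa [MonoidHom.comap_bot]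
  | step H N hNH hn hs hN ih =>
    refine GoodSub.step_of_surj (Subgroup.comap_mono hNH) hn hs (ρ.subgroupComap H) ?_ ?_
      (ih (hNH.trans hr))
    · rintro ⟨x, hx⟩
      obtain ⟨y, rfl⟩ := hr hx
      exact ⟨⟨y, hx⟩, rfl⟩
    · ext ⟨x, hx⟩
      simp [Subgroup.mem_subgroupOf]

lemma GoodSub.map (ι : Γ →* Q) (hι : Function.Injective ι) {H : Subgroup Γ}
    (hH : GoodSub g₀ H) : GoodSub g₀ (H.map ι) := by
  induction hH with
  | bot => rw [Subgroup.map_bot]; exact GoodSub.bot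
  | step H N hNH hn hs hN ih =>
    refine GoodSub.step_of_surj (Subgroup.map_mono hNH) hn hs
      (H.equivMapOfInjective ι hι).symm.toMonoidHom (H.equivMapOfInjective ι hι).symm.surjective
      ?_ ih
    ext ⟨x, hx⟩
    obtain ⟨y, hy, rfl⟩ := hx
    have h1 : (H.equivMapOfInjective ι hι).symm ⟨ι y, y, hy, rfl⟩ = ⟨y, hy⟩ := by
      rw [MulEquiv.symm_apply_eq]
      rfl
    simp only [Subgroup.mem_subgroupOf, Subgroup.mem_comap, MulEquiv.toMonoidHom_eq_coe,
      MonoidHom.coe_coe]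
    rw [h1]
    constructor
    · rintro ⟨z, hz, hzy⟩
      have h2 := hι hzy
      subst h2
      exact hz
    · intro h
      exact ⟨y, h, rfl⟩

lemma GoodSub.series {H : Subgroup Γ} (hH : GoodSub g₀ H) :
    ∃ k : ℕ, ∃ f : ℕ → Subgroup Γ, f 0 = H ∧ f k = ⊥ ∧
      ∀ i < k, f (i + 1) ≤ f i ∧ ((f (i + 1)).subgroupOf (f i)).Normal ∧
        (((f (i + 1)).subgroupOf (f i)).index < g₀ ∨
          ∃ m : ℕ, ∃ φ : ↥(f i) →* ↥(alternatingGroup (Fin m)),
            Function.Surjective φ ∧ φ.ker = (f (i + 1)).subgroupOf (f i)) := by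
  induction hH with
  | bot => exact ⟨0, fun _ => ⊥, rfl, rfl, fun i hi => absurd hi (Nat.not_lt_zero i)⟩
  | step H N hNH hn hs hN ih =>
    obtain ⟨k, f, hf0, hfk, hf⟩ := ih
    refine ⟨k + 1, fun i => Nat.casesOn i H f, rfl, hfk, ?_⟩
    intro i hi
    rcases i with _ | i
    · subst hf0
      exact ⟨hNH, hn, hs⟩
    · exact hf i (by omega)

/-- a group of order below `g₀` is good. -/
lemma GoodSub.of_card {H : Subgroup Γ} (h : Nat.card H < g₀) : GoodSub g₀ H := by
  refine GoodSub.step H ⊥ bot_le ?_ (Or.inl ?_) GoodSub.bot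
  · rw [Subgroup.bot_subgroupOf]; infer_instance
  · rw [Subgroup.bot_subgroupOf, Subgroup.index_bot]
    exact h

/-- The extension lemma. -/
lemma GoodSub.ext_hom {H : Subgroup Γ} (ψ : ↥H →* Q) (hr : GoodSub g₀ ψ.range)
    (hk : GoodSub g₀ (ψ.ker.map H.subtype)) : GoodSub g₀ H := by
  have h1 : GoodSub g₀ ψ.ker := by
    have h2 := hk.comap H.subtype (by
      rw [Subgroup.range_subtype]
      exact Subgroup.map_subtype_le _) (by
      rw [Subgroup.ker_subtype]; exact GoodSub.bot)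
    rwa [Subgroup.comap_map_eq_self_of_injective (Subgroup.subtype_injective H)] at h2
  have h2 := hr.comap ψ le_rfl h1
  have h3 := h2.map H.subtype (Subgroup.subtype_injective H)
  have h4 : (Subgroup.comap ψ ψ.range).map H.subtype = H := by
    rw [MonoidHom.range_eq_map, Subgroup.comap_map_eq, top_sup_eq, ← MonoidHom.range_eq_map,
      Subgroup.range_subtype]
  rwa [h4] at h3

end Pool.Agent.Lib.MP_acf1dc_al
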