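import Mathlib
import Pool.Agent.Lib.MP_acf1dc_al.Good

/-! Normal subgroups of groups containing the alternating group are good. -/

set_option autoImplicit false

namespace Pool.Agent.Lib.MP_acf1dc_al

open Equiv

variable {B : Type} [Fintype B] [DecidableEq B]

lemma alt_or_small (h5 : 5 ≤ Fintype.card B) {R A : Subgroup (Perm B)}
    (hR : alternatingGroup B ≤ R) (hA : ∀ r ∈ R, ∀ a ∈ A, r * a * r⁻¹ ∈ A) :
    alternatingGroup B ≤ A ∨ Nat.card A ≤ 2 := by
  have hN : (A.subgroupOf (alternatingGroup B)).Normal := by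
    constructor
    rintro ⟨n, hn⟩ hnA ⟨g, hg⟩
    rw [Subgroup.mem_subgroupOf] at hnA ⊢
    exact hA g (hR hg) n hnA
  rcases alternatingGroup.normal_subgroup_eq_bot_or_eq_top (by
    rw [Nat.card_eq_fintype_card]; exact h5) (N := A.subgroupOf (alternatingGroup B)) with h | h
  · right
    let f : ↥A →* ℤˣ := Perm.sign.comp A.subtype
    have hf : Function.Injective f := by
      rw [injective_iff_map_eq_one]
      rintro ⟨a, ha⟩ h1
      have h2 : a ∈ alternatingGroup B := Perm.mem_alternatingGroup.2 h1
      have h3 : (⟨a, h2⟩ : alternatingGroup B) ∈ A.subgroupOf (alternatingGroup B) := by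
        rw [Subgroup.mem_subgroupOf]; exact ha
      rw [h, Subgroup.mem_bot] at h3
      have h4 : a = 1 := congrArg Subtype.val h3
      exact Subtype.ext h4
    have := Nat.card_le_card_of_injective f hf
    rw [Nat.card_eq_fintype_card (α := ℤˣ)] at this
    simpa using this
  · left
    exact Subgroup.subgroupOf_eq_top.1 h

lemma good_alt {g₀ : ℕ} : GoodSub g₀ (alternatingGroup B) := by
  refine GoodSub.step _ ⊥ bot_le ?_ (Or.inr ⟨Fintype.card B,
    (Equiv.altCongrHom (Fintype.equivFin B)).toMonoidHom, ?_, ?_⟩) GoodSub.bot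
  · rw [Subgroup.bot_subgroupOf]; infer_instance
  · exact (Equiv.altCongrHom (Fintype.equivFin B)).surjective
  · rw [Subgroup.bot_subgroupOf]
    exact (MonoidHom.ker_eq_bot_iff _).2 (Equiv.altCongrHom (Fintype.equivFin B)).injective

lemma good_of_alt_le {g₀ : ℕ} (h3 : 3 ≤ g₀) {A : Subgroup (Perm B)}
    (hA : alternatingGroup B ≤ A) : GoodSub g₀ A := by
  refine GoodSub.step A (alternatingGroup B) hA ?_ (Or.inl ?_) good_alt
  · infer_instance
  · have h1 : ((alternatingGroup B).subgroupOf A).index ∣ (alternatingGroup B).index :=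
      Subgroup.relIndex_dvd_index_of_normal _ _
    have h2 : (alternatingGroup B).index ≤ 2 := by
      rcases subsingleton_or_nontrivial B with h | h
      · rw [alternatingGroup.index_eq_one]; omega
      · rw [alternatingGroup.index_eq_two]
    have h4 : 0 < (alternatingGroup B).index := by
      have := Subgroup.index_ne_zero_of_finite (H := alternatingGroup B)
      omega
    have := Nat.le_of_dvd h4 h1
    omega

/-- every subgroup of `B` which is normal in a normal subgroup of a group containing the
alternating group is good -/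
lemma good_of_subnormal {g₀ : ℕ} (h3 : 3 ≤ g₀) (h5 : 5 ≤ Fintype.card B)
    {R A A' : Subgroup (Perm B)} (hR : alternatingGroup B ≤ R)
    (hA : ∀ r ∈ R, ∀ a ∈ A, r * a * r⁻¹ ∈ A) (hA' : ∀ r ∈ A, ∀ a ∈ A', r * a * r⁻¹ ∈ A')
    (hAA : A' ≤ A) : GoodSub g₀ A' := by
  rcases alt_or_small h5 hR hA with h | h
  · rcases alt_or_small h5 h hA' with h' | h'
    · exact good_of_alt_le h3 h'
    · exact GoodSub.of_card (by omega)
  · have : Nat.card A' ≤ Nat.card A := Subgroup.card_le_of_le hAA
    exact GoodSub.of_card (by omega)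

lemma good_of_small {g₀ k₀ : ℕ} (h : k₀.factorial < g₀) (hB : Fintype.card B ≤ k₀)
    (A : Subgroup (Perm B)) : GoodSub g₀ A := by
  apply GoodSub.of_card
  have h1 : Nat.card A ≤ Nat.card (Perm B) := Subgroup.card_le_card_group A
  rw [Nat.card_eq_fintype_card (α := Perm B), Fintype.card_perm] at h1
  have := Nat.factorial_le hB
  omega

end Pool.Agent.Lib.MP_acf1dc_al
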