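import Mathlib
import Pool.Agent.Lib.MP_acf1dc_al.GoodAlt

/-! Invariant equivalence relations and the induced actions. -/

set_option autoImplicit false

namespace Pool.Agent.Lib.MP_acf1dc_al

open Equiv

variable {Γ Ω : Type} [Group Γ]

lemma perm_apply_inv (f : Perm Ω) (x : Ω) : f (f⁻¹ x) = x := f.apply_symm_apply x

lemma perm_inv_apply (f : Perm Ω) (x : Ω) : f⁻¹ (f x) = x := f.symm_apply_apply x

/-- The stabiliser of a colouring. -/
def stab (ρ : Γ →* Perm Ω) (c : Ω → Bool) : Subgroup Γ where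
  carrier := {γ | ∀ x, c (ρ γ x) = c x}
  mul_mem' := by
    intro a b ha hb x
    rw [map_mul, Perm.mul_apply, ha, hb]
  one_mem' := by
    intro x
    rw [map_one, Perm.one_apply]
  inv_mem' := by
    intro a ha x
    have h := ha ((ρ a)⁻¹ x)
    rw [perm_apply_inv] at h
    rw [map_inv, h]

lemma mem_stab {ρ : Γ →* Perm Ω} {c : Ω → Bool} {γ : Γ} :
    γ ∈ stab ρ c ↔ ∀ x, c (ρ γ x) = c x := Iff.rfl

/-- Invariance of an equivalence relation. -/
def Inv (ρ : Γ →* Perm Ω) (s : Setoid Ω) : Prop := ∀ γ x y, s x y → s (ρ γ x) (ρ γ y)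

/-- The induced action on the classes. -/
def quo (ρ : Γ →* Perm Ω) (s : Setoid Ω) (hs : Inv ρ s) : Γ →* Perm (Quotient s) where
  toFun γ :=
    { toFun := Quotient.map (ρ γ) (fun x y h => hs γ x y h)
      invFun := Quotient.map (ρ γ⁻¹) (fun x y h => hs γ⁻¹ x y h)
      left_inv := by
        intro q
        induction q using Quotient.inductionOn with
        | h x => simp
      right_inv := by
        intro q
        induction q using Quotient.inductionOn with
        | h x => simp }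
  map_one' := by
    ext q
    induction q using Quotient.inductionOn with
    | h x => simp
  map_mul' := by
    intro a b
    ext q
    induction q using Quotient.inductionOn with
    | h x => simp

@[simp] lemma quo_mk (ρ : Γ →* Perm Ω) (s : Setoid Ω) (hs : Inv ρ s) (γ : Γ) (x : Ω) :
    quo ρ s hs γ (Quotient.mk s x) = Quotient.mk s (ρ γ x) := rfl

/-- The class as a type. -/
abbrev Cls (s : Setoid Ω) (q : Quotient s) : Type := {x : Ω // Quotient.mk s x = q}

/-- The stabiliser of a class. -/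
def cstab (ρ : Γ →* Perm Ω) (s : Setoid Ω) (hs : Inv ρ s) (q : Quotient s) : Subgroup Γ where
  carrier := {γ | quo ρ s hs γ q = q}
  mul_mem' := by
    intro a b ha hb
    simp only [Set.mem_ofPred_eq] at ha hb ⊢
    rw [map_mul, Perm.mul_apply, hb, ha]
  one_mem' := by simp
  inv_mem' := by
    intro a ha
    simp only [Set.mem_ofPred_eq] at ha ⊢
    rw [map_inv, Perm.inv_eq_iff_eq, ha]

lemma mem_cstab {ρ : Γ →* Perm Ω} {s : Setoid Ω} {hs : Inv ρ s} {q : Quotient s} {γ : Γ} :
    γ ∈ cstab ρ s hs q ↔ quo ρ s hs γ q = q := Iff.rfl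

/-- The action of the stabiliser of a class on the class. -/
def res (ρ : Γ →* Perm Ω) (s : Setoid Ω) (hs : Inv ρ s) (q : Quotient s) :
    ↥(cstab ρ s hs q) →* Perm (Cls s q) where
  toFun γ := (ρ γ.1).subtypePerm (by
    intro x
    constructor
    · intro h
      have h1 : quo ρ s hs γ.1 (Quotient.mk s x) = quo ρ s hs γ.1 q := by
        rw [quo_mk, h]; exact γ.2.symm
      exact (quo ρ s hs γ.1).injective h1
    · intro h
      rw [← quo_mk ρ s hs, h]
      exact γ.2)
  map_one' := by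
    ext x
    simp
  map_mul' := by
    intro a b
    ext x
    simp

lemma res_apply (ρ : Γ →* Perm Ω) (s : Setoid Ω) (hs : Inv ρ s) (q : Quotient s)
    (γ : ↥(cstab ρ s hs q)) (x : Cls s q) : ((res ρ s hs q γ x : Cls s q) : Ω) = ρ γ.1 x.1 := rfl

/-- A minimal nontrivial invariant equivalence relation. -/
lemma exists_min_setoid [Finite Ω] [Nontrivial Ω] (ρ : Γ →* Perm Ω) :
    ∃ s : Setoid Ω, Inv ρ s ∧ s ≠ ⊥ ∧ ∀ s' : Setoid Ω, Inv ρ s' → s' ≠ ⊥ → s' ≤ s → s' = s := by
  classical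
  have hwf := (measure fun s : Setoid Ω => Nat.card {p : Ω × Ω // s p.1 p.2}).wf
  obtain ⟨s, ⟨hs1, hs2⟩, hmin⟩ := hwf.has_min {s : Setoid Ω | Inv ρ s ∧ s ≠ ⊥} ⟨⊤, by
    refine ⟨fun γ x y _ => trivial, ?_⟩
    intro h
    obtain ⟨x, y, hxy⟩ := exists_pair_ne Ω
    have h1 : (⊤ : Setoid Ω) x y := trivial
    rw [h] at h1
    exact hxy h1⟩
  refine ⟨s, hs1, hs2, fun s' h1 h2 h3 => ?_⟩
  have h4 := hmin s' ⟨h1, h2⟩
  change ¬ (Nat.card {p : Ω × Ω // s' p.1 p.2} < Nat.card {p : Ω × Ω // s p.1 p.2}) at h4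
  apply le_antisymm h3
  intro x y hxy
  by_contra hcon
  apply h4
  let f : {p : Ω × Ω // s' p.1 p.2} → {p : Ω × Ω // s p.1 p.2} := fun p => ⟨p.1, h3 p.2⟩
  have hf : Function.Injective f := by
    intro a b hab
    exact Subtype.ext (congrArg (fun z => z.1) hab)
  have hle := Nat.card_le_card_of_injective f hf
  rcases hle.lt_or_eq with h | h
  · exact h
  · exfalso
    have hb : Function.Bijective f := (Nat.bijective_iff_injective_and_card f).2 ⟨hf, h⟩
    obtain ⟨p, hp⟩ := hb.2 ⟨(x, y), hxy⟩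
    have h5 : p.1 = (x, y) := congrArg (fun z => z.1) hp
    have h6 := p.2
    rw [h5] at h6
    exact hcon h6

section minimal

variable {ρ : Γ →* Perm Ω} {s : Setoid Ω} (hs : Inv ρ s)
  (hmin : ∀ s' : Setoid Ω, Inv ρ s' → s' ≠ ⊥ → s' ≤ s → s' = s)

include hs hmin

/-- every nonsingleton class is a translate of a given one -/
lemma exists_translate {x₀ y₀ : Ω} (h0 : s x₀ y₀) (hne : x₀ ≠ y₀) {x y : Ω} (hxy : s x y)
    (hne' : x ≠ y) : ∃ γ : Γ, quo ρ s hs γ (Quotient.mk s x₀) = Quotient.mk s x := by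
  let s' : Setoid Ω :=
    { r := fun x y => x = y ∨ (s x y ∧ ∃ γ : Γ, s (ρ γ x₀) x)
      iseqv := by
        refine ⟨fun x => Or.inl rfl, ?_, ?_⟩
        · rintro x y (rfl | ⟨h1, γ, h2⟩)
          · exact Or.inl rfl
          · exact Or.inr ⟨s.symm h1, γ, s.trans h2 h1⟩
        · rintro x y z (rfl | ⟨h1, γ, h2⟩) (rfl | ⟨h3, γ', h4⟩)
          · exact Or.inl rfl
          · exact Or.inr ⟨h3, γ', h4⟩
          · exact Or.inr ⟨h1, γ, h2⟩
          · exact Or.inr ⟨s.trans h1 h3, γ, h2⟩ }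
  have h1 : s' = s := by
    apply hmin
    · rintro γ x y (rfl | ⟨h1, δ, h2⟩)
      · exact Or.inl rfl
      · refine Or.inr ⟨hs γ _ _ h1, γ * δ, ?_⟩
        rw [map_mul, Perm.mul_apply]
        exact hs γ _ _ h2
    · intro h
      have h2 : s' x₀ y₀ := Or.inr ⟨h0, 1, by rw [map_one, Perm.one_apply]⟩
      rw [h] at h2
      exact hne h2
    · rintro x y (rfl | ⟨h1, _⟩)
      · exact s.refl _
      · exact h1
  have h2 : s' x y := by rw [h1]; exact hxy
  rcases h2 with h2 | ⟨_, γ, h3⟩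
  · exact absurd h2 hne'
  · exact ⟨γ, Quotient.sound h3⟩

/-- the action on a class is primitive -/
lemma prim_res (q : Quotient s) : Prim (res ρ s hs q).range := by
  intro r hr
  by_cases hbot : r = ⊥
  · exact Or.inl hbot
  right
  let s' : Setoid Ω :=
    { r := fun x y => x = y ∨ ∃ γ : Γ, ∃ u v : Cls s q, r u v ∧ x = ρ γ u.1 ∧ y = ρ γ v.1
      iseqv := by
        refine ⟨fun x => Or.inl rfl, ?_, ?_⟩
        · rintro x y (rfl | ⟨γ, u, v, h1, h2, h3⟩)
          · exact Or.inl rfl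
          · exact Or.inr ⟨γ, v, u, r.symm h1, h3, h2⟩
        · rintro x y z (rfl | ⟨γ, u, v, h1, h2, h3⟩) (rfl | ⟨γ', u', v', h1', h2', h3'⟩)
          · exact Or.inl rfl
          · exact Or.inr ⟨γ', u', v', h1', h2', h3'⟩
          · exact Or.inr ⟨γ, u, v, h1, h2, h3⟩
          · have h4 : ρ (γ'⁻¹ * γ) v.1 = u'.1 := by
              rw [map_mul, Perm.mul_apply, ← h3, h2', map_inv, perm_inv_apply]
            have h5 : γ'⁻¹ * γ ∈ cstab ρ s hs q := by
              rw [mem_cstab]
              conv_lhs => rw [← v.2]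
              rw [quo_mk, h4, u'.2]
            have h6 := hr _ ⟨⟨_, h5⟩, rfl⟩ u v h1
            have h7 : res ρ s hs q ⟨_, h5⟩ v = u' := Subtype.ext h4
            rw [h7] at h6
            refine Or.inr ⟨γ', _, v', r.trans h6 h1', ?_, h3'⟩
            rw [res_apply, h2, map_mul, Perm.mul_apply, map_inv, perm_apply_inv] }
  have h1 : s' = s := by
    apply hmin
    · rintro γ x y (rfl | ⟨δ, u, v, h1, h2, h3⟩)
      · exact Or.inl rfl
      · refine Or.inr ⟨γ * δ, u, v, h1, ?_, ?_⟩
        · rw [map_mul, Perm.mul_apply, h2]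
        · rw [map_mul, Perm.mul_apply, h3]
    · intro h
      apply hbot
      ext u v
      constructor
      · intro huv
        have h2 : s' u.1 v.1 := Or.inr ⟨1, u, v, huv, by simp, by simp⟩
        rw [h] at h2
        exact Subtype.ext h2
      · intro huv
        have h2 : u = v := huv
        rw [h2]
    · rintro x y (rfl | ⟨δ, u, v, h1, h2, h3⟩)
      · exact s.refl _
      · rw [h2, h3]
        apply hs
        exact Quotient.exact (u.2.trans v.2.symm)
  ext u v
  constructor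
  · intro _; trivial
  · intro _
    have h2 : s' u.1 v.1 := by
      rw [h1]
      exact Quotient.exact (u.2.trans v.2.symm)
    rcases h2 with h2 | ⟨γ, u', v', h3, h4, h5⟩
    · have : u = v := Subtype.ext h2
      rw [this]
    · have h6 : γ ∈ cstab ρ s hs q := by
        rw [mem_cstab]
        conv_lhs => rw [← u'.2]
        rw [quo_mk, ← h4, u.2]
      have h7 := hr _ ⟨⟨_, h6⟩, rfl⟩ u' v' h3
      have h8 : res ρ s hs q ⟨_, h6⟩ u' = u := Subtype.ext h4.symm
      have h9 : res ρ s hs q ⟨_, h6⟩ v' = v := Subtype.ext h5.symm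
      rwa [h8, h9] at h7

end minimal

end Pool.Agent.Lib.MP_acf1dc_al
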