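import Mathlib
import Pool.Agent.Lib.MP_acf1dc_al.Quot

/-! The kernel of the action on the classes is good, in the easy case. -/

set_option autoImplicit false

namespace Pool.Agent.Lib.MP_acf1dc_al

open Equiv

variable {Γ Ω : Type} [Group Γ] {g₀ : ℕ}

/-- The elements acting trivially on the classes and trivially outside the union of the classes
in `U`. -/
def kerOff (ρ : Γ →* Perm Ω) (s : Setoid Ω) (hs : Inv ρ s) (U : Set (Quotient s)) :
    Subgroup Γ where
  carrier := {γ | quo ρ s hs γ = 1 ∧ ∀ x, Quotient.mk s x ∉ U → ρ γ x = x}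
  mul_mem' := by
    rintro a b ⟨ha1, ha2⟩ ⟨hb1, hb2⟩
    refine ⟨by rw [map_mul, ha1, hb1, one_mul], fun x hx => ?_⟩
    rw [map_mul, Perm.mul_apply, hb2 x hx, ha2 x hx]
  one_mem' := by
    refine ⟨map_one _, fun x _ => ?_⟩
    rw [map_one, Perm.one_apply]
  inv_mem' := by
    rintro a ⟨ha1, ha2⟩
    refine ⟨by rw [map_inv, ha1, inv_one], fun x hx => ?_⟩
    rw [map_inv, Perm.inv_eq_iff_eq, ha2 x hx]

lemma mem_kerOff {ρ : Γ →* Perm Ω} {s : Setoid Ω} {hs : Inv ρ s} {U : Set (Quotient s)} {γ : Γ} :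
    γ ∈ kerOff ρ s hs U ↔ quo ρ s hs γ = 1 ∧ ∀ x, Quotient.mk s x ∉ U → ρ γ x = x := Iff.rfl

lemma kerOff_le_cstab {ρ : Γ →* Perm Ω} {s : Setoid Ω} {hs : Inv ρ s} {U : Set (Quotient s)}
    (q : Quotient s) : kerOff ρ s hs U ≤ cstab ρ s hs q := by
  intro γ hγ
  rw [mem_cstab, (mem_kerOff.1 hγ).1, Perm.one_apply]

lemma kerOff_empty {ρ : Γ →* Perm Ω} {s : Setoid Ω} {hs : Inv ρ s} :
    kerOff ρ s hs ∅ = ρ.ker := by
  ext γ
  rw [mem_kerOff, MonoidHom.mem_ker]
  constructor
  · rintro ⟨_, h⟩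
    ext x
    rw [h x (by simp), Perm.one_apply]
  · intro h
    refine ⟨?_, fun x _ => by rw [h, Perm.one_apply]⟩
    ext q
    induction q using Quotient.inductionOn with
    | h x => rw [quo_mk, h, Perm.one_apply, Perm.one_apply]

lemma kerOff_univ {ρ : Γ →* Perm Ω} {s : Setoid Ω} {hs : Inv ρ s} :
    kerOff ρ s hs Set.univ = (quo ρ s hs).ker := by
  ext γ
  rw [mem_kerOff, MonoidHom.mem_ker]
  constructor
  · exact fun h => h.1
  · exact fun h => ⟨h, fun x hx => absurd (Set.mem_univ _) hx⟩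

/-- the action of `kerOff` on a class -/
def resOff (ρ : Γ →* Perm Ω) (s : Setoid Ω) (hs : Inv ρ s) (U : Set (Quotient s))
    (q : Quotient s) : ↥(kerOff ρ s hs U) →* Perm (Cls s q) :=
  (res ρ s hs q).comp (Subgroup.inclusion (kerOff_le_cstab q))

lemma resOff_apply (ρ : Γ →* Perm Ω) (s : Setoid Ω) (hs : Inv ρ s) (U : Set (Quotient s))
    (q : Quotient s) (γ : ↥(kerOff ρ s hs U)) (x : Cls s q) :
    ((resOff ρ s hs U q γ x : Cls s q) : Ω) = ρ γ.1 x.1 := rfl

lemma kerOff_mono {ρ : Γ →* Perm Ω} {s : Setoid Ω} {hs : Inv ρ s} {U V : Set (Quotient s)}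
    (h : U ⊆ V) : kerOff ρ s hs U ≤ kerOff ρ s hs V :=
  fun γ hγ => ⟨hγ.1, fun x hx => hγ.2 x fun h' => hx (h h')⟩

lemma range_resOff_mono {ρ : Γ →* Perm Ω} {s : Setoid Ω} {hs : Inv ρ s} {U V : Set (Quotient s)}
    (h : U ⊆ V) (q : Quotient s) : (resOff ρ s hs U q).range ≤ (resOff ρ s hs V q).range := by
  rintro _ ⟨γ, rfl⟩
  exact ⟨⟨γ.1, kerOff_mono h γ.2⟩, rfl⟩

/-- `kerOff` of everything is normalised by the class stabiliser -/
lemma conj_mem_range_univ {ρ : Γ →* Perm Ω} {s : Setoid Ω} {hs : Inv ρ s} (q : Quotient s)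
    (r : Perm (Cls s q)) (hr : r ∈ (res ρ s hs q).range) (a : Perm (Cls s q))
    (ha : a ∈ (resOff ρ s hs Set.univ q).range) :
    r * a * r⁻¹ ∈ (resOff ρ s hs Set.univ q).range := by
  obtain ⟨γ, rfl⟩ := hr
  obtain ⟨δ, rfl⟩ := ha
  refine ⟨⟨γ.1 * δ.1 * γ.1⁻¹, ?_, fun x hx => absurd (Set.mem_univ _) hx⟩, ?_⟩
  · rw [map_mul, map_mul, (mem_kerOff.1 δ.2).1, mul_one, map_inv, mul_inv_cancel]
  · ext x
    simp only [resOff_apply, Perm.mul_apply]
    rw [map_mul, map_mul, Perm.mul_apply, Perm.mul_apply, res_apply, resOff_apply, ← map_inv,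
      res_apply]
    rfl

lemma conj_mem_range_off {ρ : Γ →* Perm Ω} {s : Setoid Ω} {hs : Inv ρ s} (U : Set (Quotient s))
    (q : Quotient s) (r : Perm (Cls s q)) (hr : r ∈ (resOff ρ s hs Set.univ q).range)
    (a : Perm (Cls s q)) (ha : a ∈ (resOff ρ s hs U q).range) :
    r * a * r⁻¹ ∈ (resOff ρ s hs U q).range := by
  obtain ⟨γ, rfl⟩ := hr
  obtain ⟨δ, rfl⟩ := ha
  refine ⟨⟨γ.1 * δ.1 * γ.1⁻¹, ?_, fun x hx => ?_⟩, ?_⟩
  · rw [map_mul, map_mul, (mem_kerOff.1 δ.2).1, mul_one, map_inv, mul_inv_cancel]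
  · have h1 : Quotient.mk s (ρ γ.1⁻¹ x) ∉ U := by
      rw [← quo_mk ρ s hs, map_inv, (mem_kerOff.1 γ.2).1, inv_one, Perm.one_apply]
      exact hx
    rw [map_mul, map_mul, Perm.mul_apply, Perm.mul_apply, (mem_kerOff.1 δ.2).2 _ h1, map_inv,
      perm_apply_inv]
  · ext x
    simp only [resOff_apply, Perm.mul_apply]
    rw [map_mul, map_mul, Perm.mul_apply, Perm.mul_apply,
      ← map_inv (resOff ρ s hs Set.univ q), resOff_apply]
    rfl

variable [DecidableEq Ω]

/-- If every class is small or carries at least the alternating group, the kernel of the action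
on the classes is good. -/
theorem good_ker_quo {k₀ : ℕ} (hg : k₀.factorial < g₀) (h3 : 3 ≤ g₀) (ρ : Γ →* Perm Ω)
    (s : Setoid Ω) (hs : Inv ρ s) [Finite (Quotient s)] [∀ q, Fintype (Cls s q)]
    (hk : GoodSub g₀ ρ.ker)
    (hq : ∀ q, Fintype.card (Cls s q) ≤ k₀ ∨
      (5 ≤ Fintype.card (Cls s q) ∧ alternatingGroup (Cls s q) ≤ (res ρ s hs q).range)) :
    GoodSub g₀ (quo ρ s hs).ker := by
  classical
  rw [← kerOff_univ]
  have key : ∀ U : Set (Quotient s), U.Finite → GoodSub g₀ (kerOff ρ s hs U) := by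
    intro U hU
    induction U, hU using Set.Finite.induction_on with
    | empty => rw [kerOff_empty]; exact hk
    | @insert q U hqU hU ih =>
      apply GoodSub.ext_hom (resOff ρ s hs (insert q U) q)
      · rcases hq q with h | ⟨h5, h⟩
        · exact good_of_small hg h _
        · exact good_of_subnormal h3 h5 h (conj_mem_range_univ q)
            (conj_mem_range_off _ q) (range_resOff_mono (Set.subset_univ _) q)
      · have h1 : (resOff ρ s hs (insert q U) q).ker.map (kerOff ρ s hs (insert q U)).subtype =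
            kerOff ρ s hs U := by
          ext γ
          constructor
          · rintro ⟨⟨γ', hγ'⟩, h2, rfl⟩
            refine ⟨hγ'.1, fun x hx => ?_⟩
            by_cases hxq : Quotient.mk s x = q
            · have h3 : resOff ρ s hs (insert q U) q ⟨γ', hγ'⟩ = 1 := h2
              have h4 := congrArg (fun f => ((f ⟨x, hxq⟩ : Cls s q) : Ω)) h3
              exact h4
            · apply hγ'.2 x
              rintro (h | h)
              · exact hxq h
              · exact hx h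
          · intro hγ
            refine ⟨⟨γ, kerOff_mono (Set.subset_insert _ _) hγ⟩, ?_, rfl⟩
            rw [SetLike.mem_coe, MonoidHom.mem_ker]
            ext x
            rw [resOff_apply, Perm.one_apply]
            apply hγ.2
            rw [x.2]
            exact hqU
        rw [h1]
        exact ih
  exact key _ (Set.toFinite _)

end Pool.Agent.Lib.MP_acf1dc_al
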