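import Mathlib
import Pool.Agent.Lib.MP_acf1dc_al.Kernel

/-! The marking argument: classes carrying two types of rigid colourings. -/

set_option autoImplicit false

namespace Pool.Agent.Lib.MP_acf1dc_al

open Equiv

variable {Γ Ω : Type} [Group Γ] {g₀ : ℕ}

/-- The subgroup preserving a marking `μ` on an invariant set `O`. -/
def markSub (ρ : Γ →* Perm Ω) (O : Set Ω) (hO : ∀ γ x, ρ γ x ∈ O ↔ x ∈ O) (μ : Ω → Ω) :
    Subgroup Γ where
  carrier := {γ | ∀ x ∈ O, μ (ρ γ x) = μ x}
  mul_mem' := by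
    intro a b ha hb x hx
    rw [map_mul, Perm.mul_apply, ha _ ((hO b x).2 hx), hb x hx]
  one_mem' := by
    intro x _
    rw [map_one, Perm.one_apply]
  inv_mem' := by
    intro a ha x hx
    have h := ha (ρ a⁻¹ x) ((hO _ _).2 hx)
    rw [map_inv, perm_apply_inv] at h
    rw [map_inv, h]

lemma mem_markSub {ρ : Γ →* Perm Ω} {O : Set Ω} {hO : ∀ γ x, ρ γ x ∈ O ↔ x ∈ O} {μ : Ω → Ω}
    {γ : Γ} : γ ∈ markSub ρ O hO μ ↔ ∀ x ∈ O, μ (ρ γ x) = μ x := Iff.rfl

open Classical in
/-- Suppose `b` is a class such that all nonsingleton classes are translates of `b`, and the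
group induced on `b` has two types of rigid colourings. Then a good colouring of the quotient for
every group acting on it gives a good colouring. -/
theorem good_of_twoTypes (ρ : Γ →* Perm Ω) (s : Setoid Ω) (hs : Inv ρ s) (b : Quotient s)
    (htr : ∀ x y, s x y → x ≠ y → ∃ γ, quo ρ s hs γ b = Quotient.mk s x)
    (hT : TwoTypes (res ρ s hs b).range)
    (ih : ∀ (Γ' : Type) [Group Γ'] (ρ' : Γ' →* Perm (Quotient s)), GoodSub g₀ ρ'.ker →
      ∃ c, GoodSub g₀ (stab ρ' c))
    (hk : GoodSub g₀ ρ.ker) : ∃ c, GoodSub g₀ (stab ρ c) := by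
  obtain ⟨D, hD⟩ := hT
  let g : Quotient s → Γ := fun q => if h : ∃ γ, quo ρ s hs γ b = q then choose h else 1
  have hg : ∀ q, (∃ γ, quo ρ s hs γ b = q) → quo ρ s hs (g q) b = q := by
    intro q h
    simp only [g, dif_pos h]
    exact choose_spec h
  let O : Set Ω := {x | ∃ γ, quo ρ s hs γ b = Quotient.mk s x}
  have hO : ∀ γ x, ρ γ x ∈ O ↔ x ∈ O := by
    intro γ x
    constructor
    · rintro ⟨δ, hδ⟩
      refine ⟨γ⁻¹ * δ, ?_⟩
      rw [map_mul, Perm.mul_apply, hδ, quo_mk, map_inv, perm_inv_apply]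
    · rintro ⟨δ, hδ⟩
      refine ⟨γ * δ, ?_⟩
      rw [map_mul, Perm.mul_apply, hδ, quo_mk]
  let μ : Ω → Ω := fun y => (ρ (g (Quotient.mk s y)))⁻¹ y
  have hμ : ∀ y ∈ O, Quotient.mk s (μ y) = b := by
    intro y hy
    have h1 := hg _ hy
    apply (quo ρ s hs (g (Quotient.mk s y))).injective
    rw [h1, quo_mk]
    simp only [μ]
    rw [perm_apply_inv]
  have hμ' : ∀ y, ρ (g (Quotient.mk s y)) (μ y) = y := by
    intro y
    simp only [μ]
    rw [perm_apply_inv]
  let Γ₀ := markSub ρ O hO μ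
  let ρ₀ : ↥Γ₀ →* Perm (Quotient s) := (quo ρ s hs).comp Γ₀.subtype
  -- the kernel
  have hker : ρ₀.ker = ρ.ker.subgroupOf Γ₀ := by
    ext ⟨γ, hγ⟩
    rw [MonoidHom.mem_ker, Subgroup.mem_subgroupOf, MonoidHom.mem_ker]
    constructor
    · intro h
      have h1 : ∀ q, quo ρ s hs γ q = q := fun q => by
        have : quo ρ s hs γ = 1 := h
        rw [this, Perm.one_apply]
      ext x
      rw [Perm.one_apply]
      have h2 := h1 (Quotient.mk s x)
      rw [quo_mk] at h2
      by_cases hx : x ∈ O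
      · have h3 := hγ x hx
        have h4 := hμ' (ρ γ x)
        rw [h3, h2, hμ'] at h4
        exact h4.symm
      · by_contra hne
        exact hx (htr x (ρ γ x) (Quotient.exact h2.symm) (Ne.symm hne))
    · intro h
      ext q
      induction q using Quotient.inductionOn with
      | h x =>
        change quo ρ s hs γ (Quotient.mk s x) = _
        have h' : ρ γ = 1 := h
        rw [quo_mk, h', Perm.one_apply, Perm.one_apply]
  have hker_le : ρ.ker ≤ Γ₀ := by
    intro γ hγ
    rw [MonoidHom.mem_ker] at hγ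
    intro x _
    rw [hγ, Perm.one_apply]
  have hk₀ : GoodSub g₀ ρ₀.ker := by
    rw [hker]
    exact hk.comap Γ₀.subtype (by rw [Subgroup.range_subtype]; exact hker_le)
      (by rw [Subgroup.ker_subtype]; exact GoodSub.bot)
  obtain ⟨τ, hτ⟩ := ih _ ρ₀ hk₀
  let c : Ω → Bool := fun x => if h : Quotient.mk s (μ x) = b ∧ x ∈ O then
    D (τ (Quotient.mk s x)) ⟨μ x, h.1⟩ else τ (Quotient.mk s x)
  have hc1 : ∀ x (hx : x ∈ O), c x = D (τ (Quotient.mk s x)) ⟨μ x, hμ x hx⟩ := by
    intro x hx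
    simp only [c, dif_pos (And.intro (hμ x hx) hx)]
  have hc2 : ∀ x, x ∉ O → c x = τ (Quotient.mk s x) := by
    intro x hx
    simp only [c]
    rw [dif_neg]
    exact fun h => hx h.2
  refine ⟨c, ?_⟩
  have hmain : stab ρ c = (stab ρ₀ τ).map Γ₀.subtype := by
    ext γ
    constructor
    · intro hγ
      -- for every class in `O` the marking is preserved
      have h1 : ∀ y ∈ O, μ (ρ γ y) = μ y ∧
          τ (quo ρ s hs γ (Quotient.mk s y)) = τ (Quotient.mk s y) := by
        intro y hy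
        set q := Quotient.mk s y with hq
        set q' := Quotient.mk s (ρ γ y) with hq'
        have hqq : quo ρ s hs γ q = q' := by rw [hq, quo_mk]
        have h2 : quo ρ s hs (g q) b = q := hg _ hy
        have h3 : quo ρ s hs (g q') b = q' := hg _ ((hO γ y).2 hy)
        have hδ : (g q')⁻¹ * γ * g q ∈ cstab ρ s hs b := by
          rw [mem_cstab, map_mul, map_mul, Perm.mul_apply, Perm.mul_apply, h2, hqq, map_inv,
            Perm.inv_eq_iff_eq, h3]
        have h4 := hD (τ q) (τ q') (res ρ s hs b ⟨_, hδ⟩) ⟨_, rfl⟩ (by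
          intro x
          have h5 : Quotient.mk s (ρ (g q) x.1) = q := by
            rw [← quo_mk ρ s hs, x.2, h2]
          have h6 : ρ (g q) x.1 ∈ O := ⟨g q, by rw [h2, h5]⟩
          have h7 := hγ (ρ (g q) x.1)
          rw [hc1 _ ((hO _ _).2 h6), hc1 _ h6] at h7
          have h8 : Quotient.mk s (ρ γ (ρ (g q) x.1)) = q' := by
            rw [← quo_mk ρ s hs, h5, hqq]
          have h9 : μ (ρ (g q) x.1) = x.1 := by
            simp only [μ]
            rw [h5, perm_inv_apply]
          have h10 : μ (ρ γ (ρ (g q) x.1)) = (res ρ s hs b ⟨_, hδ⟩ x : Cls s b).1 := by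
            simp only [μ]
            rw [h8, res_apply, map_mul, map_mul, map_inv, Perm.mul_apply, Perm.mul_apply]
          have h11 : (⟨μ (ρ γ (ρ (g q) x.1)), hμ _ ((hO _ _).2 h6)⟩ : Cls s b) =
              res ρ s hs b ⟨_, hδ⟩ x := Subtype.ext h10
          have h12 : (⟨μ (ρ (g q) x.1), hμ _ h6⟩ : Cls s b) = x := Subtype.ext h9
          rw [h11, h12, h8, h5] at h7
          exact h7)
        have h5 : res ρ s hs b ⟨_, hδ⟩ ⟨μ y, hμ y hy⟩ = ⟨μ y, hμ y hy⟩ := by
          rw [h4.2, Perm.one_apply]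
        have h6 := congrArg Subtype.val h5
        rw [res_apply] at h6
        simp only at h6
        rw [map_mul, map_mul, map_inv, Perm.mul_apply, Perm.mul_apply, hq, hμ'] at h6
        refine ⟨h6, ?_⟩
        rw [hqq, h4.1]
      have hγ₀ : γ ∈ Γ₀ := fun y hy => (h1 y hy).1
      refine ⟨⟨γ, hγ₀⟩, ?_, rfl⟩
      intro q
      induction q using Quotient.inductionOn with
      | h y =>
        by_cases hy : y ∈ O
        · exact (h1 y hy).2
        · have h2 := hγ y
          rw [hc2 _ (fun h => hy ((hO _ _).1 h)), hc2 _ hy] at h2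
          exact h2
    · rintro ⟨⟨γ', hγ'⟩, h1, rfl⟩ y
      change c (ρ γ' y) = c y
      have h2 : τ (Quotient.mk s (ρ γ' y)) = τ (Quotient.mk s y) := h1 (Quotient.mk s y)
      by_cases hy : y ∈ O
      · rw [hc1 _ ((hO _ _).2 hy), hc1 _ hy, h2]
        congr 1
        exact Subtype.ext (hγ' y hy)
      · rw [hc2 _ (fun h => hy ((hO _ _).1 h)), hc2 _ hy, h2]
  rw [hmain]
  exact hτ.map _ (Subgroup.subtype_injective _)

end Pool.Agent.Lib.MP_acf1dc_al
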