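import Mathlib
import Pool.Agent.Lib.MP_acf1dc_al.Marking

/-! The main induction. -/

set_option autoImplicit false

namespace Pool.Agent.Lib.MP_acf1dc_al

open Equiv

variable {Γ Ω : Type} [Group Γ]

/-- transport of the alternating group along a translate -/
lemma alt_le_translate [DecidableEq Ω] (ρ : Γ →* Perm Ω) (s : Setoid Ω) (hs : Inv ρ s)
    [∀ q, Fintype (Cls s q)] (b q : Quotient s) (γ : Γ) (hγ : quo ρ s hs γ b = q)
    (hb : alternatingGroup (Cls s b) ≤ (res ρ s hs b).range) :
    alternatingGroup (Cls s q) ≤ (res ρ s hs q).range ∧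
      Fintype.card (Cls s q) = Fintype.card (Cls s b) := by
  let e : Cls s b ≃ Cls s q := (ρ γ).subtypeEquiv (fun x => by
    rw [← quo_mk ρ s hs, ← hγ]
    exact ((quo ρ s hs γ).injective.eq_iff).symm)
  have he : ∀ x, (e x).1 = ρ γ x.1 := fun x => rfl
  refine ⟨?_, (Fintype.card_congr e).symm⟩
  intro σ hσ
  have h1 : e.symm.permCongr σ ∈ alternatingGroup (Cls s b) := by
    rw [Perm.mem_alternatingGroup, Perm.sign_permCongr]
    exact Perm.mem_alternatingGroup.1 hσ
  obtain ⟨δ, hδ⟩ := hb h1
  have h2 : γ * δ.1 * γ⁻¹ ∈ cstab ρ s hs q := by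
    rw [mem_cstab, ← hγ, map_mul, map_mul, Perm.mul_apply, Perm.mul_apply, map_inv,
      perm_inv_apply, mem_cstab.1 δ.2]
  refine ⟨⟨_, h2⟩, ?_⟩
  ext x
  rw [res_apply, map_mul, map_mul, Perm.mul_apply, Perm.mul_apply, map_inv]
  have h3 : (ρ γ)⁻¹ x.1 = (e.symm x).1 := by
    rw [Perm.inv_eq_iff_eq, ← he, e.apply_symm_apply]
  rw [h3, ← res_apply ρ s hs b δ (e.symm x), hδ, ← he]
  simp [Equiv.permCongr_apply]

/-- The main induction: if primitive groups of degree at least `k₀` not containing the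
alternating group have two types of rigid colourings, every group has a good colouring. -/
theorem main_induction {k₀ : ℕ} (hT : ∀ (B : Type) [Fintype B] [DecidableEq B]
    (R : Subgroup (Perm B)), k₀ ≤ Fintype.card B → Prim R → ¬ alternatingGroup B ≤ R →
    TwoTypes R) {k₁ g₀ : ℕ} (h01 : k₀ ≤ k₁ + 1) (h5 : 4 ≤ k₁) (hg : k₁.factorial < g₀)
    (h3 : 3 ≤ g₀) (N : ℕ) :
    ∀ (Ω : Type) [Finite Ω], Nat.card Ω ≤ N → ∀ (Γ : Type) [Group Γ] (ρ : Γ →* Perm Ω),
      GoodSub g₀ ρ.ker → ∃ c, GoodSub g₀ (stab ρ c) := by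
  classical
  induction N with
  | zero =>
    intro Ω _ hΩ Γ _ ρ hk
    haveI : IsEmpty Ω := by
      rcases Nat.card_eq_zero.1 (Nat.le_zero.1 hΩ) with h | h
      · exact h
      · exact absurd ‹Finite Ω› h.not_finite
    refine ⟨fun _ => true, ?_⟩
    have : stab ρ (fun _ => true) = ρ.ker := by
      ext γ
      rw [mem_stab, MonoidHom.mem_ker]
      exact ⟨fun _ => Subsingleton.elim _ _, fun _ x => rfl⟩
    rw [this]
    exact hk
  | succ N ih =>
    intro Ω _ hΩ Γ _ ρ hk
    rcases subsingleton_or_nontrivial Ω with hsub | hnt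
    · refine ⟨fun _ => true, ?_⟩
      have : stab ρ (fun _ => true) = ρ.ker := by
        ext γ
        rw [mem_stab, MonoidHom.mem_ker]
        exact ⟨fun _ => Subsingleton.elim _ _, fun _ x => rfl⟩
      rw [this]
      exact hk
    obtain ⟨s, hs, hne, hmin⟩ := exists_min_setoid ρ
    obtain ⟨x₀, y₀, h0, hne0⟩ : ∃ x₀ y₀, s x₀ y₀ ∧ x₀ ≠ y₀ := by
      by_contra hcon
      push Not at hcon
      apply hne
      ext x y
      exact ⟨fun h => hcon x y h, fun h => by
        have : x = y := h
        rw [this]⟩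
    have hcard : Nat.card (Quotient s) ≤ N := by
      have h1 : Function.Surjective (Quotient.mk s) := Quotient.mk_surjective
      have h2 := Nat.card_le_card_of_surjective _ h1
      rcases h2.lt_or_eq with h | h
      · omega
      · exfalso
        have h3 : Function.Bijective (Quotient.mk s) :=
          (Nat.bijective_iff_surjective_and_card _).2 ⟨h1, h.symm⟩
        exact hne0 (h3.1 (Quotient.sound h0))
    haveI : ∀ q, Fintype (Cls s q) := fun q => Fintype.ofFinite _
    set b := Quotient.mk s x₀ with hb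
    have htr : ∀ x y, s x y → x ≠ y → ∃ γ, quo ρ s hs γ b = Quotient.mk s x :=
      fun x y h h' => exists_translate hs hmin h0 hne0 h h'
    -- classes are singletons or translates
    have hcls : ∀ q, Fintype.card (Cls s q) ≤ 1 ∨ ∃ γ, quo ρ s hs γ b = q := by
      intro q
      by_cases hq : Fintype.card (Cls s q) ≤ 1
      · exact Or.inl hq
      · right
        rw [not_le, Fintype.one_lt_card_iff] at hq
        obtain ⟨x, y, hxy⟩ := hq
        have h1 : s x.1 y.1 := Quotient.exact (x.2.trans y.2.symm)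
        obtain ⟨γ, hγ⟩ := htr x.1 y.1 h1 (fun h => hxy (Subtype.ext h))
        exact ⟨γ, hγ.trans x.2⟩
    by_cases hA : Fintype.card (Cls s b) ≤ k₁ ∨
        alternatingGroup (Cls s b) ≤ (res ρ s hs b).range
    · -- easy case
      have hgood : GoodSub g₀ (quo ρ s hs).ker := by
        refine good_ker_quo hg h3 ρ s hs hk fun q => ?_
        rcases hcls q with h | ⟨γ, hγ⟩
        · left; omega
        · have hcq : Fintype.card (Cls s q) = Fintype.card (Cls s b) := by
            let e : Cls s b ≃ Cls s q := (ρ γ).subtypeEquiv (fun x => by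
              rw [← quo_mk ρ s hs, ← hγ]
              exact ((quo ρ s hs γ).injective.eq_iff).symm)
            exact (Fintype.card_congr e).symm
          by_cases hk1 : Fintype.card (Cls s b) ≤ k₁
          · left; omega
          · right
            rcases hA with hA | hA
            · exact absurd hA hk1
            · exact ⟨by omega, (alt_le_translate ρ s hs b q γ hγ hA).1⟩
      obtain ⟨c, hc⟩ := ih (Quotient s) hcard Γ (quo ρ s hs) hgood
      refine ⟨fun x => c (Quotient.mk s x), ?_⟩
      have : stab ρ (fun x => c (Quotient.mk s x)) = stab (quo ρ s hs) c := by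
        ext γ
        rw [mem_stab, mem_stab]
        constructor
        · intro h q
          induction q using Quotient.inductionOn with
          | h x => exact h x
        · intro h x
          exact h (Quotient.mk s x)
      rw [this]
      exact hc
    · push Not at hA
      refine good_of_twoTypes ρ s hs b htr ?_ (fun Γ' _ ρ' h => ih (Quotient s) hcard Γ' ρ' h) hk
      exact hT _ _ (by omega) (prim_res hs hmin b) hA.2

/-- The statement of the problem from the threshold theorem. -/
theorem final_of_threshold (hT : ∃ k₀ : ℕ, ∀ (B : Type) [Fintype B] [DecidableEq B]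
    (R : Subgroup (Perm B)), k₀ ≤ Fintype.card B → Prim R → ¬ alternatingGroup B ≤ R →
    TwoTypes R) :
    ∃ g₀ : ℕ, ∀ (n : ℕ) (G : Subgroup (Equiv.Perm (Fin n))),
      ∃ c : Fin n → Bool, ∃ k : ℕ, ∃ f : ℕ → Subgroup (Equiv.Perm (Fin n)),
        (∀ g : Equiv.Perm (Fin n), g ∈ f 0 ↔ (g ∈ G ∧ ∀ x : Fin n, c (g x) = c x)) ∧
        f k = ⊥ ∧
        ∀ i < k, f (i + 1) ≤ f i ∧ ((f (i + 1)).subgroupOf (f i)).Normal ∧
          (((f (i + 1)).subgroupOf (f i)).index < g₀ ∨
            ∃ m : ℕ, ∃ φ : ↥(f i) →* ↥(alternatingGroup (Fin m)),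
              Function.Surjective φ ∧ φ.ker = (f (i + 1)).subgroupOf (f i)) := by
  obtain ⟨k₀, hT⟩ := hT
  refine ⟨(k₀ + 4).factorial + 3, fun n G => ?_⟩
  obtain ⟨c, hc⟩ := main_induction hT (k₁ := k₀ + 4) (g₀ := (k₀ + 4).factorial + 3)
    (by omega) (by omega) (by omega) (by omega) n (Fin n) (by simp) ↥G G.subtype
    (by rw [Subgroup.ker_subtype]; exact GoodSub.bot)
  obtain ⟨k, f, h0, hk, hf⟩ := (hc.map G.subtype (Subgroup.subtype_injective G)).series
  refine ⟨c, k, f, ?_, hk, hf⟩
  intro g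
  rw [h0]
  constructor
  · rintro ⟨⟨g', hg'⟩, h, rfl⟩
    exact ⟨hg', h⟩
  · rintro ⟨hg, h⟩
    exact ⟨⟨g, hg⟩, h, rfl⟩

end Pool.Agent.Lib.MP_acf1dc_al
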