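import Mathlib
import Pool.Agent.Lib.MP_acf1dc_al.Defs

/-! Minimal degree of two-transitive groups not containing the alternating group. -/

set_option autoImplicit false

namespace Pool.Agent.Lib.MP_acf1dc_al

open Equiv Finset

section
variable {Ω : Type} [Fintype Ω] [DecidableEq Ω]

open Classical in
/-- elements of `G` as a finset -/
noncomputable def mindeg_S (G : Subgroup (Perm Ω)) : Finset (Perm Ω) := univ.filter fun g => g ∈ G

lemma mindeg_ia (f : Perm Ω) (x : Ω) : f⁻¹ (f x) = x := by simp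

lemma mindeg_ai (f : Perm Ω) (x : Ω) : f (f⁻¹ x) = x := by simp

lemma mindeg_swap {ι κ : Type*} (S : Finset ι) (T : Finset κ) (P : ι → κ → Prop)
    [∀ i j, Decidable (P i j)] :
    ∑ i ∈ S, (T.filter fun j => P i j).card = ∑ j ∈ T, (S.filter fun i => P i j).card := by
  simp_rw [card_filter]
  exact sum_comm

lemma mindeg_mem_S {G : Subgroup (Perm Ω)} {g : Perm Ω} : g ∈ mindeg_S G ↔ g ∈ G := by
  classical
  simp [mindeg_S]

/-- number of elements with two prescribed values -/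
noncomputable def mindeg_K (G : Subgroup (Perm Ω)) (c d a b : Ω) : ℕ :=
  ((mindeg_S G).filter fun g => g c = a ∧ g d = b).card

lemma mindeg_K_eq {G : Subgroup (Perm Ω)} (h2 : TwoTrans G) {c₀ d₀ c d a b : Ω} (h0 : c₀ ≠ d₀)
    (hcd : c ≠ d) (hab : a ≠ b) : mindeg_K G c d a b = mindeg_K G c₀ d₀ c₀ d₀ := by
  obtain ⟨u, hu, hu1, hu2⟩ := h2 c₀ d₀ c d h0 hcd
  obtain ⟨v, hv, hv1, hv2⟩ := h2 c₀ d₀ a b h0 hab
  unfold mindeg_K
  refine Finset.card_bij' (fun g _ => v⁻¹ * g * u) (fun g _ => v * g * u⁻¹) ?_ ?_ ?_ ?_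
  · intro g hg
    rw [mem_filter, mindeg_mem_S] at hg ⊢
    refine ⟨G.mul_mem (G.mul_mem (G.inv_mem hv) hg.1) hu, ?_, ?_⟩
    · simp only [Perm.mul_apply, hu1, hg.2.1]
      rw [← hv1, mindeg_ia]
    · simp only [Perm.mul_apply, hu2, hg.2.2]
      rw [← hv2, mindeg_ia]
  · intro g hg
    rw [mem_filter, mindeg_mem_S] at hg ⊢
    refine ⟨G.mul_mem (G.mul_mem hv hg.1) (G.inv_mem hu), ?_, ?_⟩
    · simp only [Perm.mul_apply]
      rw [← hu1, mindeg_ia, hg.2.1, hv1]
    · simp only [Perm.mul_apply]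
      rw [← hu2, mindeg_ia, hg.2.2, hv2]
  · intro g _; group
  · intro g _; group

lemma mindeg_count {G : Subgroup (Perm Ω)} (h2 : TwoTrans G) {c₀ d₀ a b : Ω} (h0 : c₀ ≠ d₀)
    (hab : a ≠ b) (T : Finset (Ω × Ω)) (hT : ∀ p ∈ T, p.1 ≠ p.2) :
    ((mindeg_S G).filter fun g => ((g⁻¹ a, g⁻¹ b) : Ω × Ω) ∈ T).card =
      T.card * mindeg_K G c₀ d₀ c₀ d₀ := by
  rw [Finset.card_eq_sum_card_fiberwise (f := fun g : Perm Ω => ((g⁻¹ a, g⁻¹ b) : Ω × Ω)) (t := T)]
  · rw [Finset.sum_const_nat (m := mindeg_K G c₀ d₀ c₀ d₀)]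
    intro p hp
    rw [← mindeg_K_eq h2 h0 (hT p hp) hab, mindeg_K]
    congr 1
    ext g
    simp only [mem_filter]
    constructor
    · rintro ⟨⟨hg, _⟩, he⟩
      refine ⟨hg, ?_, ?_⟩
      · rw [← he]; simp
      · rw [← he]; simp
    · rintro ⟨hg, h1, h2'⟩
      have e : ((g⁻¹ a, g⁻¹ b) : Ω × Ω) = p := by
        rw [← h1, ← h2']; simp
      exact ⟨⟨hg, e ▸ hp⟩, e⟩
  · intro g hg
    exact (mem_filter.1 hg).2

/-- commutator estimate -/
lemma mindeg_comm {G : Subgroup (Perm Ω)} {x g : Perm Ω} (hx : x ∈ G) (hg : g ∈ G)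
    (hmin : ∀ y ∈ G, y ≠ 1 → x.support.card ≤ y.support.card)
    {a : Ω} (ha : a ∈ x.support) (ha1 : g⁻¹ a ∈ x.support) (ha2 : g⁻¹ (x a) ∉ x.support) :
    x.support.card ≤ 3 * (x.support.filter fun a => g⁻¹ a ∈ x.support).card := by
  set y : Perm Ω := g * x * g⁻¹ with hy
  have hyG : y ∈ G := G.mul_mem (G.mul_mem hg hx) (G.inv_mem hg)
  have hysupp : ∀ z, y z ≠ z ↔ g⁻¹ z ∈ x.support := by
    intro z
    rw [Perm.mem_support, hy]
    simp only [Perm.mul_apply]
    rw [not_iff_not]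
    constructor
    · intro h
      apply g.injective
      rw [h]; simp
    · intro h
      rw [h]; simp
  set c : Perm Ω := x * y * x⁻¹ * y⁻¹ with hc
  have hcG : c ∈ G := G.mul_mem (G.mul_mem (G.mul_mem hx hyG) (G.inv_mem hx)) (G.inv_mem hyG)
  have hc1 : c ≠ 1 := by
    intro h
    have e : x * y = y * x := by
      have : x * y * x⁻¹ * y⁻¹ * (y * x) = 1 * (y * x) := by rw [← hc, h]
      rw [one_mul] at this
      rw [← this]
      group
    have e1 : x (y a) = y (x a) := by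
      have := congrArg (fun p : Perm Ω => p a) e
      simpa using this
    have e2 : y (x a) = x a := by
      by_contra h3
      exact ha2 ((hysupp _).1 h3)
    rw [e2] at e1
    exact (hysupp a).2 ha1 (x.injective e1)
  set Δ : Finset Ω := x.support.filter fun a => g⁻¹ a ∈ x.support with hΔ
  have hmemΔ : ∀ z, z ∈ Δ ↔ x z ≠ z ∧ y z ≠ z := by
    intro z
    rw [hΔ, mem_filter, hysupp, Perm.mem_support]
  have hsub : c.support ⊆ Δ ∪ Δ.image x ∪ Δ.image y := by
    intro z hz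
    by_contra hcon
    simp only [mem_union, not_or, mem_image, not_exists, not_and] at hcon
    obtain ⟨⟨h1, h2⟩, h3⟩ := hcon
    rw [Perm.mem_support] at hz
    apply hz
    rw [hc]
    simp only [Perm.mul_apply]
    by_cases hxz : x z = z
    · by_cases hyz : y z = z
      · have e1 : y⁻¹ z = z := by rw [Perm.inv_eq_iff_eq]; exact hyz.symm
        have e2 : x⁻¹ z = z := by rw [Perm.inv_eq_iff_eq]; exact hxz.symm
        rw [e1, e2, hyz, hxz]
      · -- `z` moved by `y` only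
        have hw : y (y⁻¹ z) ≠ y⁻¹ z := by
          rw [mindeg_ai]
          intro h
          apply hyz
          nth_rewrite 1 [h]
          rw [mindeg_ai]
        have hxw : x (y⁻¹ z) = y⁻¹ z := by
          by_contra h
          exact h3 _ ((hmemΔ _).2 ⟨h, hw⟩) (by simp)
        have e2 : x⁻¹ (y⁻¹ z) = y⁻¹ z := by rw [Perm.inv_eq_iff_eq]; exact hxw.symm
        rw [e2, mindeg_ai, hxz]
    · have hyz : y z = z := by
        by_contra h
        exact h1 ((hmemΔ _).2 ⟨hxz, h⟩)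
      have e1 : y⁻¹ z = z := by rw [Perm.inv_eq_iff_eq]; exact hyz.symm
      have hw : x (x⁻¹ z) ≠ x⁻¹ z := by
        rw [mindeg_ai]
        intro h
        apply hxz
        nth_rewrite 1 [h]
        rw [mindeg_ai]
      have hyw : y (x⁻¹ z) = x⁻¹ z := by
        by_contra h
        exact h2 _ ((hmemΔ _).2 ⟨hw, h⟩) (by simp)
      rw [e1, hyw, mindeg_ai]
  calc x.support.card ≤ c.support.card := hmin c hcG hc1
    _ ≤ (Δ ∪ Δ.image x ∪ Δ.image y).card := card_le_card hsub
    _ ≤ Δ.card + (Δ.image x).card + (Δ.image y).card := by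
        refine (card_union_le _ _).trans ?_
        have := card_union_le Δ (Δ.image x)
        omega
    _ ≤ 3 * Δ.card := by
        have h1 : (Δ.image x).card ≤ Δ.card := card_image_le
        have h2 : (Δ.image y).card ≤ Δ.card := card_image_le
        omega

lemma mindeg_pointwise {G : Subgroup (Perm Ω)} {x g : Perm Ω} (hx : x ∈ G) (hg : g ∈ G)
    (hmin : ∀ y ∈ G, y ≠ 1 → x.support.card ≤ y.support.card) :
    x.support.card * (x.support.filter fun a => g⁻¹ a ∈ x.support ∧ g⁻¹ (x a) ∉ x.support).card ≤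
      3 * (x.support.filter fun a => g⁻¹ a ∈ x.support).card ^ 2 := by
  set N := x.support.filter fun a => g⁻¹ a ∈ x.support ∧ g⁻¹ (x a) ∉ x.support with hN
  set A := x.support.filter fun a => g⁻¹ a ∈ x.support with hA
  have hNA : N.card ≤ A.card := by
    apply card_le_card
    intro a ha
    rw [hN, mem_filter] at ha
    rw [hA, mem_filter]
    exact ⟨ha.1, ha.2.1⟩
  rcases N.eq_empty_or_nonempty with h | ⟨a, ha⟩
  · rw [h]; simp
  · rw [hN, mem_filter] at ha
    have := mindeg_comm hx hg hmin ha.1 ha.2.1 ha.2.2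
    rw [← hA] at this
    calc x.support.card * N.card ≤ (3 * A.card) * A.card := Nat.mul_le_mul this hNA
      _ = 3 * A.card ^ 2 := by ring

end

theorem min_degree {Ω : Type} [Fintype Ω] [DecidableEq Ω] (G : Subgroup (Perm Ω))
    (h2 : TwoTrans G) (halt : ¬ alternatingGroup Ω ≤ G) (hn : 64 < Fintype.card Ω)
    {g : Perm Ω} (hg : g ∈ G) (h1 : g ≠ 1) : Fintype.card Ω ≤ 8 * g.support.card := by
  classical
  -- minimal element
  obtain ⟨x, hxm, hmin'⟩ := Finset.exists_min_image ((mindeg_S G).filter fun g => g ≠ 1)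
    (fun g => g.support.card) ⟨g, by rw [mem_filter, mindeg_mem_S]; exact ⟨hg, h1⟩⟩
  rw [mem_filter, mindeg_mem_S] at hxm
  have hmin : ∀ y ∈ G, y ≠ 1 → x.support.card ≤ y.support.card := fun y hy hy1 =>
    hmin' y (by rw [mem_filter, mindeg_mem_S]; exact ⟨hy, hy1⟩)
  obtain ⟨hx, hx1⟩ := hxm
  suffices h : Fintype.card Ω ≤ 8 * x.support.card from
    h.trans (Nat.mul_le_mul_left 8 (hmin g hg h1))
  set m := x.support.card with hm
  set n := Fintype.card Ω with hn'
  have hprim : MulAction.IsPreprimitive G Ω := by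
    apply MulAction.isPreprimitive_of_is_two_pretransitive
    rw [MulAction.is_two_pretransitive_iff]
    intro a b c d hab hcd
    obtain ⟨g, hg, h3, h4⟩ := h2 a b c d hab hcd
    exact ⟨⟨g, hg⟩, h3, h4⟩
  have hm2 : 2 ≤ m := Perm.two_le_card_support_of_ne_one hx1
  have hmne2 : m ≠ 2 := by
    intro h
    have hsw : x.IsSwap := Perm.card_support_eq_two.1 (hm ▸ h)
    have := Perm.subgroup_eq_top_of_isPreprimitive_of_isSwap_mem hprim x hsw hx
    exact halt (this ▸ le_top)
  have hmne3 : m ≠ 3 := by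
    intro h
    have h3 : x.IsThreeCycle := card_support_eq_three_iff.1 (hm ▸ h)
    exact halt (Perm.alternatingGroup_le_of_isPreprimitive_of_isThreeCycle_mem hprim h3 hx)
  have hm4 : 4 ≤ m := by omega
  have hmn : m ≤ n := card_le_univ _
  -- reference pair
  obtain ⟨c₀, d₀, h0⟩ : ∃ c d : Ω, c ≠ d := by
    have : Nontrivial Ω := Fintype.one_lt_card_iff_nontrivial.1 (by omega)
    exact exists_pair_ne Ω
  set κ := mindeg_K G c₀ d₀ c₀ d₀ with hκ
  have hκpos : 0 < κ := by
    rw [hκ, mindeg_K, card_pos]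
    exact ⟨1, by rw [mem_filter, mindeg_mem_S]; exact ⟨G.one_mem, rfl, rfl⟩⟩
  set Γ := x.support with hΓ
  have hΓc : (Γᶜ).card = n - m := by rw [card_compl]
  -- left sum
  have hL : ∑ g ∈ mindeg_S G, (Γ.filter fun a => g⁻¹ a ∈ Γ ∧ g⁻¹ (x a) ∉ Γ).card
      = m * ((m * (n - m)) * κ) := by
    rw [mindeg_swap (mindeg_S G) Γ (fun g a => g⁻¹ a ∈ Γ ∧ g⁻¹ (x a) ∉ Γ)]
    rw [Finset.sum_const_nat (m := (m * (n - m)) * κ)]
    intro a ha
    have hax : a ≠ x a := (Perm.mem_support.1 ha).symm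
    have := mindeg_count h2 h0 hax (Γ ×ˢ Γᶜ) (by
      rintro ⟨c, d⟩ hp
      rw [mem_product, mem_compl] at hp
      exact fun h => hp.2 (h ▸ hp.1))
    rw [card_product, hΓc] at this
    rw [← hκ, ← hm] at this
    rw [← this]
    congr 1
    ext g
    simp only [mem_filter, mem_product, mem_compl]
  -- right sum
  have hR : ∑ g ∈ mindeg_S G, (Γ.filter fun a => g⁻¹ a ∈ Γ).card ^ 2
      = m * ((m * (n - 1)) * κ) + (m * m - m) * ((m * m - m) * κ) := by
    have e1 : ∀ g : Perm Ω, (Γ.filter fun a => g⁻¹ a ∈ Γ).card ^ 2 =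
        ((Γ ×ˢ Γ).filter fun p => g⁻¹ p.1 ∈ Γ ∧ g⁻¹ p.2 ∈ Γ).card := by
      intro g
      rw [sq, ← card_product]
      congr 1
      ext ⟨a, b⟩
      simp only [mem_filter, mem_product]
      tauto
    rw [Finset.sum_congr rfl fun g _ => e1 g,
      mindeg_swap (mindeg_S G) (Γ ×ˢ Γ) (fun g p => g⁻¹ p.1 ∈ Γ ∧ g⁻¹ p.2 ∈ Γ),
      ← Finset.diag_union_offDiag, sum_union (disjoint_diag_offDiag Γ)]
    congr 1
    · rw [Finset.sum_const_nat (m := (m * (n - 1)) * κ), diag_card]
      rintro ⟨a, b⟩ hab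
      rw [mem_diag] at hab
      obtain ⟨ha, rfl⟩ : a ∈ Γ ∧ a = b := hab
      have hax : a ≠ x a := (Perm.mem_support.1 ha).symm
      have := mindeg_count h2 h0 hax (Γ.sigma (fun c => univ.erase c) |>.image fun p => (p.1, p.2))
        (by
          rintro ⟨c, d⟩ hp
          simp only [mem_image, mem_sigma, mem_erase] at hp
          obtain ⟨⟨c', d'⟩, ⟨_, h, _⟩, h3⟩ := hp
          simp only [Prod.mk.injEq] at h3
          obtain ⟨rfl, rfl⟩ := h3
          exact h.symm)
      rw [card_image_of_injective _ (by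
        rintro ⟨c, d⟩ ⟨c', d'⟩ h
        simp only [Prod.mk.injEq] at h
        obtain ⟨rfl, rfl⟩ := h
        rfl), card_sigma, Finset.sum_const_nat (m := n - 1) (fun c _ => by
          rw [card_erase_of_mem (mem_univ c), card_univ])] at this
      rw [← hκ, ← hm] at this
      rw [← this]
      congr 1
      ext g
      simp only [mem_filter, mem_image, mem_sigma, mem_erase, mem_univ, and_true, Prod.mk.injEq]
      constructor
      · rintro ⟨hg, h, _⟩
        exact ⟨hg, ⟨g⁻¹ a, g⁻¹ (x a)⟩, ⟨h, fun he => hax (g⁻¹.injective he).symm⟩, rfl, rfl⟩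
      · rintro ⟨hg, ⟨c, d⟩, ⟨h, _⟩, he, _⟩
        have h' : g⁻¹ a ∈ Γ := he ▸ h
        exact ⟨hg, h', h'⟩
    · rw [Finset.sum_const_nat (m := (m * m - m) * κ), offDiag_card]
      rintro ⟨a, b⟩ hab
      rw [mem_offDiag] at hab
      have := mindeg_count h2 h0 hab.2.2 Γ.offDiag (by
        rintro ⟨c, d⟩ hp
        exact (mem_offDiag.1 hp).2.2)
      rw [offDiag_card, ← hκ, ← hm] at this
      rw [← this]
      congr 1
      ext g
      simp only [mem_filter, mem_offDiag]
      constructor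
      · rintro ⟨hg, h3, h4⟩
        exact ⟨hg, h3, h4, fun he => hab.2.2 (g⁻¹.injective he)⟩
      · rintro ⟨hg, h3, h4, _⟩
        exact ⟨hg, h3, h4⟩
  have hmain : m * (m * ((m * (n - m)) * κ)) ≤
      3 * (m * ((m * (n - 1)) * κ) + (m * m - m) * ((m * m - m) * κ)) := by
    rw [← hL, ← hR, mul_sum, mul_sum]
    refine sum_le_sum fun g hg => ?_
    exact mindeg_pointwise hx (mindeg_mem_S.1 hg) hmin
  have h3 : m * (n - m) ≤ 3 * ((n - 1) + (m - 1) * (m - 1)) := by
    have e : m * m - m = m * (m - 1) := by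
      rw [Nat.mul_sub, mul_one]
    rw [e] at hmain
    have h4 : (m * m * κ) * (m * (n - m)) ≤ (m * m * κ) * (3 * ((n - 1) + (m - 1) * (m - 1))) := by
      calc (m * m * κ) * (m * (n - m)) = m * (m * ((m * (n - m)) * κ)) := by ring
        _ ≤ _ := hmain
        _ = _ := by ring
    exact Nat.le_of_mul_le_mul_left h4 (by positivity)
  by_contra hcon
  push Not at hcon
  obtain ⟨k, hk⟩ : ∃ k, n = m + k := Nat.exists_eq_add_of_le hmn
  obtain ⟨j, hj⟩ : ∃ j, m = j + 4 := Nat.exists_eq_add_of_le' hm4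
  have e1 : n - m = k := by omega
  have e2 : n - 1 = j + 3 + k := by omega
  have e3 : m - 1 = j + 3 := by omega
  rw [e1, e2, e3, hj] at h3
  have h5 : 8 * (j + 4) < j + 4 + k := by rw [← hj, ← hk]; exact hcon
  have h6 : 64 < j + 4 + k := by rw [← hj, ← hk]; exact hn
  nlinarith

end Pool.Agent.Lib.MP_acf1dc_al
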