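import Mathlib
import Pool.Agent.Lib.MP_acf1dc_al.Defs

/-!
# JOB E2. Enough small odd primes
-/

set_option autoImplicit false

namespace Pool.Agent.Lib.MP_acf1dc_al

open Finset Filter

theorem primes_counting : ∃ L₀ : ℕ, ∀ L : ℕ, L₀ ≤ L → 8 * L + 2 ≤ Nat.primeCounting (L ^ 2) := by
  have h1 := (Real.isLittleO_log_id_atTop.bound (show (0 : ℝ) < 1 / 100 by norm_num))
  obtain ⟨A, hA⟩ := eventually_atTop.mp h1
  refine ⟨max ⌈A⌉₊ 100, fun L hL => ?_⟩
  have hLA : A ≤ (L : ℝ) := (Nat.le_ceil A).trans (by exact_mod_cast (le_max_left _ _).trans hL)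
  have hL100 : 100 ≤ L := (le_max_right _ _).trans hL
  have hLr : (100 : ℝ) ≤ L := by exact_mod_cast hL100
  have h2 := hA L hLA
  have hlogpos : 0 < Real.log L := Real.log_pos (by linarith)
  rw [Real.norm_of_nonneg hlogpos.le, id, Real.norm_of_nonneg (by linarith)] at h2
  have h3 := Chebyshev.pi_ge (L ^ 2)
  have h4 : Real.log ((L ^ 2 : ℕ) : ℝ) = 2 * Real.log L := by
    push_cast
    rw [Real.log_pow]
    norm_num
  rw [h4] at h3
  have h5 : Real.log (((L ^ 2 : ℕ) : ℝ) + 1) ≤ Real.log 2 + 2 * Real.log L := by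
    rw [← h4, ← Real.log_mul (by norm_num) (by positivity)]
    apply Real.log_le_log (by positivity)
    push_cast
    nlinarith
  have hl2 : 0.6931471803 < Real.log 2 := Real.log_two_gt_d9
  have hl2' : Real.log 2 < 0.6931471808 := Real.log_two_lt_d9
  have h6 : (8 * (L : ℝ) + 2) ≤ ((L ^ 2 : ℕ) * Real.log 2 - Real.log (((L ^ 2 : ℕ) : ℝ) + 1)) /
      (2 * Real.log L) := by
    rw [le_div_iff₀ (by positivity)]
    push_cast at h5 ⊢
    have h7 : (8 * (L : ℝ) + 2) * (2 * Real.log L) ≤ (8 * (L : ℝ) + 2) * (2 * (1 / 100 * L)) :=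
      mul_le_mul_of_nonneg_left (by linarith) (by positivity)
    nlinarith
  have h8 := h6.trans h3
  exact_mod_cast h8

theorem exists_primes : ∃ n₀ : ℕ, ∀ n : ℕ, n₀ ≤ n → ∃ P : Finset ℕ,
    (∀ p ∈ P, p.Prime ∧ Odd p) ∧ 8 * Nat.log 2 n < P.card ∧ ∑ p ∈ P, p ≤ Nat.log 2 n ^ 4 := by
  obtain ⟨L₀, hL₀⟩ := primes_counting
  refine ⟨2 ^ (max L₀ 100), fun n hn => ?_⟩
  set L := Nat.log 2 n with hL
  have hn0 : n ≠ 0 := by
    have : 0 < 2 ^ (max L₀ 100) := by positivity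
    omega
  have hLb : max L₀ 100 ≤ L := (Nat.le_log_iff_pow_le (by norm_num) hn0).mpr hn
  have h1 := hL₀ L ((le_max_left _ _).trans hLb)
  have h100 : 100 ≤ L := (le_max_right _ _).trans hLb
  have h2 : 8 * L + 1 ≤ ((Nat.primesLE (L ^ 2)).erase 2).card := by
    have h3 : (Nat.primesLE (L ^ 2)).card = Nat.primeCounting (L ^ 2) := by
      simp
    have h4 := Finset.pred_card_le_card_erase (s := Nat.primesLE (L ^ 2)) (a := 2)
    omega
  obtain ⟨P, hP, hPc⟩ := Finset.exists_subset_card_eq h2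
  refine ⟨P, ?_, by omega, ?_⟩
  · intro p hp
    have h5 := hP hp
    rw [Finset.mem_erase, Nat.mem_primesLE] at h5
    exact ⟨h5.2.2, h5.2.2.odd_of_ne_two h5.1⟩
  · have h6 : ∑ p ∈ P, p ≤ ∑ _p ∈ P, L ^ 2 := by
      refine Finset.sum_le_sum fun p hp => ?_
      have h5 := hP hp
      rw [Finset.mem_erase, Nat.mem_primesLE] at h5
      exact h5.2.1
    rw [Finset.sum_const, hPc, smul_eq_mul] at h6
    refine h6.trans ?_
    have h7 : 8 * L + 1 ≤ L ^ 2 := by nlinarith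
    calc (8 * L + 1) * L ^ 2 ≤ L ^ 2 * L ^ 2 := Nat.mul_le_mul_right _ h7
      _ = L ^ 4 := by ring

end Pool.Agent.Lib.MP_acf1dc_al
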