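import Mathlib
import Pool.Agent.Lib.MP_acf1dc_al.Defs
import Pool.Agent.Lib.MP_acf1dc_al.MinDegree
import Pool.Agent.Lib.MP_acf1dc_al.Cycles
import Pool.Agent.Lib.MP_acf1dc_al.Primes

set_option autoImplicit false

namespace Pool.Agent.Lib.MP_acf1dc_al

open Equiv Finset

theorem noBigAlt : ∃ n₀ : ℕ, ∀ (Ω : Type) [Fintype Ω] [DecidableEq Ω]
    (G : Subgroup (Perm Ω)), n₀ ≤ Fintype.card Ω → TwoTrans G → ¬ alternatingGroup Ω ≤ G →
    ∀ H : Subgroup (Perm Ω), H ≤ G → NoBigAlt (Nat.log 2 (Fintype.card Ω) ^ 4) H := by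
  obtain ⟨n₀, h₀⟩ := exists_primes
  refine ⟨n₀ + 65, fun Ω _ _ G hn h2 halt H hH => ?_⟩
  obtain ⟨P, hP1, hP2, hP3⟩ := h₀ (Fintype.card Ω) (by omega)
  exact noBigAlt_of_minDegree G (by omega)
    (fun g hg h1 => min_degree G h2 halt (by omega) hg h1) P hP1 hP2 hP3 H hH

end Pool.Agent.Lib.MP_acf1dc_al
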