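import Mathlib
import Pool.Agent.Lib.MP_acf1dc_al.Defs

set_option autoImplicit false

namespace Pool.Agent.Lib.MP_acf1dc_al

open Equiv Finset

section Part

variable {Ω : Type} [Fintype Ω] [DecidableEq Ω]

theorem partition_mem_sep (G : Subgroup (Perm Ω)) (x y z : Ω) :
    z ∈ sep G x y ↔ ∀ g ∈ G, g z = z → g x ≠ y := by
  classical
  simp [sep]

/-- two elements of `G` which agree on a set meeting all the sets `sep x y` are equal -/
theorem partition_eq_of_eqOn (G : Subgroup (Perm Ω)) (Z : Set Ω)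
    (hZ : ∀ x y, x ≠ y → ∃ z ∈ Z, z ∈ sep G x y) {g g' : Perm Ω} (hg : g ∈ G) (hg' : g' ∈ G)
    (h : ∀ z ∈ Z, g z = g' z) : g = g' := by
  by_contra hne
  obtain ⟨x, hx⟩ : ∃ x, g x ≠ g' x := by
    by_contra hcon
    push Not at hcon
    exact hne (Equiv.ext hcon)
  have hx' : x ≠ (g⁻¹ * g') x := by
    intro he
    apply hx
    have := congrArg g he
    simpa using this
  obtain ⟨z, hz, hs⟩ := hZ _ _ hx'
  rw [partition_mem_sep] at hs
  refine hs (g⁻¹ * g') (G.mul_mem (G.inv_mem hg) hg') ?_ rfl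
  rw [Perm.mul_apply, ← h z hz]
  simp

theorem partition_sep_subset (G : Subgroup (Perm Ω)) {g : Perm Ω} (hg : g ∈ G) (x : Ω) :
    sep G x (g x) ⊆ g.support := by
  intro z hz
  rw [partition_mem_sep] at hz
  rw [Perm.mem_support]
  intro h
  exact hz g hg h rfl

theorem partition_le_support (G : Subgroup (Perm Ω)) {d : ℕ}
    (hd : ∀ x y, x ≠ y → d ≤ (sep G x y).card) {g : Perm Ω} (hg : g ∈ G) (h1 : g ≠ 1) :
    d ≤ g.support.card := by
  obtain ⟨x, hx⟩ : ∃ x, g x ≠ x := by
    by_contra hcon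
    push Not at hcon
    exact h1 (Equiv.ext hcon)
  exact (hd x (g x) hx.symm).trans (Finset.card_le_card (partition_sep_subset G hg x))

/-- the number of functions missing a value on a set of size `≥ d` -/
theorem partition_card_miss {t d : ℕ} (S : Finset Ω) (hS : d ≤ S.card) (j : Fin t) :
    (univ.filter fun f : Ω → Fin t => ∀ z ∈ S, f z ≠ j).card ≤
      (t - 1) ^ d * t ^ (Fintype.card Ω - d) := by
  classical
  obtain ⟨S', hS', hcard⟩ := Finset.exists_subset_card_eq hS
  have hsub : (univ.filter fun f : Ω → Fin t => ∀ z ∈ S, f z ≠ j) ⊆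
      Fintype.piFinset (fun z : Ω => if z ∈ S' then (univ.erase j : Finset (Fin t)) else univ) := by
    intro f hf
    rw [Finset.mem_filter] at hf
    rw [Fintype.mem_piFinset]
    intro z
    by_cases hz : z ∈ S'
    · simp [hz, hf.2 z (hS' hz)]
    · simp [hz]
  refine (Finset.card_le_card hsub).trans ?_
  rw [Fintype.card_piFinset]
  have : ∀ z : Ω, (if z ∈ S' then (univ.erase j : Finset (Fin t)) else univ).card =
      if z ∈ S' then (t - 1) else t := by
    intro z
    split_ifs
    · rw [Finset.card_erase_of_mem (Finset.mem_univ _)]; simp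
    · simp
  rw [Finset.prod_congr rfl fun z _ => this z, Finset.prod_ite, Finset.prod_const,
    Finset.prod_const]
  have e1 : (univ.filter fun z => z ∈ S').card = d := by
    rw [← hcard]; congr 1; ext z; simp
  have e2 : (univ.filter fun z => z ∉ S').card = Fintype.card Ω - d := by
    rw [← hcard, ← Finset.card_compl]; congr 1; ext z; simp
  rw [e1, e2]

/-- a partition into `t` classes, each of which meets all the sets of a family -/
theorem partition_exists {ι : Type} [Fintype ι] (S : ι → Finset Ω) {t d : ℕ}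
    (ht : 0 < t) (hd : ∀ i, d ≤ (S i).card) (hdn : d ≤ Fintype.card Ω)
    (h : Fintype.card ι * t * (t - 1) ^ d < t ^ d) :
    ∃ f : Ω → Fin t, ∀ i j, ∃ z ∈ S i, f z = j := by
  classical
  by_contra hcon
  push Not at hcon
  have hcov : (univ : Finset (Ω → Fin t)) ⊆
      (univ : Finset (ι × Fin t)).biUnion fun p =>
        univ.filter fun f : Ω → Fin t => ∀ z ∈ S p.1, f z ≠ p.2 := by
    intro f _
    obtain ⟨i, j, hij⟩ := hcon f
    rw [Finset.mem_biUnion]
    exact ⟨(i, j), Finset.mem_univ _, by rw [Finset.mem_filter]; exact ⟨Finset.mem_univ _, hij⟩⟩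
  have h1 := Finset.card_le_card hcov
  have h2 : (univ : Finset (Ω → Fin t)).card = t ^ Fintype.card Ω := by simp
  have h3 : ((univ : Finset (ι × Fin t)).biUnion fun p =>
        univ.filter fun f : Ω → Fin t => ∀ z ∈ S p.1, f z ≠ p.2).card ≤
        (Fintype.card ι * t) * ((t - 1) ^ d * t ^ (Fintype.card Ω - d)) := by
    refine Finset.card_biUnion_le.trans ?_
    refine (Finset.sum_le_sum fun p _ => partition_card_miss (S p.1) (hd p.1) p.2).trans ?_
    rw [Finset.sum_const, Finset.card_univ, Fintype.card_prod, Fintype.card_fin, smul_eq_mul]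
  rw [h2] at h1
  have h4 := h1.trans h3
  have h5 : t ^ Fintype.card Ω = t ^ d * t ^ (Fintype.card Ω - d) := by
    rw [← pow_add]; congr 1; omega
  rw [h5, ← mul_assoc] at h4
  exact absurd (Nat.le_of_mul_le_mul_right h4 (Nat.pow_pos ht)) (not_le.mpr h)

/-- the main estimate -/
theorem partition_wsum_le (G : Subgroup (Perm Ω)) {t d : ℕ} (ht : 0 < t)
    (hd : ∀ x y, x ≠ y → d ≤ (sep G x y).card) (f : Ω → Fin t)
    (hf : ∀ x y, x ≠ y → ∀ j, ∃ z ∈ sep G x y, f z = j) :
    wsum G ≤ t * (9 / 10 : ℝ) ^ d *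
      (1 + Fintype.card Ω * (9 / 10 : ℝ) ^ t) ^ Fintype.card Ω := by
  classical
  set n := Fintype.card Ω with hn
  -- the class chosen for `g`
  have hpig : ∀ g : Perm Ω, ∃ j : Fin t,
      t * (g.support.filter fun z => f z = j).card ≤ g.support.card := by
    intro g
    by_contra hcon
    push Not at hcon
    have h1 : ∑ j : Fin t, g.support.card < ∑ j : Fin t,
        t * (g.support.filter fun z => f z = j).card := by
      apply Finset.sum_lt_sum_of_nonempty
      · exact ⟨⟨0, ht⟩, Finset.mem_univ _⟩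
      · intro j _; exact hcon j
    rw [← Finset.mul_sum, Finset.sum_const, Finset.card_univ, Fintype.card_fin, smul_eq_mul,
      ← Finset.card_eq_sum_card_fiberwise (f := f) (s := g.support) (t := univ)
        (fun _ _ => Finset.mem_univ _)] at h1
    exact lt_irrefl _ h1
  choose J hJ using hpig
  set A : Perm Ω → Finset Ω := fun g => g.support.filter fun z => f z = J g with hA
  set S := univ.filter (fun g : Perm Ω => g ∈ G ∧ g ≠ 1) with hS
  have hw : wsum G = ∑ g ∈ S, (4 / 5 : ℝ) ^ g.support.card := by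
    unfold wsum
    apply Finset.sum_congr _ (fun _ _ => rfl)
    ext g; simp [hS]
  -- pointwise bound
  have hpt : ∀ g ∈ S, (4 / 5 : ℝ) ^ g.support.card ≤
      (9 / 10 : ℝ) ^ d * ((9 / 10 : ℝ) ^ t) ^ (A g).card := by
    intro g hg
    rw [hS, Finset.mem_filter] at hg
    have h1 : d ≤ g.support.card := partition_le_support G hd hg.2.1 hg.2.2
    have h2 : t * (A g).card ≤ g.support.card := hJ g
    calc (4 / 5 : ℝ) ^ g.support.card ≤ ((9 / 10 : ℝ) * (9 / 10)) ^ g.support.card := by
          apply pow_le_pow_left₀ (by norm_num) (by norm_num)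
      _ = (9 / 10 : ℝ) ^ g.support.card * (9 / 10 : ℝ) ^ g.support.card := mul_pow _ _ _
      _ ≤ (9 / 10 : ℝ) ^ d * (9 / 10 : ℝ) ^ (t * (A g).card) := by
          apply mul_le_mul
          · exact pow_le_pow_of_le_one (by norm_num) (by norm_num) h1
          · exact pow_le_pow_of_le_one (by norm_num) (by norm_num) h2
          · positivity
          · positivity
      _ = _ := by rw [pow_mul]
  -- counting
  have hcount : ∀ (j : Fin t) (B : Finset Ω),
      (S.filter fun g => J g = j ∧ A g = B).card ≤ n ^ B.card := by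
    intro j B
    have hinj : Set.InjOn (fun (g : Perm Ω) (z : B) => g z)
        (S.filter fun g => J g = j ∧ A g = B : Finset (Perm Ω)) := by
      intro g hg g' hg' he
      rw [Finset.mem_coe, Finset.mem_filter, hS, Finset.mem_filter] at hg hg'
      refine partition_eq_of_eqOn G {z | f z = j} (fun x y hxy => ?_) hg.1.2.1 hg'.1.2.1 ?_
      · obtain ⟨z, hz, hz'⟩ := hf x y hxy j
        exact ⟨z, hz', hz⟩
      · intro z hz
        by_cases hzB : z ∈ B
        · exact congrFun he ⟨z, hzB⟩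
        · have h1 : g z = z := by
            by_contra hcon
            apply hzB
            rw [← hg.2.2, hA]
            simp only [Finset.mem_filter, Perm.mem_support]
            exact ⟨hcon, by rw [hg.2.1]; exact hz⟩
          have h2 : g' z = z := by
            by_contra hcon
            apply hzB
            rw [← hg'.2.2, hA]
            simp only [Finset.mem_filter, Perm.mem_support]
            exact ⟨hcon, by rw [hg'.2.1]; exact hz⟩
          rw [h1, h2]
    have := Finset.card_le_card_of_injOn (s := S.filter fun g => J g = j ∧ A g = B)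
      (t := (univ : Finset (B → Ω))) (fun (g : Perm Ω) (z : B) => g z)
      (fun _ _ => Finset.mem_univ _) hinj
    refine this.trans (le_of_eq ?_)
    rw [Finset.card_univ, Fintype.card_fun, Fintype.card_coe]
  -- summation
  set c : ℝ := (9 / 10 : ℝ) ^ t with hc
  have hc0 : 0 ≤ c := by rw [hc]; positivity
  calc wsum G = ∑ g ∈ S, (4 / 5 : ℝ) ^ g.support.card := hw
    _ ≤ ∑ g ∈ S, (9 / 10 : ℝ) ^ d * c ^ (A g).card := Finset.sum_le_sum hpt
    _ = ∑ p ∈ (univ : Finset (Fin t)) ×ˢ (univ : Finset Ω).powerset,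
          ∑ g ∈ S.filter (fun g => (J g, A g) = p), (9 / 10 : ℝ) ^ d * c ^ (A g).card := by
        rw [Finset.sum_fiberwise_of_maps_to]
        intro g _
        simp
    _ ≤ ∑ p ∈ (univ : Finset (Fin t)) ×ˢ (univ : Finset Ω).powerset,
          (9 / 10 : ℝ) ^ d * ((n : ℝ) * c) ^ p.2.card := by
        apply Finset.sum_le_sum
        intro p _
        have h1 : ∑ g ∈ S.filter (fun g => (J g, A g) = p), (9 / 10 : ℝ) ^ d * c ^ (A g).card =
            ∑ g ∈ S.filter (fun g => (J g, A g) = p), (9 / 10 : ℝ) ^ d * c ^ p.2.card := by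
          apply Finset.sum_congr rfl
          intro g hg
          rw [Finset.mem_filter] at hg
          rw [← hg.2]
        rw [h1, Finset.sum_const, nsmul_eq_mul]
        have h2 : (S.filter (fun g => (J g, A g) = p)).card ≤ n ^ p.2.card := by
          refine le_trans (le_of_eq ?_) (hcount p.1 p.2)
          congr 1
          apply Finset.filter_congr
          intro g _
          rw [Prod.ext_iff]
        have h3 : ((S.filter (fun g => (J g, A g) = p)).card : ℝ) ≤ (n : ℝ) ^ p.2.card := by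
          exact_mod_cast h2
        calc ((S.filter (fun g => (J g, A g) = p)).card : ℝ) * ((9 / 10 : ℝ) ^ d * c ^ p.2.card)
            ≤ (n : ℝ) ^ p.2.card * ((9 / 10 : ℝ) ^ d * c ^ p.2.card) :=
              mul_le_mul_of_nonneg_right h3 (by positivity)
          _ = _ := by rw [mul_pow]; ring
    _ = t * (9 / 10 : ℝ) ^ d * (1 + n * c) ^ n := by
        rw [Finset.sum_product]
        have h1 : ∑ B ∈ (univ : Finset Ω).powerset, (9 / 10 : ℝ) ^ d * ((n : ℝ) * c) ^ B.card =
            (9 / 10 : ℝ) ^ d * (1 + n * c) ^ n := by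
          rw [← Finset.mul_sum]
          congr 1
          have := Finset.sum_pow_mul_eq_add_pow ((n : ℝ) * c) 1 (univ : Finset Ω)
          simp only [one_pow, mul_one] at this
          rw [this, Finset.card_univ, add_comm]
        simp only [h1]
        rw [Finset.sum_const, Finset.card_univ, Fintype.card_fin, nsmul_eq_mul]
        ring

end Part

theorem partition_asym : ∃ K₀ : ℕ, ∀ K : ℕ, K₀ ≤ K → 16 * K ^ 8 ≤ 2 ^ K := by
  have h := tendsto_pow_const_div_const_pow_of_one_lt 8 (r := (2 : ℝ)) (by norm_num)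
  have h2 := (h.eventually (gt_mem_nhds (show (0 : ℝ) < 1 / 16 by norm_num)))
  rw [Filter.eventually_atTop] at h2
  obtain ⟨K₀, hK⟩ := h2
  refine ⟨K₀, fun K hK' => ?_⟩
  have h3 := hK K hK'
  rw [div_lt_iff₀ (by positivity)] at h3
  have h4 : (16 * (K : ℝ) ^ 8) ≤ 2 ^ K := by linarith
  exact_mod_cast h4

/-- first numerical condition -/
theorem partition_num1 {n K d : ℕ} (hK : 20 ≤ K) (hn : n ≤ 2 ^ K) (hd : K ^ 4 ≤ d) :
    (n * n) * (20 * K) * (20 * K - 1) ^ d < (20 * K) ^ d := by
  have hK0 : (0 : ℝ) < K := by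
    have : 0 < K := by omega
    exact_mod_cast this
  have hcast : ((20 * K - 1 : ℕ) : ℝ) = 20 * K - 1 := by
    rw [Nat.cast_sub (by omega)]; push_cast; ring
  have key : ((n : ℝ) * n) * (20 * K) * (20 * K - 1) ^ d < (20 * K) ^ d := by
    have h1 : (20 * (K : ℝ) - 1) = (20 * K) * (1 - 1 / (20 * K)) := by field_simp
    rw [h1, mul_pow]
    have h2 : (1 - 1 / (20 * (K : ℝ))) ^ d ≤ Real.exp (-(20 * K)) := by
      have h3 : (1 - 1 / (20 * (K : ℝ))) ≤ Real.exp (-(1 / (20 * K))) := by
        have := Real.add_one_le_exp (-(1 / (20 * (K : ℝ))))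
        linarith
      have h30 : 0 ≤ (1 - 1 / (20 * (K : ℝ))) := by
        rw [sub_nonneg, div_le_one (by positivity)]
        have : (20 : ℝ) ≤ K := by exact_mod_cast hK
        linarith
      calc (1 - 1 / (20 * (K : ℝ))) ^ d ≤ Real.exp (-(1 / (20 * K))) ^ d :=
            pow_le_pow_left₀ h30 h3 d
        _ = Real.exp (d * (-(1 / (20 * K)))) := by rw [← Real.exp_nat_mul]
        _ ≤ Real.exp (-(20 * K)) := by
            apply Real.exp_le_exp.mpr
            have h4 : (K : ℝ) ^ 4 ≤ d := by exact_mod_cast hd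
            have h5 : (20 : ℝ) ≤ K := by exact_mod_cast hK
            have h6 : (20 * (K : ℝ)) ≤ d * (1 / (20 * K)) := by
              rw [mul_one_div, le_div_iff₀ (by positivity)]
              calc 20 * (K : ℝ) * (20 * K) = 20 * 20 * (K : ℝ) ^ 2 := by ring
                _ ≤ K * K * (K : ℝ) ^ 2 := by gcongr
                _ = (K : ℝ) ^ 4 := by ring
                _ ≤ d := h4
            linarith
    have h7 : ((n : ℝ) * n) * (20 * K) * Real.exp (-(20 * K)) < 1 := by
      have h8 : (n : ℝ) ≤ Real.exp K := by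
        have h9 : (n : ℝ) ≤ 2 ^ K := by exact_mod_cast hn
        refine h9.trans ?_
        have h10 : (2 : ℝ) ≤ Real.exp 1 := by
          have := Real.add_one_le_exp (1 : ℝ)
          linarith
        calc (2 : ℝ) ^ K ≤ Real.exp 1 ^ K := pow_le_pow_left₀ (by norm_num) h10 K
          _ = Real.exp K := by rw [← Real.exp_nat_mul, mul_one]
      have h11 : (20 * (K : ℝ)) < Real.exp (20 * K - 1 + 1 - 2 * K) := by
        have h5 : (20 : ℝ) ≤ K := by exact_mod_cast hK
        have h12 := Real.add_one_le_exp (K : ℝ)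
        have h13 : (20 * (K : ℝ)) < (K + 1) * (K + 1) := by nlinarith
        calc (20 * (K : ℝ)) < (K + 1) * (K + 1) := h13
          _ ≤ Real.exp K * Real.exp K := by gcongr
          _ = Real.exp (K + K) := by rw [Real.exp_add]
          _ ≤ _ := by apply Real.exp_le_exp.mpr; linarith
      have h14 : 0 < Real.exp (-(20 * (K : ℝ))) := Real.exp_pos _
      calc ((n : ℝ) * n) * (20 * K) * Real.exp (-(20 * K))
          ≤ (Real.exp K * Real.exp K) * (20 * K) * Real.exp (-(20 * K)) := by gcongr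
        _ < (Real.exp K * Real.exp K) * Real.exp (20 * K - 1 + 1 - 2 * K) *
              Real.exp (-(20 * K)) := by gcongr
        _ = Real.exp (K + K + (20 * K - 1 + 1 - 2 * K) + -(20 * K)) := by
            rw [Real.exp_add, Real.exp_add, Real.exp_add]
        _ = 1 := by rw [← Real.exp_zero]; congr 1; ring
    have h15 : (0 : ℝ) < (20 * (K : ℝ)) ^ d := by positivity
    calc ((n : ℝ) * n) * (20 * K) * ((20 * K) ^ d * (1 - 1 / (20 * K)) ^ d)
        = (20 * K) ^ d * (((n : ℝ) * n) * (20 * K) * (1 - 1 / (20 * K)) ^ d) := by ring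
      _ ≤ (20 * K) ^ d * (((n : ℝ) * n) * (20 * K) * Real.exp (-(20 * K))) := by gcongr
      _ < (20 * K) ^ d * 1 := by gcongr
      _ = _ := mul_one _
  have key2 : (((n * n) * (20 * K) * (20 * K - 1) ^ d : ℕ) : ℝ) < (((20 * K) ^ d : ℕ) : ℝ) := by
    push_cast [hcast]
    exact key
  exact_mod_cast key2

/-- second numerical condition -/
theorem partition_num2 {n K d : ℕ} (hK : 20 ≤ K) (hn : n ≤ 2 ^ K) (hd : K ^ 4 ≤ d) :
    ((20 * K : ℕ) : ℝ) * (9 / 10 : ℝ) ^ d * (1 + n * (9 / 10 : ℝ) ^ (20 * K)) ^ n < 1 / 2 := by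
  have hK5 : (20 : ℝ) ≤ K := by exact_mod_cast hK
  have hc : (9 / 10 : ℝ) ^ (20 * K) ≤ ((1 / 8 : ℝ)) ^ K := by
    rw [pow_mul]
    exact pow_le_pow_left₀ (by positivity) (by norm_num) K
  have hn' : (n : ℝ) ≤ 2 ^ K := by exact_mod_cast hn
  have h1 : (1 + n * (9 / 10 : ℝ) ^ (20 * K)) ^ n ≤ 3 := by
    have h2 := Real.add_one_le_exp ((n : ℝ) * (9 / 10 : ℝ) ^ (20 * K))
    calc (1 + n * (9 / 10 : ℝ) ^ (20 * K)) ^ n
        ≤ Real.exp ((n : ℝ) * (9 / 10 : ℝ) ^ (20 * K)) ^ n := by
          apply pow_le_pow_left₀ (by positivity)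
          linarith
      _ = Real.exp (n * ((n : ℝ) * (9 / 10 : ℝ) ^ (20 * K))) := by rw [← Real.exp_nat_mul]
      _ ≤ Real.exp 1 := by
          apply Real.exp_le_exp.mpr
          calc (n : ℝ) * ((n : ℝ) * (9 / 10 : ℝ) ^ (20 * K))
              ≤ 2 ^ K * (2 ^ K * (1 / 8 : ℝ) ^ K) := by gcongr
            _ = ((2 : ℝ) * (2 * (1 / 8))) ^ K := by rw [mul_pow, mul_pow]
            _ ≤ 1 := by apply pow_le_one₀ (by norm_num) (by norm_num)
      _ ≤ 3 := by
          have := Real.exp_one_lt_d9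
          linarith
  have h3 : (9 / 10 : ℝ) ^ d ≤ (1 / 8 : ℝ) ^ K := by
    refine le_trans ?_ hc
    apply pow_le_pow_of_le_one (by norm_num) (by norm_num)
    calc 20 * K ≤ K * K := Nat.mul_le_mul_right _ hK
      _ = K ^ 2 * 1 := by ring
      _ ≤ K ^ 2 * K ^ 2 := by
          apply Nat.mul_le_mul_left
          have : 0 < K := by omega
          exact Nat.pos_of_ne_zero (by positivity)
      _ = K ^ 4 := by ring
      _ ≤ d := hd
  have h4 : (K : ℝ) * 121 ≤ 8 ^ K := by
    have h5 : K ≤ 2 ^ K := Nat.lt_two_pow_self.le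
    have h6 : (K : ℝ) ≤ 2 ^ K := by exact_mod_cast h5
    have h7 : (121 : ℝ) ≤ 4 ^ K := by
      calc (121 : ℝ) ≤ 4 ^ 20 := by norm_num
        _ ≤ 4 ^ K := pow_le_pow_right₀ (by norm_num) hK
    calc (K : ℝ) * 121 ≤ 2 ^ K * 4 ^ K := by gcongr
      _ = 8 ^ K := by rw [← mul_pow]; norm_num
  have h8 : (K : ℝ) * (1 / 8 : ℝ) ^ K ≤ 1 / 121 := by
    rw [one_div_pow, mul_one_div, div_le_div_iff₀ (by positivity) (by norm_num)]
    linarith
  calc ((20 * K : ℕ) : ℝ) * (9 / 10 : ℝ) ^ d * (1 + n * (9 / 10 : ℝ) ^ (20 * K)) ^ n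
      ≤ ((20 * K : ℕ) : ℝ) * (1 / 8 : ℝ) ^ K * 3 := by gcongr
    _ = 60 * (K * (1 / 8 : ℝ) ^ K) := by push_cast; ring
    _ ≤ 60 * (1 / 121) := by gcongr
    _ < 1 / 2 := by norm_num

theorem wsum_of_sep : ∃ n₀ : ℕ, ∀ (Ω : Type) [Fintype Ω] [DecidableEq Ω]
    (G : Subgroup (Perm Ω)), n₀ ≤ Fintype.card Ω →
    (∀ x y, x ≠ y → Fintype.card Ω ≤ 8 * (sep G x y).card ^ 2) → wsum G < 1 / 2 := by
  obtain ⟨K₀, hK₀⟩ := partition_asym
  refine ⟨2 ^ (K₀ + 20), fun Ω _ _ G hn hsep => ?_⟩
  set n := Fintype.card Ω with hndef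
  have hn0 : n ≠ 0 := by
    have : 0 < 2 ^ (K₀ + 20) := by positivity
    omega
  set K := Nat.log 2 n + 1 with hK
  have hKlow : K₀ + 20 ≤ Nat.log 2 n := Nat.le_log_of_pow_le (by norm_num) hn
  have hK20 : 20 ≤ K := by omega
  have hnK : n ≤ 2 ^ K := (Nat.lt_pow_succ_log_self (by norm_num) n).le
  have hnK' : 2 ^ Nat.log 2 n ≤ n := Nat.pow_log_le_self 2 hn0
  have h2K : 16 * K ^ 8 ≤ 2 ^ K := hK₀ K (by omega)
  -- the sets `sep` are big
  have hd : ∀ x y, x ≠ y → K ^ 4 ≤ (sep G x y).card := by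
    intro x y hxy
    by_contra hcon
    push Not at hcon
    have h1 := hsep x y hxy
    have h2 : 8 * (sep G x y).card ^ 2 < 8 * (K ^ 4) ^ 2 := by
      apply Nat.mul_lt_mul_of_pos_left _ (by norm_num)
      exact Nat.pow_lt_pow_left hcon (by norm_num)
    have h3 : 2 ^ K = 2 * 2 ^ Nat.log 2 n := by rw [hK, pow_succ]; ring
    have h4 : (K ^ 4) ^ 2 = K ^ 8 := by ring
    rw [h4] at h2
    omega
  have hdn : K ^ 4 ≤ n := by
    have h3 : 2 ^ K = 2 * 2 ^ Nat.log 2 n := by rw [hK, pow_succ]; ring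
    have h5 : K ^ 4 * 1 ≤ K ^ 4 * K ^ 4 := by
      apply Nat.mul_le_mul_left
      exact Nat.pos_of_ne_zero (by positivity)
    have h6 : K ^ 4 * K ^ 4 = K ^ 8 := by ring
    omega
  obtain ⟨f, hf⟩ := partition_exists (ι := {p : Ω × Ω // p.1 ≠ p.2})
    (fun p => sep G p.1.1 p.1.2) (t := 20 * K) (d := K ^ 4) (by omega)
    (fun p => hd _ _ p.2) hdn (by
      refine lt_of_le_of_lt ?_ (partition_num1 hK20 hnK le_rfl)
      apply Nat.mul_le_mul_right
      apply Nat.mul_le_mul_right
      refine (Fintype.card_subtype_le _).trans ?_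
      rw [Fintype.card_prod])
  refine lt_of_le_of_lt (partition_wsum_le G (t := 20 * K) (d := K ^ 4) (by omega) hd f
    (fun x y hxy j => hf ⟨(x, y), hxy⟩ j)) ?_
  exact partition_num2 hK20 hnK le_rfl

end Pool.Agent.Lib.MP_acf1dc_al
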