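import Mathlib
import Pool.Agent.Lib.MP_acf1dc_al.Defs
import Pool.Agent.Lib.MP_acf1dc_al.Colour
import Pool.Agent.Lib.MP_acf1dc_al.Babai
import Pool.Agent.Lib.MP_acf1dc_al.Partition
import Pool.Agent.Lib.MP_acf1dc_al.MinDegree
import Pool.Agent.Lib.MP_acf1dc_al.NoBigAlt
import Pool.Agent.Lib.MP_acf1dc_al.Bochert
import Pool.Agent.Lib.MP_acf1dc_al.Chain
import Pool.Agent.Lib.MP_acf1dc_al.Base
import Pool.Agent.Lib.MP_acf1dc_al.Induction

/-! Assembly. -/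

set_option autoImplicit false

namespace Pool.Agent.Lib.MP_acf1dc_al

open Equiv Finset

theorem wsum_of_twoTrans : ∃ n₀ : ℕ, ∀ (Ω : Type) [Fintype Ω] [DecidableEq Ω]
    (G : Subgroup (Perm Ω)), n₀ ≤ Fintype.card Ω → TwoTrans G → ¬ alternatingGroup Ω ≤ G →
    wsum G < 1 / 2 :=
  base_wsum_of_twoTrans
    (fun G h2 halt hn _ hg h1 => min_degree G h2 halt hn hg h1) noBigAlt
    (fun G _ hn hM hG => chain_main G hn hM hG (fun hΓ Δ _ _ hΔ φ => order_bound hΓ Δ hΔ φ))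

theorem exists_threshold : ∃ k₀ : ℕ, ∀ (B : Type) [Fintype B] [DecidableEq B]
    (R : Subgroup (Perm B)), k₀ ≤ Fintype.card B → Prim R → ¬ alternatingGroup B ≤ R →
    TwoTypes R := by
  obtain ⟨n₁, h₁⟩ := wsum_of_sep
  obtain ⟨n₂, h₂⟩ := wsum_of_twoTrans
  refine ⟨n₁ + n₂ + 3, fun B _ _ R hk hR halt => ?_⟩
  apply twoTypes_of_wsum R (by omega)
  by_cases h2 : TwoTrans R
  · exact h₂ B R (by omega) h2 halt
  · exact h₁ B R (by omega) fun x y hxy => babai R hR (by omega) h2 hxy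

end Pool.Agent.Lib.MP_acf1dc_al
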